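import Pool.Agent.Helper340_star.Tube

/-!
# The two a priori comparisons between two solutions

Helper file for `MP_437bdf_an`.
-/

open InnerProductSpace Laplacian Filter Topology Set Metric

namespace ExtStar

variable {d : ℕ} {γ : ℝ} {f : ℝ → ℝ} {Ω : Set (E d)} {u v : E d → ℝ}

/-- Inner ball property together with a linear boundary bound for `v`. -/
def InnerProp (Ω : Set (E d)) (v : E d → ℝ) (r C : ℝ) : Prop :=
  ∀ y ∈ Ω, ∃ p : E d, ball p r ⊆ Ω ∧ ‖y - p‖ < r ∧ v y ≤ C * (r - ‖y - p‖)

/-- A priori bound: `v(y) ≤ exp(B(1+‖l y‖)) u(l y)` for `l ≥ 1`. -/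
theorem apriori (hf : PositiveReaction γ f) (hΩ : IsOpen Ω) (hdil : DilInv Ω) (h0 : (0 : E d) ∉ Ω)
    (hu : IsSol f Ω u) (hv : IsSol f Ω v) {r C : ℝ} (hr : 0 < r) (hC : 0 < C)
    (hin : InnerProp Ω v r C) :
    ∃ B : ℝ, 0 ≤ B ∧ ∀ y ∈ Ω, ∀ l : ℝ, 1 ≤ l →
      Real.log (v y) - Real.log (u (l • y)) ≤ B * (1 + ‖l • y‖) := by
  obtain ⟨B, c, hB, hc, hc1, htube⟩ := tube d hf (r := r / 8) (by positivity)
  obtain ⟨cH, hcH, hhopf⟩ := hopf d hf hr
  refine ⟨|Real.log (C / cH) - Real.log c| + B * (1 + 2 * r), by positivity, ?_⟩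
  intro y hy l hl
  obtain ⟨p, hp, hyp, hvy⟩ := hin y hy
  have hl0 : 0 < l := by linarith
  set p' := p + (l - 1) • y with hp'
  have hball : ball p' r ⊆ Ω := by
    intro w hw
    have h1 : l⁻¹ • w ∈ Ω := by
      apply hp
      rw [mem_ball, dist_eq_norm] at hw ⊢
      have h2 : l⁻¹ • w - p = l⁻¹ • ((w - p') + (l - 1) • (y - p)) := by
        rw [hp', smul_add, smul_sub, smul_add, smul_smul, smul_smul]
        have h3 : l⁻¹ * (l - 1) = 1 - l⁻¹ := by field_simp
        rw [h3]
        module
      rw [h2, norm_smul, Real.norm_eq_abs, abs_of_pos (inv_pos.2 hl0), inv_mul_lt_iff₀ hl0]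
      have h4 : ‖(w - p') + (l - 1) • (y - p)‖ ≤ ‖w - p'‖ + (l - 1) * ‖y - p‖ := by
        refine (norm_add_le _ _).trans ?_
        rw [norm_smul, Real.norm_eq_abs, abs_of_nonneg (by linarith)]
      nlinarith
    have h3 := hdil _ h1 l hl
    rwa [smul_smul, mul_inv_cancel₀ hl0.ne', one_smul] at h3
  have hly : l • y ∈ Ω := hdil y hy l hl
  have hdist : l • y - p' = y - p := by
    rw [hp']; module
  set a := c * Real.exp (-(B * (‖l • y‖ + 2 * r))) with ha
  have ha0 : 0 < a := by positivity
  have ha1 : a ≤ 1 := by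
    have : Real.exp (-(B * (‖l • y‖ + 2 * r))) ≤ 1 := by
      apply Real.exp_le_one_iff.2
      have : 0 ≤ B * (‖l • y‖ + 2 * r) := by positivity
      linarith
    calc a ≤ 1 * 1 := by
          apply mul_le_mul hc1 this (Real.exp_pos _).le zero_le_one
      _ = 1 := by ring
  have hlow : ∀ w ∈ closedBall p' (r / 2), a ≤ u w := by
    intro w hw
    rw [mem_closedBall, dist_eq_norm] at hw
    have h1 : closedBall w (2 * (r / 8)) ⊆ Ω := by
      refine Subset.trans ?_ hball
      intro z hz
      rw [mem_closedBall, dist_eq_norm] at hz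
      rw [mem_ball, dist_eq_norm]
      have : z - p' = (z - w) + (w - p') := by abel
      rw [this]
      have := norm_add_le (z - w) (w - p')
      linarith
    have h2 := htube Ω u hΩ hu hdil h0 w h1
    refine le_trans ?_ h2
    have h3 : ‖w‖ ≤ ‖l • y‖ + 2 * r := by
      have h4 : w = l • y + ((w - p') - (l • y - p')) := by abel
      have h5 : ‖(w - p') - (l • y - p')‖ ≤ r / 2 + r := by
        refine (norm_sub_le _ _).trans ?_
        rw [hdist]
        linarith
      calc ‖w‖ = ‖l • y + ((w - p') - (l • y - p'))‖ := by rw [← h4]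
        _ ≤ ‖l • y‖ + ‖(w - p') - (l • y - p')‖ := norm_add_le _ _
        _ ≤ _ := by linarith
    simp only [ha]
    gcongr
  have h1 := hhopf Ω u hΩ hu p' a hball ha0 ha1 hlow (l • y) (by
    rw [mem_ball, dist_eq_norm, hdist]; exact hyp)
  rw [hdist] at h1
  have hvpos := hv.pos y hy
  have hupos := hu.pos _ hly
  -- v y ≤ (C / cH) * (u / a)
  have h2 : v y ≤ (C / cH) * (u (l • y) / a) := by
    have h3 : cH * (r - ‖y - p‖) ≤ u (l • y) / a := by
      rw [le_div_iff₀ ha0]; linarith
    calc v y ≤ C * (r - ‖y - p‖) := hvy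
      _ = (C / cH) * (cH * (r - ‖y - p‖)) := by field_simp
      _ ≤ (C / cH) * (u (l • y) / a) := by gcongr
  have h3 : Real.log (v y) ≤ Real.log (C / cH) + (Real.log (u (l • y)) - Real.log a) := by
    have h4 := Real.log_le_log hvpos h2
    rwa [Real.log_mul (by positivity) (by positivity), Real.log_div hupos.ne' ha0.ne'] at h4
  have h4 : Real.log a = Real.log c - B * (‖l • y‖ + 2 * r) := by
    simp only [ha]
    rw [Real.log_mul hc.ne' (Real.exp_pos _).ne', Real.log_exp]
    ring
  rw [h4] at h3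
  have h5 : Real.log (C / cH) - Real.log c ≤ |Real.log (C / cH) - Real.log c| := le_abs_self _
  have h6 : 0 ≤ ‖l • y‖ := norm_nonneg _
  have h7 : 0 ≤ |Real.log (C / cH) - Real.log c| * ‖l • y‖ := by positivity
  have h8 : 0 ≤ B * (2 * r) * ‖l • y‖ := by positivity
  nlinarith

/-- For large dilations, `v ≤ (1 + τ) u(l ·)`. -/
theorem start (hf : PositiveReaction γ f) (hΩ : IsOpen Ω) (hdil : DilInv Ω)
    (hu : IsSol f Ω u) (hv : IsSol f Ω v) {r C : ℝ} (hr : 0 < r) (hC : 0 < C)
    (hin : InnerProp Ω v r C) {τ : ℝ} (hτ : 0 < τ) (M : ℝ) :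
    ∃ l : ℝ, 1 < l ∧ M < l ∧ ∀ y ∈ Ω, v y ≤ (1 + τ) * u (l • y) := by
  set η := τ / (1 + τ) with hη
  have hη0 : 0 < η := by positivity
  have hη1 : (1 + τ) * (1 - η) = 1 := by simp only [hη]; field_simp; ring
  obtain ⟨R₁, hR₁, hnear⟩ := near_one d hf hη0
  obtain ⟨R₀, c₀, hR₀, hc₀, hc₁, hhair⟩ := hair d hf
  set R := R₁ + R₀ with hR
  have hRpos : 0 < R := by positivity
  obtain ⟨cH, hcH, hhopf⟩ := hopf d hf (R := 2 * R) (by positivity)
  set l := 1 + |M| + 2 * R / r + C / (c₀ * cH) with hl
  have hl1 : 1 < l := by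
    have h1 : 0 < 2 * R / r := by positivity
    have h2 : 0 < C / (c₀ * cH) := by positivity
    have h3 : 0 ≤ |M| := abs_nonneg _
    simp only [hl]; linarith
  have hlM : M < l := by
    have h1 : 0 < 2 * R / r := by positivity
    have h2 : 0 < C / (c₀ * cH) := by positivity
    have h3 : M ≤ |M| := le_abs_self _
    simp only [hl]; linarith
  have hl0 : 0 < l := by linarith
  have hlr : 2 * R < l * r := by
    have h1 : (2 * R / r) * r = 2 * R := by field_simp
    have h2 : 0 < C / (c₀ * cH) * r := by positivity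
    have h4 : 0 ≤ |M| * r := by positivity
    have h3 : l * r = r + |M| * r + (2 * R / r) * r + C / (c₀ * cH) * r := by
      simp only [hl]; ring
    rw [h3, h1]; linarith
  have hlC : C ≤ l * (c₀ * cH) := by
    have h1 : C / (c₀ * cH) * (c₀ * cH) = C := by field_simp
    have h2 : 0 < 2 * R / r := by positivity
    have h3 : l * (c₀ * cH) = (1 + |M| + 2 * R / r) * (c₀ * cH) +
        C / (c₀ * cH) * (c₀ * cH) := by
      simp only [hl]; ring
    rw [h3, h1]
    have : 0 ≤ (1 + |M| + 2 * R / r) * (c₀ * cH) := by positivity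
    linarith
  refine ⟨l, hl1, hlM, ?_⟩
  intro y hy
  obtain ⟨p, hp, hyp, hvy⟩ := hin y hy
  have hbig : ball (l • p) (l * r) ⊆ Ω := hdil.ball hl1.le hp
  set D := l * (r - ‖y - p‖) with hD
  have hDpos : 0 < D := mul_pos hl0 (by linarith)
  have hdist : ‖l • y - l • p‖ = l * r - D := by
    rw [← smul_sub, norm_smul, Real.norm_eq_abs, abs_of_pos hl0]
    simp only [hD]; ring
  have hly : l • y ∈ Ω := hdil y hy l hl1.le
  have hupos := hu.pos _ hly
  by_cases hcase : 2 * R ≤ D
  · have h1 : closedBall (l • y) R₁ ⊆ Ω := by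
      refine Subset.trans ?_ hbig
      intro z hz
      rw [mem_closedBall, dist_eq_norm] at hz
      rw [mem_ball, dist_eq_norm]
      have : z - l • p = (z - l • y) + (l • y - l • p) := by abel
      rw [this]
      have := norm_add_le (z - l • y) (l • y - l • p)
      linarith
    have h2 := hnear Ω u hΩ hu _ h1
    have h3 := hv.le_one hf hΩ hy
    nlinarith
  · push Not at hcase
    set x := l • y with hx
    have hpos : 0 < l * r - D := by linarith
    set k := (2 * R - D) / (l * r - D) with hk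
    have hk0 : 0 ≤ k := div_nonneg (by linarith) hpos.le
    have hk1 : k ≤ 1 := by rw [hk, div_le_one hpos]; linarith
    have hkk : k * (l * r - D) = 2 * R - D := by simp only [hk]; field_simp
    set q := x + k • (l • p - x) with hq
    have hxq : ‖x - q‖ = 2 * R - D := by
      have : x - q = k • (x - l • p) := by rw [hq]; module
      rw [this, norm_smul, Real.norm_eq_abs, abs_of_nonneg hk0, hdist, hkk]
    have hqp : ‖q - l • p‖ = l * r - 2 * R := by
      have : q - l • p = (1 - k) • (x - l • p) := by rw [hq]; module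
      rw [this, norm_smul, Real.norm_eq_abs, abs_of_nonneg (by linarith), hdist]
      linarith
    have hbq : ball q (2 * R) ⊆ Ω := by
      refine Subset.trans ?_ hbig
      apply ball_subset_ball'
      rw [dist_eq_norm, hqp]; linarith
    have hlow : ∀ w ∈ closedBall q (2 * R / 2), c₀ ≤ u w := by
      intro w hw
      rw [mem_closedBall, dist_eq_norm] at hw
      apply hhair Ω u hΩ hu w
      refine Subset.trans ?_ hbq
      intro z hz
      rw [mem_closedBall, dist_eq_norm] at hz
      rw [mem_ball, dist_eq_norm]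
      have : z - q = (z - w) + (w - q) := by abel
      rw [this]
      have := norm_add_le (z - w) (w - q)
      simp only [hR] at *
      linarith
    have h1 := hhopf Ω u hΩ hu q c₀ hbq hc₀ hc₁.le hlow x (by
      rw [mem_ball, dist_eq_norm, hxq]; linarith)
    rw [hxq] at h1
    have h2 : c₀ * (cH * D) ≤ u x := by
      have : 2 * R - (2 * R - D) = D := by ring
      rwa [this] at h1
    have h3 : v y ≤ u x := by
      refine le_trans hvy (le_trans ?_ h2)
      have h4 : c₀ * (cH * D) = (l * (c₀ * cH)) * (r - ‖y - p‖) := by simp only [hD]; ring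
      rw [h4]
      have : 0 ≤ r - ‖y - p‖ := by linarith
      gcongr
    nlinarith

end ExtStar
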