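import Pool.Agent.Helper340_star.Defs

/-!
# Facts about positive (monostable) reactions

Helper file for `MP_437bdf_an`.
-/

open Filter Topology Set

namespace ExtStar

/-- the quotient `f(t)/t`, extended continuously to `t = 0` -/
noncomputable def quo (f : ℝ → ℝ) : ℝ → ℝ :=
  Function.update (fun t => f t / t) 0 (derivWithin f (Ici 0) 0)

theorem quo_of_ne (f : ℝ → ℝ) {t : ℝ} (ht : t ≠ 0) : quo f t = f t / t := by
  simp [quo, ht]

theorem quo_zero (f : ℝ → ℝ) : quo f 0 = derivWithin f (Ici 0) 0 := by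
  simp [quo]

namespace PositiveReaction

variable {γ : ℝ} {f : ℝ → ℝ}

theorem continuousOn (hf : PositiveReaction γ f) : ContinuousOn f (Ici 0) :=
  hf.contDiffOn.continuousOn

theorem nonneg (hf : PositiveReaction γ f) {s : ℝ} (h0 : 0 ≤ s) (h1 : s ≤ 1) : 0 ≤ f s := by
  rcases eq_or_lt_of_le h0 with h | h
  · rw [← h, hf.zero]
  · rcases eq_or_lt_of_le h1 with h' | h'
    · rw [h', hf.one]
    · exact (hf.pos s h h').le

theorem quo_continuousOn (hf : PositiveReaction γ f) : ContinuousOn (quo f) (Ici 0) := by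
  intro t ht
  by_cases h0 : t = 0
  · subst h0
    unfold quo
    rw [continuousWithinAt_update_same]
    have hd : HasDerivWithinAt f (derivWithin f (Ici 0) 0) (Ici 0) 0 :=
      ((hf.contDiffOn.differentiableOn (by norm_num)) 0 (by simp)).hasDerivWithinAt
    rw [hasDerivWithinAt_iff_tendsto_slope] at hd
    refine hd.congr' ?_
    filter_upwards with x
    rw [slope_def_field, hf.zero]
    simp
  · have hpos : 0 < t := lt_of_le_of_ne ht (Ne.symm h0)
    have h1 : ContinuousWithinAt (fun t => f t / t) (Ici 0) t :=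
      (hf.continuousOn t ht).div continuousWithinAt_id h0
    refine h1.congr_of_eventuallyEq ?_ (quo_of_ne f h0)
    have : ∀ᶠ x in 𝓝[Ici 0] t, x ≠ 0 :=
      mem_nhdsWithin_of_mem_nhds (isOpen_ne.mem_nhds h0)
    filter_upwards [this] with x hx using quo_of_ne f hx

theorem quo_nonneg (hf : PositiveReaction γ f) {s : ℝ} (h0 : 0 ≤ s) (h1 : s ≤ 1) :
    0 ≤ quo f s := by
  rcases eq_or_lt_of_le h0 with h | h
  · rw [← h, quo_zero]; exact hf.deriv_zero.le
  · rw [quo_of_ne f h.ne']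
    exact div_nonneg (hf.nonneg h0 h1) h0

theorem quo_pos (hf : PositiveReaction γ f) {s : ℝ} (h0 : 0 ≤ s) (h1 : s < 1) :
    0 < quo f s := by
  rcases eq_or_lt_of_le h0 with h | h
  · rw [← h, quo_zero]; exact hf.deriv_zero
  · rw [quo_of_ne f h.ne']
    exact div_pos (hf.pos s h h1) h

/-- `f` is nonincreasing near `1` on the left. -/
theorem antitone_near_one (hf : PositiveReaction γ f) :
    ∃ η : ℝ, 0 < η ∧ η < 1 ∧ ∀ s t, 1 - η ≤ s → s ≤ t → t ≤ 1 → f t ≤ f s := by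
  have hcd : ContinuousOn (derivWithin f (Ici 0)) (Ici 0) :=
    hf.contDiffOn.continuousOn_derivWithin (uniqueDiffOn_Ici 0) (by norm_num)
  have h1 : ContinuousAt (derivWithin f (Ici 0)) 1 :=
    (hcd 1 (by simp)).continuousAt (Ici_mem_nhds (by norm_num))
  have h2 : ∀ᶠ x in 𝓝 (1:ℝ), derivWithin f (Ici 0) x < 0 :=
    h1.eventually (gt_mem_nhds hf.deriv_one)
  obtain ⟨ε, hε, H⟩ := Metric.eventually_nhds_iff.1 h2
  refine ⟨min (ε / 2) (1/2), by positivity, by
    have : min (ε/2) (1/2:ℝ) ≤ 1/2 := min_le_right _ _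
    linarith, ?_⟩
  intro s t hs hst ht
  have hη1 : min (ε/2) (1/2:ℝ) ≤ 1/2 := min_le_right _ _
  have hη2 : min (ε/2) (1/2:ℝ) ≤ ε/2 := min_le_left _ _
  have hanti : AntitoneOn f (Icc (1 - min (ε/2) (1/2:ℝ)) 1) := by
    apply antitoneOn_of_deriv_nonpos (convex_Icc _ _)
    · exact hf.continuousOn.mono (fun x hx => by
        have := hx.1
        simp only [mem_Ici]; linarith)
    · intro x hx
      rw [interior_Icc] at hx
      have hx0 : 0 < x := by linarith [hx.1]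
      have : DifferentiableAt ℝ f x :=
        ((hf.contDiffOn.differentiableOn (by norm_num)) x hx0.le).differentiableAt
          (Ici_mem_nhds hx0)
      exact this.differentiableWithinAt
    · intro x hx
      rw [interior_Icc] at hx
      have hx0 : 0 < x := by linarith [hx.1]
      have hxd : dist x 1 < ε := by
        rw [Real.dist_eq, abs_lt]
        constructor <;> linarith [hx.1, hx.2]
      have := H hxd
      rw [derivWithin_of_mem_nhds (Ici_mem_nhds hx0)] at this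
      exact this.le
  exact hanti ⟨hs, hst.trans ht⟩ ⟨hs.trans hst, ht⟩ hst

/-- `f` is at least `μ s` for small `s`. -/
theorem linear_near_zero (hf : PositiveReaction γ f) :
    ∃ μ s₀ : ℝ, 0 < μ ∧ 0 < s₀ ∧ s₀ < 1 ∧ ∀ s, 0 < s → s ≤ s₀ → μ * s < f s := by
  have h1 := hf.quo_continuousOn 0 (by simp)
  have h2 : ∀ᶠ x in 𝓝[Ici 0] (0:ℝ), derivWithin f (Ici 0) 0 / 2 < quo f x := by
    refine h1.eventually (lt_mem_nhds ?_)
    rw [quo_zero]
    linarith [hf.deriv_zero]
  rw [eventually_nhdsWithin_iff] at h2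
  obtain ⟨ε, hε, H⟩ := Metric.eventually_nhds_iff.1 h2
  refine ⟨derivWithin f (Ici 0) 0 / 2, min (ε/2) (1/2), by linarith [hf.deriv_zero], by positivity,
    by
      have : min (ε/2) (1/2:ℝ) ≤ 1/2 := min_le_right _ _
      linarith, ?_⟩
  intro s hs hs'
  have hη2 : min (ε/2) (1/2:ℝ) ≤ ε/2 := min_le_left _ _
  have := H (y := s) (by rw [Real.dist_eq, sub_zero, abs_of_pos hs]; linarith) hs.le
  rw [quo_of_ne f hs.ne'] at this
  rwa [lt_div_iff₀ hs] at this

/-- upper bound of the quotient on `[0,1]` -/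
theorem quo_bdd (hf : PositiveReaction γ f) :
    ∃ C : ℝ, 0 ≤ C ∧ ∀ s, 0 ≤ s → s ≤ 1 → quo f s ≤ C := by
  have hc : ContinuousOn (quo f) (Icc 0 1) := hf.quo_continuousOn.mono Icc_subset_Ici_self
  obtain ⟨x, hx, hmax⟩ := isCompact_Icc.exists_isMaxOn (nonempty_Icc.2 zero_le_one) hc
  refine ⟨quo f x, hf.quo_nonneg hx.1 hx.2, fun s h0 h1 => hmax ⟨h0, h1⟩⟩

/-- upper bound of `f` on `[0,1]` -/
theorem bdd (hf : PositiveReaction γ f) :
    ∃ C : ℝ, 0 ≤ C ∧ ∀ s, 0 ≤ s → s ≤ 1 → f s ≤ C := by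
  have hc : ContinuousOn f (Icc 0 1) := hf.continuousOn.mono Icc_subset_Ici_self
  obtain ⟨x, hx, hmax⟩ := isCompact_Icc.exists_isMaxOn (nonempty_Icc.2 zero_le_one) hc
  refine ⟨f x, hf.nonneg hx.1 hx.2, fun s h0 h1 => hmax ⟨h0, h1⟩⟩

/-- `f` is bounded below on compact subintervals of `(0,1)`. -/
theorem lower (hf : PositiveReaction γ f) {a b : ℝ} (ha : 0 < a) (hb : b < 1) :
    ∃ m : ℝ, 0 < m ∧ ∀ s, a ≤ s → s ≤ b → m ≤ f s := by
  by_cases hab : a ≤ b
  · have hc : ContinuousOn f (Icc a b) := hf.continuousOn.mono (fun x hx => by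
      have := hx.1
      simp only [mem_Ici]; linarith)
    obtain ⟨x, hx, hmin⟩ := isCompact_Icc.exists_isMinOn (nonempty_Icc.2 hab) hc
    exact ⟨f x, hf.pos x (by linarith [hx.1]) (by linarith [hx.2]), fun s h0 h1 => hmin ⟨h0, h1⟩⟩
  · exact ⟨1, one_pos, fun s h0 h1 => absurd (h0.trans h1) hab⟩

/-- `f` is bounded above by a negative constant on compact subintervals of `(1,∞)`. -/
theorem upper_neg (hf : PositiveReaction γ f) {a : ℝ} (ha : 1 < a) (b : ℝ) :
    ∃ m : ℝ, 0 < m ∧ ∀ s, a ≤ s → s ≤ b → f s ≤ -m := by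
  by_cases hab : a ≤ b
  · have hc : ContinuousOn f (Icc a b) := hf.continuousOn.mono (fun x hx => by
      have := hx.1
      simp only [mem_Ici]; linarith)
    obtain ⟨x, hx, hmax⟩ := isCompact_Icc.exists_isMaxOn (nonempty_Icc.2 hab) hc
    refine ⟨-f x, by linarith [hf.neg x (by linarith [hx.1])], fun s h0 h1 => ?_⟩
    have := hmax ⟨h0, h1⟩
    simp only [Set.mem_ofPred_eq] at this
    linarith
  · exact ⟨1, one_pos, fun s h0 h1 => absurd (h0.trans h1) hab⟩

/-- Strict comparison of the quotient at `v` and at the slightly smaller point `v/(1+τ)`. -/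
theorem quo_gap (hf : PositiveReaction γ f) {L : ℝ} (hL : 1 < L) :
    ∃ τ₀ : ℝ, 0 < τ₀ ∧ ∀ τ, 0 < τ → τ < τ₀ → ∀ v, 0 ≤ v → v ≤ 1 →
      quo f v < L * quo f (v / (1 + τ)) := by
  obtain ⟨η, hη0, hη1, hanti⟩ := hf.antitone_near_one
  -- lower bound of quo on [0, 1 - η/2]
  have hc : ContinuousOn (quo f) (Icc 0 1) := hf.quo_continuousOn.mono Icc_subset_Ici_self
  have hc' : ContinuousOn (quo f) (Icc 0 (1 - η/2)) := hc.mono (Icc_subset_Icc le_rfl (by linarith))
  obtain ⟨x, hx, hmin⟩ := isCompact_Icc.exists_isMinOn (nonempty_Icc.2 (by linarith)) hc'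
  have hxpos : 0 < quo f x := hf.quo_pos hx.1 (by linarith [hx.2])
  set c := quo f x with hcdef
  -- uniform continuity
  have huc := isCompact_Icc.uniformContinuousOn_of_continuous hc
  rw [Metric.uniformContinuousOn_iff] at huc
  have hω : 0 < (L - 1) * c / (2 * L) := by
    have : 0 < L - 1 := by linarith
    positivity
  obtain ⟨ρ, hρ, H⟩ := huc _ hω
  refine ⟨min ρ (η / 2), by positivity, ?_⟩
  intro τ hτ hτ' v hv0 hv1
  have hτρ : τ < ρ := lt_of_lt_of_le hτ' (min_le_left _ _)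
  have hτη : τ < η / 2 := lt_of_lt_of_le hτ' (min_le_right _ _)
  have h1τ : 0 < 1 + τ := by linarith
  have hU0 : 0 ≤ v / (1 + τ) := by positivity
  have hUv : v / (1 + τ) ≤ v := div_le_self hv0 (by linarith)
  have hUlt : v / (1 + τ) < 1 := by
    rw [div_lt_one h1τ]; linarith
  have hdiff : v - v / (1 + τ) ≤ τ := by
    have : v - v / (1 + τ) = v * τ / (1 + τ) := by field_simp; ring
    rw [this, div_le_iff₀ h1τ]
    nlinarith
  by_cases hv : v ≤ 1 - η / 2
  · have hd : dist v (v / (1 + τ)) < ρ := by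
      rw [Real.dist_eq, abs_of_nonneg (by linarith)]
      linarith
    have h2 := H v ⟨hv0, hv1⟩ (v / (1 + τ)) ⟨hU0, hUlt.le⟩ hd
    rw [Real.dist_eq, abs_lt] at h2
    have h3 : c ≤ quo f v := hmin ⟨hv0, hv⟩
    have hL0 : 0 < L := by linarith
    have h4 : L * ((L - 1) * c / (2 * L)) = (L - 1) * c / 2 := by field_simp
    have h5 : L * (quo f v - (L - 1) * c / (2 * L)) < L * quo f (v / (1 + τ)) := by
      apply mul_lt_mul_of_pos_left _ hL0
      linarith [h2.2]
    have h6 : quo f v < L * (quo f v - (L - 1) * c / (2 * L)) := by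
      rw [mul_sub, h4]
      nlinarith [mul_le_mul_of_nonneg_left h3 (by linarith : (0:ℝ) ≤ L - 1)]
    linarith
  · push Not at hv
    have hUge : 1 - η ≤ v / (1 + τ) := by linarith
    have hU0' : 0 < v / (1 + τ) := by linarith
    have hv0' : 0 < v := by linarith
    have h2 := hanti _ _ hUge hUv hv1
    have h3 : 0 < quo f (v / (1 + τ)) := hf.quo_pos hU0 hUlt
    have h4 : quo f v ≤ quo f (v / (1 + τ)) := by
      rw [quo_of_ne f hv0'.ne', quo_of_ne f hU0'.ne']
      calc f v / v ≤ f (v / (1 + τ)) / v := by gcongr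
        _ ≤ f (v / (1 + τ)) / (v / (1 + τ)) := by
          apply div_le_div_of_nonneg_left _ hU0' hUv
          exact hf.nonneg hU0 hUlt.le
    nlinarith

/-- The reaction inequality used at the touching point. -/
theorem reaction_gap (hf : PositiveReaction γ f) {L : ℝ} (hL : 1 < L) {τ₁ : ℝ} (hτ₁ : 0 < τ₁) :
    ∃ τ, 0 < τ ∧ τ < τ₁ ∧ ∃ c, 0 < c ∧ ∃ r, 0 < r ∧ ∀ κ, 0 ≤ κ → κ < r → κ ≤ 1 →
      ∀ P, 1 + τ ≤ P → P < 1 + τ + r → ∀ v, 0 < v → v ≤ 1 →
        (1 + κ) * (f v / v) + c ≤ L * (f (v ^ (1 + κ) / P) / (v ^ (1 + κ) / P)) := by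
  obtain ⟨τ₀, hτ₀, H⟩ := hf.quo_gap hL
  set τ := min τ₀ τ₁ / 2 with hτdef
  have hmin : 0 < min τ₀ τ₁ := by positivity
  have hτ : 0 < τ := by positivity
  have hτ0 : τ < τ₀ := by
    have := min_le_left τ₀ τ₁
    simp only [hτdef]; linarith
  have hτ1 : τ < τ₁ := by
    have := min_le_right τ₀ τ₁
    simp only [hτdef]; linarith
  refine ⟨τ, hτ, hτ1, ?_⟩
  have hq : ContinuousOn (quo f) (Ici 0) := hf.quo_continuousOn
  -- the function of three variables
  set Θ : ℝ × ℝ × ℝ → ℝ := fun z => L * quo f (z.1 ^ (1 + z.2.1) / z.2.2) -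
    (1 + z.2.1) * quo f z.1 with hΘ
  set S : Set (ℝ × ℝ × ℝ) := Icc 0 1 ×ˢ (Icc 0 1 ×ˢ Icc (1 + τ) (2 + τ)) with hS
  have hScomp : IsCompact S := isCompact_Icc.prod (isCompact_Icc.prod isCompact_Icc)
  have hΘc : ContinuousOn Θ S := by
    have h1 : ContinuousOn (fun z : ℝ × ℝ × ℝ => z.1 ^ (1 + z.2.1) / z.2.2) S := by
      apply ContinuousOn.div
      · apply ContinuousOn.rpow continuousOn_fst (by fun_prop)
        intro z hz
        right
        have := hz.2.1.1
        linarith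
      · fun_prop
      · intro z hz
        have := hz.2.2.1
        intro h
        linarith
    have h2 : MapsTo (fun z : ℝ × ℝ × ℝ => z.1 ^ (1 + z.2.1) / z.2.2) S (Ici 0) := by
      intro z hz
      have ha := hz.1.1
      have hb := hz.2.2.1
      simp only [mem_Ici]
      apply div_nonneg (Real.rpow_nonneg ha _)
      linarith
    have h3 : ContinuousOn (fun z : ℝ × ℝ × ℝ => quo f z.1) S :=
      hq.comp continuousOn_fst (fun z hz => hz.1.1)
    have h4 := hq.comp h1 h2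
    apply ContinuousOn.sub
    · exact continuousOn_const.mul h4
    · exact ContinuousOn.mul (by fun_prop) h3
  -- positivity at `κ = 0`, `P = 1 + τ`
  have hbase : ContinuousOn (fun v : ℝ => Θ (v, 0, 1 + τ)) (Icc 0 1) := by
    apply hΘc.comp (by fun_prop)
    intro v hv
    exact ⟨hv, ⟨le_rfl, zero_le_one⟩, ⟨le_rfl, by linarith⟩⟩
  obtain ⟨x, hx, hxmin⟩ := isCompact_Icc.exists_isMinOn (nonempty_Icc.2 zero_le_one) hbase
  have hxpos : 0 < Θ (x, 0, 1 + τ) := by
    have := H τ hτ hτ0 x hx.1 hx.2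
    simp only [hΘ, add_zero, Real.rpow_one, one_mul]
    linarith
  set c := Θ (x, 0, 1 + τ) / 2 with hc
  have hcpos : 0 < c := by positivity
  have huc := hScomp.uniformContinuousOn_of_continuous hΘc
  rw [Metric.uniformContinuousOn_iff] at huc
  obtain ⟨r, hr, HR⟩ := huc c hcpos
  refine ⟨c, hcpos, min r 1, by positivity, ?_⟩
  intro κ hκ0 hκr hκ1 P hP1 hP2 v hv0 hv1
  have hrr : min r 1 ≤ r := min_le_left _ _
  have hr1 : min r 1 ≤ 1 := min_le_right _ _
  have hz1 : ((v, κ, P) : ℝ × ℝ × ℝ) ∈ S := ⟨⟨hv0.le, hv1⟩, ⟨hκ0, hκ1⟩, ⟨hP1, by linarith⟩⟩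
  have hz2 : ((v, 0, 1 + τ) : ℝ × ℝ × ℝ) ∈ S :=
    ⟨⟨hv0.le, hv1⟩, ⟨le_rfl, zero_le_one⟩, ⟨le_rfl, by linarith⟩⟩
  have hd : dist ((v, κ, P) : ℝ × ℝ × ℝ) (v, 0, 1 + τ) < r := by
    rw [Prod.dist_eq, Prod.dist_eq]
    simp only [dist_self, Real.dist_eq, sub_zero]
    rw [abs_of_nonneg hκ0, abs_of_nonneg (by linarith)]
    apply max_lt hr (max_lt (by linarith) (by linarith))
  have h1 := HR _ hz1 _ hz2 hd
  rw [Real.dist_eq, abs_lt] at h1
  have h2 : Θ (x, 0, 1 + τ) ≤ Θ (v, 0, 1 + τ) := hxmin ⟨hv0.le, hv1⟩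
  have h3 : c ≤ Θ (v, κ, P) := by
    have : Θ (x, 0, 1 + τ) = 2 * c := by simp only [hc]; ring
    linarith [h1.1]
  have hP0 : 0 < P := by linarith
  have hU : 0 < v ^ (1 + κ) / P := div_pos (Real.rpow_pos_of_pos hv0 _) hP0
  simp only [hΘ] at h3
  rw [quo_of_ne f hU.ne', quo_of_ne f hv0.ne'] at h3
  linarith

end PositiveReaction

end ExtStar
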