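import Pool.Agent.Helper340_star.Calc
import Pool.Agent.Helper340_star.Reaction

/-!
# Elementary a priori bounds for solutions of `-Δu = f(u)`

Helper file for `MP_437bdf_an`.
-/

open InnerProductSpace Laplacian Filter Topology Set Metric

namespace ExtStar

variable {d : ℕ}

variable {γ : ℝ} {f : ℝ → ℝ} {Ω : Set (E d)} {u : E d → ℝ}

theorem IsSol.contDiffAt (hu : IsSol f Ω u) (hΩ : IsOpen Ω) {x : E d} (hx : x ∈ Ω) :
    ContDiffAt ℝ 2 u x := hu.contDiffOn.contDiffAt (hΩ.mem_nhds hx)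

theorem IsSol.nonneg (hu : IsSol f Ω u) (hΩ : IsOpen Ω) {x : E d} (hx : x ∈ closure Ω) :
    0 ≤ u x := by
  by_cases h : x ∈ Ω
  · exact (hu.pos x h).le
  · rw [hu.bdry x (by rw [hΩ.frontier_eq]; exact ⟨hx, h⟩)]

theorem sum_const_two (d : ℕ) (c : ℝ) : ∑ _i : Fin d, c = d * c := by simp

theorem sum_affine (a b : ℝ) (z p : E d) :
    ∑ i : Fin d, (a * (z i - p i) ^ 2 + b) = a * ‖z - p‖ ^ 2 + d * b := by
  rw [Finset.sum_add_distrib, sum_const_two, norm_sq_sum, ← Finset.mul_sum]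
  simp only [PiLp.sub_apply]

/-- Every solution is at most `1`. -/
theorem IsSol.le_one (hf : PositiveReaction γ f) (hΩ : IsOpen Ω) (hu : IsSol f Ω u)
    {x : E d} (hx : x ∈ Ω) : u x ≤ 1 := by
  by_contra hgt
  push Not at hgt
  obtain ⟨C, hC⟩ := hu.bdd
  have hCx := hC x hx
  set a := (1 + u x) / 2 with ha
  have ha1 : 1 < a := by simp only [ha]; linarith
  obtain ⟨m, hm, hfm⟩ := hf.upper_neg ha1 C
  set ε := min ((u x - 1) / (2 * (1 + ‖x‖ ^ 2))) (m / (2 * (2 * d + 1))) with hε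
  have hux : 0 < u x - 1 := by linarith
  have hεpos : 0 < ε := by positivity
  have hε1 : ε * ‖x‖ ^ 2 ≤ (u x - 1) / 2 := by
    have h1 : ε ≤ (u x - 1) / (2 * (1 + ‖x‖ ^ 2)) := min_le_left _ _
    have h2 : ε * (2 * (1 + ‖x‖ ^ 2)) ≤ u x - 1 := by
      rwa [le_div_iff₀ (by positivity)] at h1
    nlinarith
  have hε2 : d * (ε * 2) < m := by
    have h1 : ε ≤ m / (2 * (2 * d + 1)) := min_le_right _ _
    have h2 : ε * (2 * (2 * d + 1)) ≤ m := by
      rwa [le_div_iff₀ (by positivity)] at h1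
    have h3 : (0:ℝ) ≤ d := by positivity
    nlinarith
  set R := (C + 1) / ε + 1 with hR
  have hC0 : 0 < C := by linarith
  have hR1 : 1 ≤ R := by
    have : 0 ≤ (C + 1) / ε := by positivity
    simp only [hR]; linarith
  have hεR : C + 1 ≤ ε * R ^ 2 := by
    have h1 : ε * R = C + 1 + ε := by
      simp only [hR]; field_simp
    nlinarith
  set g : E d → ℝ := fun z => u z - ε * ‖z - 0‖ ^ 2 with hg
  have hS : IsCompact (closure Ω ∩ closedBall (0 : E d) R) :=
    (isCompact_closedBall 0 R).inter_left isClosed_closure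
  have hgc : ContinuousOn g (closure Ω ∩ closedBall (0 : E d) R) := by
    apply ContinuousOn.sub (hu.continuousOn.mono inter_subset_left)
    fun_prop
  have hxR : x ∈ closedBall (0 : E d) R := by
    rw [mem_closedBall, dist_zero_right]
    by_contra hlt
    push Not at hlt
    have : R ^ 2 < ‖x‖ ^ 2 := by nlinarith
    nlinarith
  obtain ⟨z, hz, hmax⟩ := hS.exists_isMaxOn ⟨x, subset_closure hx, hxR⟩ hgc
  have hgx : a ≤ g x := by
    simp only [hg, ha, sub_zero]; linarith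
  have hgz : g x ≤ g z := hmax ⟨subset_closure hx, hxR⟩
  have hzu : g z ≤ u z := by
    simp only [hg]
    have : 0 ≤ ε * ‖z - 0‖ ^ 2 := by positivity
    linarith
  have hzΩ : z ∈ Ω := by
    by_contra hzn
    have : u z = 0 := hu.bdry z (by rw [hΩ.frontier_eq]; exact ⟨hz.1, hzn⟩)
    linarith
  have hzR : ‖z‖ < R := by
    by_contra hlt
    push Not at hlt
    have h1 : R ^ 2 ≤ ‖z‖ ^ 2 := by nlinarith
    have h2 : g z ≤ C - (C + 1) := by
      simp only [hg, sub_zero]
      nlinarith [hC z hzΩ]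
    linarith
  have hV : Ω ∩ ball (0 : E d) R ∈ 𝓝 z :=
    (hΩ.inter isOpen_ball).mem_nhds ⟨hzΩ, by simpa using hzR⟩
  have hloc : IsLocalMax g z := by
    apply IsMaxOn.isLocalMax (s := Ω ∩ ball (0 : E d) R) _ hV
    intro w hw
    exact hmax ⟨subset_closure hw.1, ball_subset_closedBall hw.2⟩
  have hlap := lap_le_of_localMax (hu.contDiffAt hΩ hzΩ)
    (fun i => (jet_normSq z 0 i).const_mul ε) hloc
  rw [sum_const_two] at hlap
  have heq := hu.eqn z hzΩ
  have := hfm (u z) (by linarith) (hC z hzΩ)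
  linarith

theorem IsSol.le_one' (hf : PositiveReaction γ f) (hΩ : IsOpen Ω) (hu : IsSol f Ω u)
    {x : E d} (hx : x ∈ closure Ω) : u x ≤ 1 := by
  by_cases h : x ∈ Ω
  · exact hu.le_one hf hΩ h
  · rw [hu.bdry x (by rw [hΩ.frontier_eq]; exact ⟨hx, h⟩)]
    norm_num

/-- Hair-trigger lower bound at the centre of large balls. -/
theorem hair (d : ℕ) (hf : PositiveReaction γ f) :
    ∃ R₀ c₀ : ℝ, 0 < R₀ ∧ 0 < c₀ ∧ c₀ < 1 ∧
      ∀ (Ω : Set (E d)) (u : E d → ℝ), IsOpen Ω → IsSol f Ω u →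
        ∀ x, closedBall x R₀ ⊆ Ω → c₀ ≤ u x := by
  obtain ⟨μ, s₀, hμ, hs₀, hs₁, hlin⟩ := hf.linear_near_zero
  set R := 1 + (8 + 4 * d) ^ 2 / (32 * μ) with hR
  have hR1 : 1 ≤ R := by
    have : 0 ≤ (8 + 4 * (d:ℝ)) ^ 2 / (32 * μ) := by positivity
    simp only [hR]; linarith
  have hR2 : (8 + 4 * (d:ℝ)) ^ 2 ≤ 32 * μ * R ^ 2 := by
    have h1 : 32 * μ * R = 32 * μ + (8 + 4 * (d:ℝ)) ^ 2 := by
      simp only [hR]; field_simp
    have h2 : R ≤ R ^ 2 := by nlinarith
    nlinarith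
  refine ⟨R, s₀, by linarith, hs₀, hs₁, ?_⟩
  intro Ω u hΩ hu x hball
  by_contra hlt
  push Not at hlt
  have hxΩ : x ∈ Ω := hball (mem_closedBall_self (by linarith))
  have hux := hu.pos x hxΩ
  have huc : ContinuousOn u (closedBall x R) :=
    (hu.continuousOn.mono subset_closure).mono hball
  set φ : E d → ℝ := fun z => (R ^ 2 - ‖z - x‖ ^ 2) ^ 2 with hφ
  have hφc : Continuous φ := by fun_prop
  have hrc : ContinuousOn (fun z => φ z / u z) (closedBall x R) :=
    hφc.continuousOn.div huc (fun z hz => (hu.pos z (hball hz)).ne')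
  obtain ⟨z, hz, hmax⟩ := (isCompact_closedBall x R).exists_isMaxOn
    ⟨x, mem_closedBall_self (by linarith)⟩ hrc
  have hzΩ := hball hz
  have huz := hu.pos z hzΩ
  have hφx : φ x = R ^ 4 := by simp only [hφ, sub_self, norm_zero]; ring
  have h1 : φ x / u x ≤ φ z / u z := hmax (mem_closedBall_self (by linarith))
  have hφxpos : 0 < φ x / u x := by
    rw [hφx]; positivity
  have hφz : 0 < φ z := by
    by_contra hn
    push Not at hn
    have : φ z / u z ≤ 0 := div_nonpos_of_nonpos_of_nonneg hn huz.le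
    linarith
  set t := u z / φ z with ht
  have htpos : 0 < t := div_pos huz hφz
  have htz : t * φ z = u z := by simp only [ht]; field_simp
  have hle : ∀ w ∈ closedBall x R, t * φ w ≤ u w := by
    intro w hw
    have h2 : φ w / u w ≤ φ z / u z := hmax hw
    have huw := hu.pos w (hball hw)
    rw [div_le_div_iff₀ huw huz] at h2
    rw [ht, div_mul_eq_mul_div, div_le_iff₀ hφz]
    linarith
  have hzR : ‖z - x‖ < R := by
    rw [mem_closedBall, dist_eq_norm] at hz
    rcases lt_or_eq_of_le hz with h | h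
    · exact h
    · exfalso
      have : φ z = 0 := by simp only [hφ, h]; ring
      linarith
  have hV : ball x R ∈ 𝓝 z := isOpen_ball.mem_nhds (by rw [mem_ball, dist_eq_norm]; exact hzR)
  have hloc : IsLocalMin (fun w => u w - t * φ w) z := by
    apply IsMinOn.isLocalMin (s := ball x R) _ hV
    intro w hw
    have := hle w (ball_subset_closedBall hw)
    simp only [Set.mem_ofPred_eq]
    linarith
  have hjet : ∀ i, Jet (fun s => t * φ (z + s • bv i))
      (t * (2 * (R ^ 2 - ‖z - x‖ ^ 2) * (0 - 2 * (z i - x i))))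
      (t * (2 * (0 - 2 * (z i - x i)) ^ 2 + 2 * (R ^ 2 - ‖z - x‖ ^ 2) * (0 - 2))) := by
    intro i
    have h1 := ((Jet.const (R ^ 2)).sub (jet_normSq z x i)).sq.const_mul t
    simpa using h1
  have hlap := lap_ge_of_localMin (hu.contDiffAt hΩ hzΩ) hjet hloc
  rw [← Finset.mul_sum] at hlap
  have hsum : ∑ i : Fin d, (2 * (0 - 2 * (z i - x i)) ^ 2 + 2 * (R ^ 2 - ‖z - x‖ ^ 2) * (0 - 2))
      = 8 * R ^ 2 - (8 + 4 * d) * (R ^ 2 - ‖z - x‖ ^ 2) := by
    calc _ = ∑ i : Fin d, (8 * (z i - x i) ^ 2 + (-(4 * (R ^ 2 - ‖z - x‖ ^ 2)))) :=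
          Finset.sum_congr rfl (fun i _ => by ring)
      _ = _ := by rw [sum_affine]; ring
  rw [hsum] at hlap
  have heq := hu.eqn z hzΩ
  set A := R ^ 2 - ‖z - x‖ ^ 2 with hA
  have hApos : 0 < A := by
    have : 0 ≤ ‖z - x‖ := norm_nonneg _
    simp only [hA]; nlinarith
  have hφzA : φ z = A ^ 2 := rfl
  -- quadratic inequality
  have hquad : (8 + 4 * d) * A - 8 * R ^ 2 ≤ μ * A ^ 2 := by
    have h3 : 0 ≤ (8 * μ * A - 4 * (8 + 4 * (d:ℝ))) ^ 2 := sq_nonneg _
    have h4 : 0 < μ := hμ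
    by_contra hcon
    push Not at hcon
    nlinarith
  have hfu : f (u z) ≤ μ * u z := by
    have : - Δ u z ≤ t * (μ * A ^ 2) := by
      have := mul_le_mul_of_nonneg_left hquad htpos.le
      linarith
    rw [heq] at this
    calc f (u z) ≤ t * (μ * A ^ 2) := this
      _ = μ * (t * φ z) := by rw [hφzA]; ring
      _ = μ * u z := by rw [htz]
  have huz1 : u z ≤ s₀ := by
    -- φ z / u z ≥ R^4 / u x > R^4 / s₀
    rw [hφx, div_le_div_iff₀ hux huz] at h1
    have h5 : φ z ≤ R ^ 4 := by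
      rw [hφzA]
      have : A ≤ R ^ 2 := by
        have := sq_nonneg ‖z - x‖
        simp only [hA]; linarith
      calc A ^ 2 ≤ (R ^ 2) ^ 2 := by gcongr
        _ = R ^ 4 := by ring
    have hR4 : 0 < R ^ 4 := by positivity
    have h6 : R ^ 4 * u z ≤ R ^ 4 * u x := h1.trans (by nlinarith)
    have := le_of_mul_le_mul_left h6 hR4
    linarith
  have := hlin (u z) huz huz1
  linarith

/-- Solutions are close to `1` at the centre of large balls. -/
theorem near_one (d : ℕ) (hf : PositiveReaction γ f) {η : ℝ} (hη : 0 < η) :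
    ∃ R : ℝ, 0 < R ∧
      ∀ (Ω : Set (E d)) (u : E d → ℝ), IsOpen Ω → IsSol f Ω u →
        ∀ x, closedBall x R ⊆ Ω → 1 - η ≤ u x := by
  obtain ⟨R₀, c₀, hR₀, hc₀, hc₁, hhair⟩ := hair d hf
  obtain ⟨m, hm, hfm⟩ := hf.lower hc₀ (b := 1 - η) (by linarith)
  set ρ := 1 + 2 * d / m with hρ
  have hρ1 : 1 ≤ ρ := by
    have : 0 ≤ 2 * (d:ℝ) / m := by positivity
    simp only [hρ]; linarith
  have hρm : d * (1 / ρ ^ 2 * 2) < m := by
    have h1 : m * ρ = m + 2 * d := by simp only [hρ]; field_simp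
    have h2 : ρ ≤ ρ ^ 2 := by nlinarith
    have h3 : d * (1 / ρ ^ 2 * 2) = 2 * d / ρ ^ 2 := by ring
    rw [h3, div_lt_iff₀ (by positivity)]
    nlinarith
  refine ⟨R₀ + ρ, by linarith, ?_⟩
  intro Ω u hΩ hu x hball
  by_contra hlt
  push Not at hlt
  have hsub : closedBall x ρ ⊆ Ω := (closedBall_subset_closedBall (by linarith)).trans hball
  have huc : ContinuousOn u (closedBall x ρ) :=
    (hu.continuousOn.mono subset_closure).mono hsub
  have hgc : ContinuousOn (fun w => u w - (-(1 / ρ ^ 2)) * ‖w - x‖ ^ 2) (closedBall x ρ) :=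
    huc.sub (by fun_prop)
  obtain ⟨z, hz, hmin⟩ := (isCompact_closedBall x ρ).exists_isMinOn
    ⟨x, mem_closedBall_self (by linarith)⟩ hgc
  have hzΩ := hsub hz
  have huz := hu.pos z hzΩ
  have h1 : u z - (-(1 / ρ ^ 2)) * ‖z - x‖ ^ 2 ≤ u x := by
    have := hmin (mem_closedBall_self (x := x) (by linarith : (0:ℝ) ≤ ρ))
    simpa using this
  have hzρ : ‖z - x‖ < ρ := by
    rw [mem_closedBall, dist_eq_norm] at hz
    rcases lt_or_eq_of_le hz with h | h
    · exact h
    · exfalso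
      rw [h] at h1
      have : -(1 / ρ ^ 2) * ρ ^ 2 = -1 := by field_simp
      rw [this] at h1
      linarith
  have hV : ball x ρ ∈ 𝓝 z := isOpen_ball.mem_nhds (by rw [mem_ball, dist_eq_norm]; exact hzρ)
  have hloc : IsLocalMin (fun w => u w - (-(1 / ρ ^ 2)) * ‖w - x‖ ^ 2) z :=
    IsMinOn.isLocalMin (s := ball x ρ) (fun w hw => hmin (ball_subset_closedBall hw)) hV
  have hlap := lap_ge_of_localMin (hu.contDiffAt hΩ hzΩ)
    (fun i => (jet_normSq z x i).const_mul (-(1 / ρ ^ 2))) hloc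
  rw [sum_const_two] at hlap
  have heq := hu.eqn z hzΩ
  have hcz : c₀ ≤ u z := by
    apply hhair Ω u hΩ hu z
    refine Subset.trans ?_ hball
    apply closedBall_subset_closedBall'
    rw [dist_eq_norm]; linarith
  have hz2 : 0 ≤ 1 / ρ ^ 2 * ‖z - x‖ ^ 2 := by positivity
  have := hfm (u z) hcz (by linarith)
  have h5 : (d:ℝ) * (-(1 / ρ ^ 2) * 2) = - (d * (1 / ρ ^ 2 * 2)) := by ring
  rw [h5] at hlap
  linarith

/-- Hopf lemma with explicit constants: a solution in a ball is bounded below by the distance to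
the sphere. -/
theorem hopf (d : ℕ) (hf : PositiveReaction γ f) {R : ℝ} (hR : 0 < R) :
    ∃ c : ℝ, 0 < c ∧
      ∀ (Ω : Set (E d)) (u : E d → ℝ), IsOpen Ω → IsSol f Ω u →
        ∀ (q : E d) (a : ℝ), ball q R ⊆ Ω → 0 < a → a ≤ 1 →
          (∀ w ∈ closedBall q (R / 2), a ≤ u w) →
          ∀ z ∈ ball q R, a * (c * (R - ‖z - q‖)) ≤ u z := by
  set α := (2 * d + 1) / R ^ 2 with hα
  have hα0 : 0 < α := by positivity
  have hαR : α * R ^ 2 = 2 * d + 1 := by simp only [hα]; field_simp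
  set c := min (α * Real.exp (-(α * R ^ 2)) * R) (1 / R) with hc
  have hcpos : 0 < c := by positivity
  refine ⟨c, hcpos, ?_⟩
  intro Ω u hΩ hu q a hball ha ha1 hin z hz
  rw [mem_ball, dist_eq_norm] at hz
  by_cases hzin : ‖z - q‖ ≤ R / 2
  · have h1 : c ≤ 1 / R := min_le_right _ _
    have h2 : c * (R - ‖z - q‖) ≤ 1 := by
      calc c * (R - ‖z - q‖) ≤ (1 / R) * R := by
            apply mul_le_mul h1 (by linarith [norm_nonneg (z - q)]) (by linarith) (by positivity)
        _ = 1 := by field_simp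
    have h3 := hin z (by rw [mem_closedBall, dist_eq_norm]; exact hzin)
    nlinarith
  · push Not at hzin
    set β : E d → ℝ := fun w => Real.exp (-(α * ‖w - q‖ ^ 2)) - Real.exp (-(α * R ^ 2)) with hβ
    have hβc : Continuous β := by fun_prop
    have hcl : closedBall q R ⊆ closure Ω := by
      rw [← closure_ball q hR.ne']
      exact closure_mono hball
    set S : Set (E d) := closedBall q R ∩ {w | R / 2 ≤ ‖w - q‖} with hS
    have hScomp : IsCompact S := by
      apply (isCompact_closedBall q R).inter_right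
      exact isClosed_le continuous_const (by fun_prop)
    have hgc : ContinuousOn (fun w => u w - a * β w) S :=
      ((hu.continuousOn.mono hcl).mono inter_subset_left).sub (by fun_prop)
    have hzS : z ∈ S := ⟨by rw [mem_closedBall, dist_eq_norm]; exact hz.le, hzin.le⟩
    obtain ⟨y, hy, hmin⟩ := hScomp.exists_isMinOn ⟨z, hzS⟩ hgc
    have hkey : a * β z ≤ u z := by
      by_contra hcon
      push Not at hcon
      have h1 : u y - a * β y < 0 := by
        have : u y - a * β y ≤ u z - a * β z := hmin hzS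
        linarith
      have hyR : ‖y - q‖ ≤ R := by
        have := hy.1
        rwa [mem_closedBall, dist_eq_norm] at this
      have huy0 : 0 ≤ u y := hu.nonneg hΩ (hcl hy.1)
      have hβpos : 0 < β y := by
        by_contra hn
        push Not at hn
        nlinarith
      have hyR' : ‖y - q‖ < R := by
        rcases lt_or_eq_of_le hyR with h | h
        · exact h
        · exfalso
          have : β y = 0 := by simp only [hβ, h, sub_self]
          linarith
      have hyΩ : y ∈ Ω := hball (by rw [mem_ball, dist_eq_norm]; exact hyR')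
      have hβ1 : β y ≤ 1 := by
        simp only [hβ]
        have h2 : Real.exp (-(α * ‖y - q‖ ^ 2)) ≤ 1 := by
          apply Real.exp_le_one_iff.2
          have : 0 ≤ α * ‖y - q‖ ^ 2 := by positivity
          linarith
        linarith [Real.exp_pos (-(α * R ^ 2))]
      have hyin : R / 2 < ‖y - q‖ := by
        by_contra hn
        push Not at hn
        have h2 := hin y (by rw [mem_closedBall, dist_eq_norm]; exact hn)
        nlinarith
      have hV : ball q R ∩ {w | R / 2 < ‖w - q‖} ∈ 𝓝 y := by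
        apply (isOpen_ball.inter (isOpen_lt continuous_const (by fun_prop))).mem_nhds
        exact ⟨by rw [mem_ball, dist_eq_norm]; exact hyR', hyin⟩
      have hloc : IsLocalMin (fun w => u w - a * β w) y := by
        apply IsMinOn.isLocalMin (s := ball q R ∩ {w | R / 2 < ‖w - q‖}) _ hV
        intro w hw
        refine hmin ⟨ball_subset_closedBall hw.1, ?_⟩
        have := hw.2
        simp only [Set.mem_ofPred_eq] at this ⊢
        exact this.le
      have hjet : ∀ i, Jet (fun s => a * β (y + s • bv i))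
          (a * (Real.exp (-(α * ‖y - q‖ ^ 2)) * (-(α * (2 * (y i - q i)))) - 0))
          (a * (Real.exp (-(α * ‖y - q‖ ^ 2)) * (-(α * (2 * (y i - q i)))) ^ 2 +
            Real.exp (-(α * ‖y - q‖ ^ 2)) * (-(α * 2)) - 0)) := by
        intro i
        have h1 := ((((jet_normSq y q i).const_mul α).neg.exp).sub
          (Jet.const (Real.exp (-(α * R ^ 2))))).const_mul a
        simpa using h1
      have hlap := lap_ge_of_localMin (hu.contDiffAt hΩ hyΩ) hjet hloc
      have hsum : ∑ i : Fin d, (a * (Real.exp (-(α * ‖y - q‖ ^ 2)) * (-(α * (2 * (y i - q i)))) ^ 2 +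
            Real.exp (-(α * ‖y - q‖ ^ 2)) * (-(α * 2)) - 0)) =
          a * (Real.exp (-(α * ‖y - q‖ ^ 2)) * (4 * α ^ 2 * ‖y - q‖ ^ 2 - 2 * α * d)) := by
        calc _ = ∑ i : Fin d, (a * Real.exp (-(α * ‖y - q‖ ^ 2)) * (4 * α ^ 2) * (y i - q i) ^ 2 +
              (-(a * Real.exp (-(α * ‖y - q‖ ^ 2)) * (2 * α)))) :=
              Finset.sum_congr rfl (fun i _ => by ring)
          _ = _ := by rw [sum_affine]; ring
      rw [hsum] at hlap
      have hq2 : (R / 2) ^ 2 ≤ ‖y - q‖ ^ 2 := by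
        apply pow_le_pow_left₀ (by positivity) hyin.le
      have hpos : 0 ≤ 4 * α ^ 2 * ‖y - q‖ ^ 2 - 2 * α * d := by
        have h3 : 4 * α ^ 2 * (R / 2) ^ 2 = α * (α * R ^ 2) := by ring
        have h4 : 4 * α ^ 2 * (R / 2) ^ 2 ≤ 4 * α ^ 2 * ‖y - q‖ ^ 2 := by gcongr
        rw [h3, hαR] at h4
        nlinarith
      have hlap0 : 0 ≤ Δ u y := le_trans (by positivity) hlap
      have heq := hu.eqn y hyΩ
      have huy := hu.pos y hyΩ
      have huy1 : u y < 1 := by nlinarith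
      have := hf.pos (u y) huy huy1
      linarith
    -- lower bound for β z
    have hβz : α * Real.exp (-(α * R ^ 2)) * R * (R - ‖z - q‖) ≤ β z := by
      simp only [hβ]
      have h1 : Real.exp (-(α * ‖z - q‖ ^ 2)) =
          Real.exp (-(α * R ^ 2)) * Real.exp (α * (R ^ 2 - ‖z - q‖ ^ 2)) := by
        rw [← Real.exp_add]; congr 1; ring
      have h2 : α * (R ^ 2 - ‖z - q‖ ^ 2) + 1 ≤ Real.exp (α * (R ^ 2 - ‖z - q‖ ^ 2)) :=
        Real.add_one_le_exp _
      have h3 : R * (R - ‖z - q‖) ≤ R ^ 2 - ‖z - q‖ ^ 2 := by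
        nlinarith [norm_nonneg (z - q)]
      have h4 : 0 < Real.exp (-(α * R ^ 2)) := Real.exp_pos _
      rw [h1]
      calc α * Real.exp (-(α * R ^ 2)) * R * (R - ‖z - q‖)
          = Real.exp (-(α * R ^ 2)) * (α * (R * (R - ‖z - q‖))) := by ring
        _ ≤ Real.exp (-(α * R ^ 2)) * (α * (R ^ 2 - ‖z - q‖ ^ 2)) := by gcongr
        _ = Real.exp (-(α * R ^ 2)) * (α * (R ^ 2 - ‖z - q‖ ^ 2) + 1) -
            Real.exp (-(α * R ^ 2)) := by ring
        _ ≤ _ := by
          apply sub_le_sub_right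
          gcongr
    have hcle : c ≤ α * Real.exp (-(α * R ^ 2)) * R := min_le_left _ _
    have hRz : 0 ≤ R - ‖z - q‖ := by linarith
    calc a * (c * (R - ‖z - q‖)) ≤ a * (α * Real.exp (-(α * R ^ 2)) * R * (R - ‖z - q‖)) := by
          gcongr
      _ ≤ a * β z := by gcongr
      _ ≤ u z := hkey

/-- Upper barrier at an exterior ball. -/
theorem ext_barrier (d : ℕ) (hf : PositiveReaction γ f) {r : ℝ} (hr : 0 < r) :
    ∃ C : ℝ, 0 < C ∧
      ∀ (Ω : Set (E d)) (v : E d → ℝ), IsOpen Ω → IsSol f Ω v →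
        ∀ (p : E d), ball p r ⊆ Ωᶜ →
          ∀ y ∈ Ω, ‖y - p‖ ≤ 2 * r → v y ≤ C * (‖y - p‖ - r) := by
  obtain ⟨F, hF0, hF⟩ := hf.bdd
  set α := (d + 1) / r ^ 2 with hα
  have hα0 : 0 < α := by positivity
  have hαr : α * r ^ 2 = d + 1 := by simp only [hα]; field_simp
  have hexp : Real.exp (-(α * (2 * r) ^ 2)) < Real.exp (-(α * r ^ 2)) := by
    apply Real.exp_lt_exp.2
    nlinarith [mul_pos hα0 (pow_pos hr 2)]
  set A := (F + 1) / (2 * α * Real.exp (-(α * (2 * r) ^ 2))) +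
    1 / (Real.exp (-(α * r ^ 2)) - Real.exp (-(α * (2 * r) ^ 2))) with hA
  have hdiff : 0 < Real.exp (-(α * r ^ 2)) - Real.exp (-(α * (2 * r) ^ 2)) := by linarith
  have hA1 : F + 1 ≤ A * (2 * α * Real.exp (-(α * (2 * r) ^ 2))) := by
    have h1 : 0 < 2 * α * Real.exp (-(α * (2 * r) ^ 2)) := by positivity
    have h2 : (F + 1) / (2 * α * Real.exp (-(α * (2 * r) ^ 2))) ≤ A := by
      simp only [hA]
      have : 0 ≤ 1 / (Real.exp (-(α * r ^ 2)) - Real.exp (-(α * (2 * r) ^ 2))) := by positivity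
      linarith
    rwa [div_le_iff₀ h1] at h2
  have hA2 : 1 ≤ A * (Real.exp (-(α * r ^ 2)) - Real.exp (-(α * (2 * r) ^ 2))) := by
    have h2 : 1 / (Real.exp (-(α * r ^ 2)) - Real.exp (-(α * (2 * r) ^ 2))) ≤ A := by
      simp only [hA]
      have : 0 ≤ (F + 1) / (2 * α * Real.exp (-(α * (2 * r) ^ 2))) := by positivity
      linarith
    rwa [div_le_iff₀ hdiff] at h2
  have hApos : 0 < A := by positivity
  refine ⟨A * (α * (3 * r)), by positivity, ?_⟩
  intro Ω v hΩ hv p hp y hy hyp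
  have hΩp : ∀ w ∈ Ω, r < ‖w - p‖ := by
    intro w hw
    by_contra hn
    push Not at hn
    have h1 : w ∈ closedBall p r := by rw [mem_closedBall, dist_eq_norm]; exact hn
    rw [← closure_ball p hr.ne'] at h1
    have h2 : closure (ball p r) ⊆ Ωᶜ := closure_minimal hp hΩ.isClosed_compl
    exact h2 h1 hw
  set Z : E d → ℝ := fun w => A * (Real.exp (-(α * r ^ 2)) - Real.exp (-(α * ‖w - p‖ ^ 2))) with hZ
  have hZc : Continuous Z := by fun_prop
  set S : Set (E d) := closure Ω ∩ (closedBall p (2 * r) ∩ {w | r ≤ ‖w - p‖}) with hS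
  have hScomp : IsCompact S := by
    apply IsCompact.inter_left _ isClosed_closure
    apply (isCompact_closedBall p (2 * r)).inter_right
    exact isClosed_le continuous_const (by fun_prop)
  have hgc : ContinuousOn (fun w => v w - Z w) S :=
    (hv.continuousOn.mono inter_subset_left).sub hZc.continuousOn
  have hyS : y ∈ S := ⟨subset_closure hy, by rw [mem_closedBall, dist_eq_norm]; exact hyp,
    (hΩp y hy).le⟩
  obtain ⟨z, hz, hmax⟩ := hScomp.exists_isMaxOn ⟨y, hyS⟩ hgc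
  have hkey : v y ≤ Z y := by
    by_contra hcon
    push Not at hcon
    have h1 : 0 < v z - Z z := by
      have : v y - Z y ≤ v z - Z z := hmax hyS
      linarith
    have hzp1 : r ≤ ‖z - p‖ := hz.2.2
    have hzp2 : ‖z - p‖ ≤ 2 * r := by
      have := hz.2.1
      rwa [mem_closedBall, dist_eq_norm] at this
    have hZ0 : 0 ≤ Z z := by
      simp only [hZ]
      apply mul_nonneg hApos.le
      have : Real.exp (-(α * ‖z - p‖ ^ 2)) ≤ Real.exp (-(α * r ^ 2)) := by
        apply Real.exp_le_exp.2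
        have : r ^ 2 ≤ ‖z - p‖ ^ 2 := pow_le_pow_left₀ hr.le hzp1 2
        nlinarith
      linarith
    have hzΩ : z ∈ Ω := by
      by_contra hzn
      have : v z = 0 := hv.bdry z (by rw [hΩ.frontier_eq]; exact ⟨hz.1, hzn⟩)
      linarith
    have hzp1' := hΩp z hzΩ
    have hv1 := hv.le_one hf hΩ hzΩ
    have hzp2' : ‖z - p‖ < 2 * r := by
      rcases lt_or_eq_of_le hzp2 with h | h
      · exact h
      · exfalso
        have : Z z = A * (Real.exp (-(α * r ^ 2)) - Real.exp (-(α * (2 * r) ^ 2))) := by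
          simp only [hZ, h]
        linarith
    have hV : Ω ∩ (ball p (2 * r) ∩ {w | r < ‖w - p‖}) ∈ 𝓝 z := by
      apply (hΩ.inter (isOpen_ball.inter (isOpen_lt continuous_const (by fun_prop)))).mem_nhds
      exact ⟨hzΩ, by rw [mem_ball, dist_eq_norm]; exact hzp2', hzp1'⟩
    have hloc : IsLocalMax (fun w => v w - Z w) z := by
      apply IsMaxOn.isLocalMax (s := Ω ∩ (ball p (2 * r) ∩ {w | r < ‖w - p‖})) _ hV
      intro w hw
      refine hmax ⟨subset_closure hw.1, ball_subset_closedBall hw.2.1, ?_⟩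
      have := hw.2.2
      simp only [Set.mem_ofPred_eq] at this ⊢
      exact this.le
    have hjet : ∀ i, Jet (fun s => Z (z + s • bv i))
        (A * (0 - Real.exp (-(α * ‖z - p‖ ^ 2)) * (-(α * (2 * (z i - p i))))))
        (A * (0 - (Real.exp (-(α * ‖z - p‖ ^ 2)) * (-(α * (2 * (z i - p i)))) ^ 2 +
          Real.exp (-(α * ‖z - p‖ ^ 2)) * (-(α * 2))))) := by
      intro i
      have h1 := ((Jet.const (Real.exp (-(α * r ^ 2)))).sub
        (((jet_normSq z p i).const_mul α).neg.exp)).const_mul A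
      simpa using h1
    have hlap := lap_le_of_localMax (hv.contDiffAt hΩ hzΩ) hjet hloc
    have hsum : ∑ i : Fin d, (A * (0 - (Real.exp (-(α * ‖z - p‖ ^ 2)) *
          (-(α * (2 * (z i - p i)))) ^ 2 + Real.exp (-(α * ‖z - p‖ ^ 2)) * (-(α * 2))))) =
        - (A * (Real.exp (-(α * ‖z - p‖ ^ 2)) * (4 * α ^ 2 * ‖z - p‖ ^ 2 - 2 * α * d))) := by
      calc _ = ∑ i : Fin d, (-(A * Real.exp (-(α * ‖z - p‖ ^ 2)) * (4 * α ^ 2)) *
              (z i - p i) ^ 2 + A * Real.exp (-(α * ‖z - p‖ ^ 2)) * (2 * α)) :=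
              Finset.sum_congr rfl (fun i _ => by ring)
        _ = _ := by rw [sum_affine]; ring
    rw [hsum] at hlap
    have h3 : 2 * α ≤ 4 * α ^ 2 * ‖z - p‖ ^ 2 - 2 * α * d := by
      have h4 : 4 * α ^ 2 * r ^ 2 ≤ 4 * α ^ 2 * ‖z - p‖ ^ 2 := by gcongr
      have h5 : 4 * α ^ 2 * r ^ 2 = 4 * α * (α * r ^ 2) := by ring
      rw [h5, hαr] at h4
      have h6 : (0:ℝ) ≤ α * d := by positivity
      nlinarith
    have h7 : Real.exp (-(α * (2 * r) ^ 2)) ≤ Real.exp (-(α * ‖z - p‖ ^ 2)) := by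
      apply Real.exp_le_exp.2
      have : ‖z - p‖ ^ 2 ≤ (2 * r) ^ 2 := pow_le_pow_left₀ (norm_nonneg _) hzp2 2
      nlinarith
    have h8 : A * (2 * α * Real.exp (-(α * (2 * r) ^ 2))) ≤
        A * (Real.exp (-(α * ‖z - p‖ ^ 2)) * (4 * α ^ 2 * ‖z - p‖ ^ 2 - 2 * α * d)) := by
      apply mul_le_mul_of_nonneg_left _ hApos.le
      rw [mul_comm]
      exact mul_le_mul h7 h3 (by positivity) (Real.exp_pos _).le
    have heq := hv.eqn z hzΩ
    have := hF (v z) (hv.pos z hzΩ).le hv1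
    linarith
  -- upper bound for Z y
  have hyr := hΩp y hy
  have hZy : Z y ≤ A * (α * (3 * r)) * (‖y - p‖ - r) := by
    simp only [hZ]
    have h1 : Real.exp (-(α * ‖y - p‖ ^ 2)) =
        Real.exp (-(α * r ^ 2)) * Real.exp (-(α * (‖y - p‖ ^ 2 - r ^ 2))) := by
      rw [← Real.exp_add]; congr 1; ring
    have h2 : -(α * (‖y - p‖ ^ 2 - r ^ 2)) + 1 ≤ Real.exp (-(α * (‖y - p‖ ^ 2 - r ^ 2))) :=
      Real.add_one_le_exp _
    have h3 : ‖y - p‖ ^ 2 - r ^ 2 ≤ 3 * r * (‖y - p‖ - r) := by nlinarith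
    have h4 : Real.exp (-(α * r ^ 2)) ≤ 1 := by
      apply Real.exp_le_one_iff.2
      have : 0 < α * r ^ 2 := by positivity
      linarith
    have h5 : 0 < Real.exp (-(α * r ^ 2)) := Real.exp_pos _
    have h6 : 0 ≤ ‖y - p‖ ^ 2 - r ^ 2 := by nlinarith
    rw [h1, mul_assoc]
    apply mul_le_mul_of_nonneg_left _ hApos.le
    calc Real.exp (-(α * r ^ 2)) - Real.exp (-(α * r ^ 2)) *
          Real.exp (-(α * (‖y - p‖ ^ 2 - r ^ 2)))
        = Real.exp (-(α * r ^ 2)) * (1 - Real.exp (-(α * (‖y - p‖ ^ 2 - r ^ 2)))) := by ring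
      _ ≤ Real.exp (-(α * r ^ 2)) * (α * (‖y - p‖ ^ 2 - r ^ 2)) := by
          apply mul_le_mul_of_nonneg_left _ h5.le
          linarith
      _ ≤ 1 * (α * (‖y - p‖ ^ 2 - r ^ 2)) := by
          apply mul_le_mul_of_nonneg_right h4
          positivity
      _ ≤ α * (3 * r) * (‖y - p‖ - r) := by
          rw [one_mul, mul_assoc]
          gcongr
  exact hkey.trans hZy

end ExtStar
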