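import Pool.Agent.Helper340_star.Defs

/-!
# Second order jets of functions of one variable, and the Laplacian along coordinate lines

Helper file for `MP_437bdf_an`.
-/

open InnerProductSpace Laplacian Filter Topology Set

namespace ExtStar

/-- `Jet φ a b`: the function `φ` is differentiable near `0`, its derivative at `0` is `a` and its
second derivative at `0` is `b`. -/
def Jet (φ : ℝ → ℝ) (a b : ℝ) : Prop :=
  ∃ φ' : ℝ → ℝ, (∀ᶠ t in 𝓝 (0:ℝ), HasDerivAt φ (φ' t) t) ∧ φ' 0 = a ∧ HasDerivAt φ' b 0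

theorem Jet.hasDerivAt {φ : ℝ → ℝ} {a b : ℝ} (h : Jet φ a b) : HasDerivAt φ a 0 := by
  obtain ⟨φ', h1, h2, _⟩ := h
  have := h1.self_of_nhds
  rwa [h2] at this

theorem Jet.continuousAt {φ : ℝ → ℝ} {a b : ℝ} (h : Jet φ a b) : ContinuousAt φ 0 :=
  h.hasDerivAt.continuousAt

theorem Jet.const (c : ℝ) : Jet (fun _ => c) 0 0 :=
  ⟨fun _ => 0, Eventually.of_forall fun t => hasDerivAt_const t c, rfl, hasDerivAt_const 0 0⟩

theorem Jet.quad (c p q : ℝ) : Jet (fun t => c + p * t + q * t ^ 2) p (2 * q) := by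
  refine ⟨fun t => p + 2 * q * t, Eventually.of_forall fun t => ?_, by simp, ?_⟩
  · have h1 : HasDerivAt (fun t : ℝ => c + p * t + q * t ^ 2) (0 + p * 1 + q * (2 * t ^ (2-1) * 1)) t := by
      refine HasDerivAt.add (HasDerivAt.add (hasDerivAt_const t c) ((hasDerivAt_id t).const_mul p)) ?_
      exact ((hasDerivAt_id t).pow 2).const_mul q
    convert h1 using 1
    simp; ring
  · have h1 : HasDerivAt (fun t : ℝ => p + 2 * q * t) (0 + 2 * q * 1) 0 :=
      HasDerivAt.add (hasDerivAt_const 0 p) ((hasDerivAt_id 0).const_mul (2 * q))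
    convert h1 using 1
    ring

theorem Jet.add {φ ψ : ℝ → ℝ} {a b a' b' : ℝ} (h : Jet φ a b) (h' : Jet ψ a' b') :
    Jet (fun t => φ t + ψ t) (a + a') (b + b') := by
  obtain ⟨f1, h1, h2, h3⟩ := h
  obtain ⟨g1, k1, k2, k3⟩ := h'
  refine ⟨fun t => f1 t + g1 t, ?_, by simp [h2, k2], h3.add k3⟩
  filter_upwards [h1, k1] with t ht kt using ht.add kt

theorem Jet.neg {φ : ℝ → ℝ} {a b : ℝ} (h : Jet φ a b) :
    Jet (fun t => - φ t) (-a) (-b) := by
  obtain ⟨f1, h1, h2, h3⟩ := h
  refine ⟨fun t => - f1 t, ?_, by simp [h2], h3.neg⟩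
  filter_upwards [h1] with t ht using ht.neg

theorem Jet.sub {φ ψ : ℝ → ℝ} {a b a' b' : ℝ} (h : Jet φ a b) (h' : Jet ψ a' b') :
    Jet (fun t => φ t - ψ t) (a - a') (b - b') := by
  simpa [sub_eq_add_neg] using h.add h'.neg

theorem Jet.const_mul {φ : ℝ → ℝ} {a b : ℝ} (c : ℝ) (h : Jet φ a b) :
    Jet (fun t => c * φ t) (c * a) (c * b) := by
  obtain ⟨f1, h1, h2, h3⟩ := h
  refine ⟨fun t => c * f1 t, ?_, by simp [h2], h3.const_mul c⟩
  filter_upwards [h1] with t ht using ht.const_mul c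

theorem Jet.mul {φ ψ : ℝ → ℝ} {a b a' b' : ℝ} (h : Jet φ a b) (h' : Jet ψ a' b') :
    Jet (fun t => φ t * ψ t) (a * ψ 0 + φ 0 * a') (b * ψ 0 + 2 * a * a' + φ 0 * b') := by
  have hφ := h.hasDerivAt
  have hψ := h'.hasDerivAt
  obtain ⟨f1, h1, h2, h3⟩ := h
  obtain ⟨g1, k1, k2, k3⟩ := h'
  refine ⟨fun t => f1 t * ψ t + φ t * g1 t, ?_, by simp [h2, k2], ?_⟩
  · filter_upwards [h1, k1] with t ht kt using ht.mul kt
  · have := (h3.mul hψ).add (hφ.mul k3)
    refine this.congr_deriv ?_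
    rw [h2, k2]; ring

theorem Jet.congr {φ ψ : ℝ → ℝ} {a b : ℝ} (h : Jet φ a b) (he : ∀ᶠ t in 𝓝 (0:ℝ), ψ t = φ t) :
    Jet ψ a b := by
  obtain ⟨f1, h1, h2, h3⟩ := h
  refine ⟨f1, ?_, h2, h3⟩
  filter_upwards [h1, he.eventually_nhds] with t ht het
  exact ht.congr_of_eventuallyEq het

theorem Jet.cast {φ : ℝ → ℝ} {a b a' b' : ℝ} (h : Jet φ a b) (ha : a = a') (hb : b = b') :
    Jet φ a' b' := by subst ha; subst hb; exact h

/-- Chain rule for jets. -/
theorem Jet.comp {φ F F' : ℝ → ℝ} {a b F'' : ℝ} (h : Jet φ a b)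
    (hF : ∀ᶠ x in 𝓝 (φ 0), HasDerivAt F (F' x) x) (hF' : HasDerivAt F' F'' (φ 0)) :
    Jet (fun t => F (φ t)) (F' (φ 0) * a) (F'' * a ^ 2 + F' (φ 0) * b) := by
  have hφ := h.hasDerivAt
  obtain ⟨f1, h1, h2, h3⟩ := h
  refine ⟨fun t => F' (φ t) * f1 t, ?_, by simp [h2], ?_⟩
  · filter_upwards [h1, hφ.continuousAt.eventually hF] with t ht hFt
    exact hFt.comp t ht
  · have := (hF'.comp (0:ℝ) hφ).mul h3
    refine this.congr_deriv ?_
    simp only [Function.comp]
    rw [h2]; ring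

theorem Jet.log {φ : ℝ → ℝ} {a b : ℝ} (h : Jet φ a b) (h0 : φ 0 ≠ 0) :
    Jet (fun t => Real.log (φ t)) (a / φ 0) (b / φ 0 - (a / φ 0) ^ 2) := by
  have := h.comp (F := Real.log) (F' := fun x => x⁻¹) (F'' := - ((φ 0) ^ 2)⁻¹) ?_ ?_
  · refine this.cast ?_ ?_
    · field_simp
    · field_simp
      ring
  · filter_upwards [isOpen_ne.mem_nhds h0] with x hx using Real.hasDerivAt_log hx
  · exact hasDerivAt_inv h0

theorem Jet.exp {φ : ℝ → ℝ} {a b : ℝ} (h : Jet φ a b) :
    Jet (fun t => Real.exp (φ t)) (Real.exp (φ 0) * a)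
      (Real.exp (φ 0) * a ^ 2 + Real.exp (φ 0) * b) :=
  h.comp (F := Real.exp) (F' := Real.exp) (Eventually.of_forall fun x => Real.hasDerivAt_exp x)
    (Real.hasDerivAt_exp _)

theorem Jet.sq {φ : ℝ → ℝ} {a b : ℝ} (h : Jet φ a b) :
    Jet (fun t => (φ t) ^ 2) (2 * φ 0 * a) (2 * a ^ 2 + 2 * φ 0 * b) := by
  have := (h.mul h)
  refine (this.congr ?_).cast ?_ ?_
  · exact Eventually.of_forall fun t => by ring
  · ring
  · ring

/-- Necessary second order condition at a local maximum. -/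
theorem Jet.localMax {φ : ℝ → ℝ} {a b : ℝ} (h : Jet φ a b) (hm : IsLocalMax φ 0) :
    a = 0 ∧ b ≤ 0 := by
  have ha : a = 0 := hm.hasDerivAt_eq_zero h.hasDerivAt
  refine ⟨ha, ?_⟩
  obtain ⟨f1, h1, h2, h3⟩ := h
  by_contra hb
  push Not at hb
  -- `f1 t > 0` for small positive `t`
  have hs : Tendsto (slope f1 0) (𝓝[≠] 0) (𝓝 b) := h3.tendsto_slope
  have hev : ∀ᶠ t in 𝓝[≠] (0:ℝ), 0 < slope f1 0 t := hs.eventually (lt_mem_nhds hb)
  rw [eventually_nhdsWithin_iff] at hev
  obtain ⟨ε1, hε1, H1⟩ := Metric.eventually_nhds_iff.1 hev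
  obtain ⟨ε2, hε2, H2⟩ := Metric.eventually_nhds_iff.1 h1
  obtain ⟨ε3, hε3, H3⟩ := Metric.eventually_nhds_iff.1 hm
  set ε := min ε1 (min ε2 ε3) with hε
  have hεpos : 0 < ε := by positivity
  set t := ε / 2 with ht
  have htpos : 0 < t := by positivity
  have htlt : t < ε := by simp only [ht]; linarith
  have hmono : StrictMonoOn φ (Icc 0 t) := by
    apply strictMonoOn_of_deriv_pos (convex_Icc 0 t)
    · intro x hx
      have hx' : dist x 0 < ε2 := by
        rw [Real.dist_eq, sub_zero, abs_of_nonneg hx.1]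
        calc x ≤ t := hx.2
          _ < ε := htlt
          _ ≤ ε2 := by simp [hε]
      exact (H2 hx').continuousAt.continuousWithinAt
    · intro x hx
      rw [interior_Icc] at hx
      have hx1 : dist x 0 < ε1 := by
        rw [Real.dist_eq, sub_zero, abs_of_pos hx.1]
        calc x < t := hx.2
          _ < ε := htlt
          _ ≤ ε1 := by simp [hε]
      have hx2 : dist x 0 < ε2 := by
        rw [Real.dist_eq, sub_zero, abs_of_pos hx.1]
        calc x < t := hx.2
          _ < ε := htlt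
          _ ≤ ε2 := by simp [hε]
      rw [(H2 hx2).deriv]
      have := H1 hx1 (by simpa using hx.1.ne')
      rw [slope_def_field, h2, ha] at this
      simp only [sub_zero] at this
      exact (div_pos_iff_of_pos_right hx.1).1 this
  have h01 : φ 0 < φ t := hmono (left_mem_Icc.2 htpos.le) (right_mem_Icc.2 htpos.le) htpos
  have h02 : φ t ≤ φ 0 := H3 (by
    rw [Real.dist_eq, sub_zero, abs_of_pos htpos]
    exact lt_of_lt_of_le htlt (by simp [hε]))
  linarith

theorem Jet.localMin {φ : ℝ → ℝ} {a b : ℝ} (h : Jet φ a b) (hm : IsLocalMin φ 0) :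
    a = 0 ∧ 0 ≤ b := by
  have := h.neg.localMax hm.neg
  constructor
  · linarith [this.1]
  · linarith [this.2]

section space

variable {d : ℕ}

/-- standard orthonormal basis vectors -/
noncomputable def bv (i : Fin d) : E d := EuclideanSpace.basisFun (Fin d) ℝ i

theorem bv_apply (i j : Fin d) : (bv i : E d) j = if j = i then 1 else 0 := by
  simp [bv, EuclideanSpace.basisFun_apply]

theorem inner_bv (i : Fin d) (x : E d) : inner ℝ x (bv i) = x i := by
  simp [bv, EuclideanSpace.basisFun_apply, EuclideanSpace.inner_single_right]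

theorem norm_bv (i : Fin d) : ‖(bv i : E d)‖ = 1 := by
  simp [bv]

theorem norm_sq_sum (x : E d) : ‖x‖ ^ 2 = ∑ i, x i ^ 2 := by
  rw [EuclideanSpace.norm_sq_eq]
  simp

/-- first derivative along basis vector -/
noncomputable def D1 (u : E d → ℝ) (x : E d) (i : Fin d) : ℝ := fderiv ℝ u x (bv i)

/-- second derivative along basis vector -/
noncomputable def D2 (u : E d → ℝ) (x : E d) (i : Fin d) : ℝ :=
  fderiv ℝ (fderiv ℝ u) x (bv i) (bv i)

theorem laplacian_eq_sum (u : E d → ℝ) (x : E d) : Δ u x = ∑ i, D2 u x i := by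
  rw [laplacian_eq_iteratedFDeriv_orthonormalBasis u (EuclideanSpace.basisFun (Fin d) ℝ)]
  simp only [iteratedFDeriv_two_apply]
  rfl

theorem jet_line {u : E d → ℝ} {x : E d} (hu : ContDiffAt ℝ 2 u x) (w : E d) :
    Jet (fun t => u (x + t • w)) (fderiv ℝ u x w) (fderiv ℝ (fderiv ℝ u) x w w) := by
  have hline : ∀ t : ℝ, HasDerivAt (fun t : ℝ => x + t • w) w t := by
    intro t
    have h1 : HasDerivAt (fun t : ℝ => t • w) ((1:ℝ) • w) t := (hasDerivAt_id t).smul_const w
    simpa using h1.const_add x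
  refine ⟨fun t => fderiv ℝ u (x + t • w) w, ?_, by simp, ?_⟩
  · have h1 : ∀ᶠ z in 𝓝 x, DifferentiableAt ℝ u z := by
      filter_upwards [hu.eventually (by simp)] with z hz
      exact hz.differentiableAt (by norm_num)
    have hc : ContinuousAt (fun t : ℝ => x + t • w) 0 := (hline 0).continuousAt
    have h2 : Tendsto (fun t : ℝ => x + t • w) (𝓝 0) (𝓝 x) := by
      have := hc.tendsto
      simpa using this
    filter_upwards [h2.eventually h1] with t ht
    exact ht.hasFDerivAt.comp_hasDerivAt t (hline t)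
  · have h1 : DifferentiableAt ℝ (fderiv ℝ u) x := by
      have := hu.fderiv_right (m := 1) (by norm_num)
      exact this.differentiableAt (by norm_num)
    have h2 : HasFDerivAt (fderiv ℝ u) (fderiv ℝ (fderiv ℝ u) x) (x + (0:ℝ) • w) := by
      simpa using h1.hasFDerivAt
    have h3 : HasDerivAt (fun t : ℝ => fderiv ℝ u (x + t • w)) (fderiv ℝ (fderiv ℝ u) x w) 0 :=
      h2.comp_hasDerivAt (0:ℝ) (hline 0)
    exact h3.clm_apply (hasDerivAt_const (0:ℝ) w) |>.congr_deriv (by simp)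

theorem jet_bv {u : E d → ℝ} {x : E d} (hu : ContDiffAt ℝ 2 u x) (i : Fin d) :
    Jet (fun t => u (x + t • bv i)) (D1 u x i) (D2 u x i) := jet_line hu (bv i)

/-- jet of a dilated function -/
theorem jet_dil {u : E d → ℝ} {y : E d} {l : ℝ} (hu : ContDiffAt ℝ 2 u (l • y)) (i : Fin d) :
    Jet (fun t => u (l • (y + t • bv i))) (l * D1 u (l • y) i) (l ^ 2 * D2 u (l • y) i) := by
  have h := jet_line hu (l • bv i)
  refine (h.congr ?_).cast ?_ ?_
  · refine Eventually.of_forall fun t => ?_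
    congr 1
    rw [smul_add, smul_comm l t]
  · simp [D1]
  · simp [D2]; ring

theorem tendsto_line (x w : E d) : Tendsto (fun t : ℝ => x + t • w) (𝓝 0) (𝓝 x) := by
  have hc : Continuous (fun t : ℝ => x + t • w) := by fun_prop
  have := hc.tendsto 0
  simpa using this

theorem localMax_line {g : E d → ℝ} {x : E d} (h : IsLocalMax g x) (w : E d) :
    IsLocalMax (fun t : ℝ => g (x + t • w)) 0 := by
  have h2 := (tendsto_line x w).eventually h
  filter_upwards [h2] with t ht
  simpa using ht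

theorem localMin_line {g : E d → ℝ} {x : E d} (h : IsLocalMin g x) (w : E d) :
    IsLocalMin (fun t : ℝ => g (x + t • w)) 0 := by
  have h2 := (tendsto_line x w).eventually h
  filter_upwards [h2] with t ht
  simpa using ht

/-- If `u - g` has a local minimum at `z` and `g` has second jets, then `Δ u ≥ Δ g` at `z`. -/
theorem lap_ge_of_localMin {u g : E d → ℝ} {z : E d} (hu : ContDiffAt ℝ 2 u z)
    {a h : Fin d → ℝ} (hg : ∀ i, Jet (fun t => g (z + t • bv i)) (a i) (h i))
    (hm : IsLocalMin (fun x => u x - g x) z) : ∑ i, h i ≤ Δ u z := by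
  rw [laplacian_eq_sum]
  apply Finset.sum_le_sum
  intro i _
  have h1 := (jet_bv hu i).sub (hg i)
  have h2 := h1.localMin (localMin_line hm (bv i))
  linarith [h2.2]

/-- If `u - g` has a local maximum at `z` and `g` has second jets, then `Δ u ≤ Δ g` at `z`. -/
theorem lap_le_of_localMax {u g : E d → ℝ} {z : E d} (hu : ContDiffAt ℝ 2 u z)
    {a h : Fin d → ℝ} (hg : ∀ i, Jet (fun t => g (z + t • bv i)) (a i) (h i))
    (hm : IsLocalMax (fun x => u x - g x) z) : Δ u z ≤ ∑ i, h i := by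
  rw [laplacian_eq_sum]
  apply Finset.sum_le_sum
  intro i _
  have h1 := (jet_bv hu i).sub (hg i)
  have h2 := h1.localMax (localMax_line hm (bv i))
  linarith [h2.2]

/-- jet of `‖z - p‖²` -/
theorem jet_normSq (z p : E d) (i : Fin d) :
    Jet (fun t => ‖z + t • bv i - p‖ ^ 2) (2 * (z i - p i)) 2 := by
  have h := Jet.quad (‖z - p‖ ^ 2) (2 * (z i - p i)) 1
  refine (h.congr ?_).cast rfl (by norm_num)
  refine Eventually.of_forall fun t => ?_
  have : z + t • bv i - p = (z - p) + t • bv i := by abel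
  simp only [this]
  rw [@norm_add_sq_real, inner_smul_right, inner_bv, norm_smul, norm_bv]
  simp only [PiLp.sub_apply, mul_one, Real.norm_eq_abs, sq_abs]
  ring

end space

end ExtStar
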