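import Pool.Agent.Helper340_star.Local

/-!
# Choice of parameters

Helper file for `MP_437bdf_an`.
-/

open Filter Topology Set Metric

namespace ExtStar

theorem exists_params {F1 D B1 ρ c τ Δ0 lv s₀ lw : ℝ} (hF1 : 0 ≤ F1) (hD : 0 ≤ D) (hB1 : 0 ≤ B1)
    (hρ : 0 < ρ) (hc : 0 < c) (hτ : 0 < τ) (hΔ0 : 0 < Δ0) (hlv : 0 ≤ lv) (hs₀ : 0 < s₀)
    (hlw : 0 ≤ lw) :
    ∃ N K δ r' : ℝ, 16 ≤ N ∧ 1 ≤ K ∧ 0 < δ ∧ N * δ ≤ 1 ∧ 16 / N < ρ ∧ D / (8 * N) ≤ c / 4 ∧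
      16 / N * lv ≤ Δ0 / 8 ∧ 0 < r' ∧ (1 + τ) * Real.exp r' < 1 + τ + ρ ∧
      B1 < K * (Real.cosh (N * s₀) - 1) ∧ 4 * (2 * F1 + D / 8 + 1) ≤ K * s₀ ^ 2 ∧
      2 * F1 + D / 8 + 1 ≤ K * r' ∧ K * (N * δ) ^ 2 ≤ 1 ∧ K * (N * δ) ^ 2 ≤ c / 4 ∧
      δ / 2 * lw ≤ s₀ := by
  obtain ⟨N, hN16, hN1, hN2, hN3⟩ : ∃ N : ℝ, 16 ≤ N ∧ 32 / ρ ≤ N ∧ D / c ≤ N ∧
      128 * lv / Δ0 ≤ N := by
    refine ⟨max (max 16 (32 / ρ)) (max (D / c) (128 * lv / Δ0)), ?_, ?_, ?_, ?_⟩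
    · exact (le_max_left _ _).trans (le_max_left _ _)
    · exact (le_max_right _ _).trans (le_max_left _ _)
    · exact (le_max_left _ _).trans (le_max_right _ _)
    · exact (le_max_right _ _).trans (le_max_right _ _)
  have hNpos : 0 < N := by linarith
  have hκρ : 16 / N < ρ := by
    rw [div_lt_iff₀ hNpos]
    rw [div_le_iff₀ hρ] at hN1
    linarith
  have hNc : D / (8 * N) ≤ c / 4 := by
    rw [div_le_iff₀ hc] at hN2
    rw [div_le_iff₀ (by positivity)]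
    nlinarith
  have hκlog : 16 / N * lv ≤ Δ0 / 8 := by
    rw [div_le_iff₀ hΔ0] at hN3
    rw [div_mul_eq_mul_div, div_le_iff₀ hNpos]
    linarith
  obtain ⟨r', hr'pos, hr'exp⟩ : ∃ r' : ℝ, 0 < r' ∧ (1 + τ) * Real.exp r' < 1 + τ + ρ := by
    refine ⟨Real.log ((1 + τ + ρ / 2) / (1 + τ)), ?_, ?_⟩
    · apply Real.log_pos
      rw [one_lt_div (by positivity)]
      linarith
    · rw [Real.exp_log (by positivity)]
      have : (1 + τ) * ((1 + τ + ρ / 2) / (1 + τ)) = 1 + τ + ρ / 2 := by field_simp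
      rw [this]; linarith
  have hcosh : 0 < Real.cosh (N * s₀) - 1 := by
    have := Real.one_lt_cosh.2 (by positivity : N * s₀ ≠ 0)
    linarith
  set M0 := 2 * F1 + D / 8 + 1 with hM0
  have hM0pos : 0 < M0 := by positivity
  clear_value M0
  obtain ⟨K, hK1, hK2, hK3, hK4⟩ : ∃ K : ℝ, 1 ≤ K ∧ (B1 + 1) / (Real.cosh (N * s₀) - 1) ≤ K ∧
      4 * M0 / s₀ ^ 2 ≤ K ∧ M0 / r' ≤ K := by
    refine ⟨max (max 1 ((B1 + 1) / (Real.cosh (N * s₀) - 1))) (max (4 * M0 / s₀ ^ 2) (M0 / r')),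
      ?_, ?_, ?_, ?_⟩
    · exact (le_max_left _ _).trans (le_max_left _ _)
    · exact (le_max_right _ _).trans (le_max_left _ _)
    · exact (le_max_left _ _).trans (le_max_right _ _)
    · exact (le_max_right _ _).trans (le_max_right _ _)
  have hKpos : 0 < K := by linarith
  have hKcosh : B1 < K * (Real.cosh (N * s₀) - 1) := by
    rw [div_le_iff₀ hcosh] at hK2
    linarith
  have hKs₀ : 4 * M0 ≤ K * s₀ ^ 2 := by
    rwa [div_le_iff₀ (by positivity)] at hK3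
  have hKr' : M0 ≤ K * r' := by
    rwa [div_le_iff₀ hr'pos] at hK4
  obtain ⟨δ, hδpos, hδ1, hδ2, hδ3⟩ : ∃ δ : ℝ, 0 < δ ∧ δ ≤ 1 / N ∧ δ ≤ min 1 (c / 4) / (K * N) ∧
      δ ≤ s₀ / (1 + lw) := by
    refine ⟨min (1 / N) (min (min 1 (c / 4) / (K * N)) (s₀ / (1 + lw))), by positivity,
      min_le_left _ _, (min_le_right _ _).trans (min_le_left _ _),
      (min_le_right _ _).trans (min_le_right _ _)⟩
  have hNδ : N * δ ≤ 1 := by
    rw [le_div_iff₀ hNpos] at hδ1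
    linarith
  have hKNδ : K * (N * δ) ^ 2 ≤ min 1 (c / 4) := by
    rw [le_div_iff₀ (by positivity)] at hδ2
    have h2 : 0 ≤ N * δ := by positivity
    have h3 : K * (N * δ) ^ 2 ≤ K * (N * δ) := by
      apply mul_le_mul_of_nonneg_left _ hKpos.le
      nlinarith
    linarith
  have hδw : δ / 2 * lw ≤ s₀ := by
    rw [le_div_iff₀ (by positivity)] at hδ3
    nlinarith
  exact ⟨N, K, δ, r', hN16, hK1, hδpos, hNδ, hκρ, hNc, hκlog, hr'pos, hr'exp, hKcosh, hKs₀, hKr',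
    hKNδ.trans (min_le_left _ _), hKNδ.trans (min_le_right _ _), hδw⟩

end ExtStar
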