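import Pool.Agent.Helper340_star.Global
import Pool.Agent.Helper340_star.Params

/-!
# The comparison theorem for domains invariant under dilations

Helper file for `MP_437bdf_an`.
-/

open InnerProductSpace Laplacian Filter Topology Set Metric

namespace ExtStar

variable {d : ℕ} {γ : ℝ} {f : ℝ → ℝ} {Ω : Set (E d)} {u v : E d → ℝ}

/-- A purely numerical consequence of the touching inequality. -/
theorem num_bounds {N K κ δ g F1 D c s₀ r' S w e2 FU Fv b : ℝ} (hN : 16 ≤ N) (hκ : κ = 16 / N)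
    (hK : 1 ≤ K) (hg : 0 ≤ g) (hD : 0 ≤ D) (hs₀ : 0 < s₀) (hw : 1 ≤ w)
    (he2 : 0 ≤ e2) (hFU : 0 ≤ FU) (hFv0 : 0 ≤ Fv) (hFv : Fv ≤ F1)
    (hKs₀ : 4 * (2 * F1 + D / 8 + 1) ≤ K * s₀ ^ 2)
    (hKr' : 2 * F1 + D / 8 + 1 ≤ K * r')
    (hKδ : K * (N * δ) ^ 2 ≤ 1) (hKc : K * (N * δ) ^ 2 ≤ c / 4) (hNc : D / (8 * N) ≤ c / 4)
    (hineq : e2 * FU + 2 / N * g ≤ (1 + κ) * Fv + D / (8 * N) + K * (N * δ) ^ 2)
    (hS : K ^ 2 * N ^ 2 * S ^ 2 * w ≤ g) (hbS : (N * b) ^ 2 ≤ S ^ 2) :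
    K * (w * (S ^ 2 / 2)) ≤ r' ∧ b ^ 2 ≤ (s₀ / 2) ^ 2 ∧ e2 * FU ≤ (1 + κ) * Fv + c / 2 := by
  have hNpos : 0 < N := by linarith
  have hN1 : 1 ≤ N := by linarith
  have hKpos : 0 < K := by linarith
  have hF1 : 0 ≤ F1 := hFv0.trans hFv
  have hκ1 : κ ≤ 1 := by rw [hκ, div_le_one hNpos]; exact hN
  have hκ0 : 0 ≤ κ := by rw [hκ]; positivity
  set M0 := 2 * F1 + D / 8 + 1 with hM0
  have hM0pos : 0 < M0 := by positivity
  have hgM : g ≤ N / 2 * M0 := by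
    have h1 : 2 / N * g ≤ M0 := by
      have h2 : 0 ≤ e2 * FU := by positivity
      have h3 : (1 + κ) * Fv ≤ 2 * F1 := by
        apply mul_le_mul (by linarith) hFv hFv0 (by norm_num)
      have h4 : D / (8 * N) ≤ D / 8 := by
        apply div_le_div_of_nonneg_left hD (by norm_num)
        linarith
      linarith
    have h2 : g = N / 2 * (2 / N * g) := by field_simp
    rw [h2]
    gcongr
  clear_value M0
  have hgS' : K ^ 2 * N ^ 2 * S ^ 2 * w ≤ N / 2 * M0 := hS.trans hgM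
  refine ⟨?_, ?_, ?_⟩
  · have h2 : (K * N ^ 2) * (K * (w * (S ^ 2 / 2))) ≤ N / 4 * M0 := by
      have : (K * N ^ 2) * (K * (w * (S ^ 2 / 2))) =
          (K ^ 2 * N ^ 2 * S ^ 2 * w) / 2 := by ring
      rw [this]; linarith
    have h3 : N / 4 * M0 ≤ (K * N ^ 2) * r' := by
      have h4 : N / 4 * M0 ≤ N ^ 2 * M0 := by
        apply mul_le_mul_of_nonneg_right _ hM0pos.le
        nlinarith
      have h5 : N ^ 2 * M0 ≤ N ^ 2 * (K * r') := by gcongr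
      linarith
    exact le_of_mul_le_mul_left (h2.trans h3) (by positivity : 0 < K * N ^ 2)
  · have h2 : K * N * (K * N * S ^ 2) ≤ K * N * (M0 / 2) := by
      have h3 : K * N * (K * N * S ^ 2) = K ^ 2 * N ^ 2 * S ^ 2 * 1 := by ring
      have h4 : K ^ 2 * N ^ 2 * S ^ 2 * 1 ≤ K ^ 2 * N ^ 2 * S ^ 2 * w := by gcongr
      have h5 : N / 2 * M0 ≤ K * N * (M0 / 2) := by
        have : N * (M0 / 2) ≤ K * (N * (M0 / 2)) := le_mul_of_one_le_left (by positivity) hK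
        linarith
      linarith
    have h3 : K * N * S ^ 2 ≤ M0 / 2 := le_of_mul_le_mul_left h2 (by positivity)
    have h4 : K * b ^ 2 ≤ K * N * S ^ 2 := by
      have h5 : b ^ 2 ≤ (N * b) ^ 2 := by
        rw [mul_pow]
        exact le_mul_of_one_le_left (sq_nonneg _) (one_le_pow₀ hN1)
      have h6 : S ^ 2 ≤ N * S ^ 2 := le_mul_of_one_le_left (sq_nonneg _) hN1
      have h7 : K * b ^ 2 ≤ K * (N * S ^ 2) := by
        apply mul_le_mul_of_nonneg_left _ hKpos.le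
        linarith
      linarith
    have h5 : K * b ^ 2 ≤ K * (s₀ / 2) ^ 2 := by
      have : K * (s₀ / 2) ^ 2 = K * s₀ ^ 2 / 4 := by ring
      rw [this]; linarith
    exact le_of_mul_le_mul_left h5 hKpos
  · have h2 : 0 ≤ 2 / N * g := by positivity
    linarith

/-- A touching point is impossible. -/
theorem touch_false (hf : PositiveReaction γ f) (hΩ : IsOpen Ω) (hdil : DilInv Ω)
    (hu : IsSol f Ω u) (hv : IsSol f Ω v)
    {F1 c ρ τ s₀ S₀ N K δ r' : ℝ}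
    (hquo : ∀ s, 0 ≤ s → s ≤ 1 → quo f s ≤ F1) (hc : 0 < c) (hτ : 0 < τ) (hs₀ : 0 < s₀)
    (hgap : ∀ κ, 0 ≤ κ → κ < ρ → κ ≤ 1 →
      ∀ P, 1 + τ ≤ P → P < 1 + τ + ρ → ∀ v, 0 < v → v ≤ 1 →
        (1 + κ) * (f v / v) + c ≤ Real.exp s₀ * (f (v ^ (1 + κ) / P) / (v ^ (1 + κ) / P)))
    (hN : 16 ≤ N) (hK : 1 ≤ K) (hδ : 0 < δ) (hNδ : N * δ ≤ 1) (hκρ : 16 / N < ρ)
    (hNc : (3 + 3 * (d:ℝ)) ^ 2 / (8 * N) ≤ c / 4)
    (hr'exp : (1 + τ) * Real.exp r' < 1 + τ + ρ)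
    (hKs₀ : 4 * (2 * F1 + (3 + 3 * (d:ℝ)) ^ 2 / 8 + 1) ≤ K * s₀ ^ 2)
    (hKr' : 2 * F1 + (3 + 3 * (d:ℝ)) ^ 2 / 8 + 1 ≤ K * r')
    (hKδ : K * (N * δ) ^ 2 ≤ 1) (hKc : K * (N * δ) ^ 2 ≤ c / 4)
    {σ' s' : ℝ} {y' : E d} (hσ' : s₀ ≤ σ') (hy' : y' ∈ Ω) (hs'0 : 0 < s') (hs'1 : s' < S₀)
    (hΦeq : Phi u v (16 / N) K N δ σ' y' s' = Real.log (1 + τ))
    (hupper : ∀ y ∈ Ω, ∀ s, 0 ≤ s → s ≤ S₀ →
      Phi u v (16 / N) K N δ σ' y s ≤ Real.log (1 + τ)) : False := by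
  have hNpos : 0 < N := by linarith
  have hKpos : 0 < K := by linarith
  obtain ⟨g, hg0, hineq, hgS⟩ := touching hΩ hdil hu hv hN rfl hKpos hδ.le hNδ hy'
    hs'0 hs'1 (fun y hy s hs0' hs1' => by rw [hΦeq]; exact hupper y hy s hs0' hs1')
  set κ := 16 / N with hκ
  have hκpos : 0 < κ := by positivity
  have hκ1 : κ ≤ 1 := by rw [hκ, div_le_one hNpos]; exact hN
  have hvy' := hv.pos y' hy'
  have hvy'1 := hv.le_one hf hΩ hy'
  set b := s' - σ' - δ / 2 * Real.log (1 + ‖y'‖ ^ 2) with hb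
  set S := Real.sinh (N * b) with hS
  set U := u (Real.exp s' • y') with hU
  have hxΩ : Real.exp s' • y' ∈ Ω := hdil y' hy' _ (Real.one_le_exp hs'0.le)
  have hUpos : 0 < U := hu.pos _ hxΩ
  have hU1 : U ≤ 1 := hu.le_one hf hΩ hxΩ
  have hw'1 : 1 ≤ 1 + ‖y'‖ ^ 2 := one_le_w y'
  have hFU : 0 ≤ f U / U := div_nonneg (hf.nonneg hUpos.le hU1) hUpos.le
  have hFv : f (v y') / v y' ≤ F1 := by
    have := hquo (v y') hvy'.le hvy'1
    rwa [quo_of_ne f hvy'.ne'] at this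
  have hFv0 : 0 ≤ f (v y') / v y' := div_nonneg (hf.nonneg hvy'.le hvy'1) hvy'.le
  obtain ⟨hpen', hbs, hmain⟩ := num_bounds hN hκ hK hg0 (sq_nonneg (3 + 3 * (d:ℝ))) hs₀ hw'1
    (sq_nonneg (Real.exp s')) hFU hFv0 hFv hKs₀ hKr' hKδ hKc hNc hineq hgS
    (sq_le_sinh_sq (N * b))
  have hpen : pen K N δ (s' - σ') (1 + ‖y'‖ ^ 2) ≤ r' := by
    refine le_trans ?_ hpen'
    unfold pen
    have := cosh_sub_one_le (N * b)
    gcongr
  have hbabs : -(s₀ / 2) ≤ b := (abs_le_of_sq_le_sq' hbs (by positivity)).1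
  have hδlog : 0 ≤ δ / 2 * Real.log (1 + ‖y'‖ ^ 2) := by
    have := Real.log_nonneg hw'1
    positivity
  have hs'ge : s₀ / 2 ≤ s' := by
    simp only [hb] at hbabs
    linarith
  have hexp2 : Real.exp s₀ ≤ Real.exp s' ^ 2 := by
    rw [← Real.exp_nat_mul]
    apply Real.exp_le_exp.2
    push_cast
    linarith
  set pn := pen K N δ (s' - σ') (1 + ‖y'‖ ^ 2) with hpn
  have hpen0 : 0 ≤ pn := pen_nonneg hKpos.le (by positivity)
  have hΦ' : (1 + κ) * Real.log (v y') - Real.log U - pn = Real.log (1 + τ) := hΦeq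
  clear_value pn
  set P := Real.exp (Real.log (1 + τ) + pn) with hP
  have hPpos : 0 < P := Real.exp_pos _
  have hP1 : 1 + τ ≤ P := by
    rw [hP, Real.exp_add, Real.exp_log (by positivity)]
    exact le_mul_of_one_le_right (by positivity) (Real.one_le_exp hpen0)
  have hP2 : P < 1 + τ + ρ := by
    rw [hP, Real.exp_add, Real.exp_log (by positivity)]
    have : (1 + τ) * Real.exp pn ≤ (1 + τ) * Real.exp r' := by
      gcongr
    linarith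
  have hUeq : U = v y' ^ (1 + κ) / P := by
    have h1 : Real.log U = (1 + κ) * Real.log (v y') - (Real.log (1 + τ) + pn) := by
      linarith
    rw [← Real.exp_log hUpos, h1, Real.exp_sub, Real.rpow_def_of_pos hvy', mul_comm (1 + κ)]
  have hfinal := hgap κ hκpos.le hκρ hκ1 P hP1 hP2 (v y') hvy' hvy'1
  rw [← hUeq] at hfinal
  have h1 : Real.exp s₀ * (f U / U) ≤ Real.exp s' ^ 2 * (f U / U) := by gcongr
  linarith

/-- A nonnegative number that is at most `1 + t²`. -/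
theorem le_one_add_sq (t : ℝ) : t ≤ 1 + t ^ 2 := by nlinarith [sq_nonneg (t - 1)]

/-- Main comparison: every solution `v` is below every solution `u`. -/
theorem core (hf : PositiveReaction γ f) (hΩ : IsOpen Ω) (hdil : DilInv Ω) (h0 : (0 : E d) ∉ Ω)
    (hu : IsSol f Ω u) (hv : IsSol f Ω v) {r C : ℝ} (hr : 0 < r) (hC : 0 < C)
    (hin : InnerProp Ω v r C) : ∀ y ∈ Ω, v y ≤ u y := by
  intro y₁ hy₁
  by_contra hlt
  push Not at hlt
  have hu1 := hu.pos y₁ hy₁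
  have hv1 := hv.pos y₁ hy₁
  set Δ0 := Real.log (v y₁) - Real.log (u y₁) with hΔ0
  have hΔ0pos : 0 < Δ0 := by
    have := Real.log_lt_log hu1 hlt
    linarith
  -- choice of `s₀`
  have hcont : ContinuousAt (fun s : ℝ => Real.log (v y₁) - Real.log (u (Real.exp s • y₁))) 0 := by
    apply ContinuousAt.sub continuousAt_const
    have hu0 : ContinuousAt u (Real.exp (0:ℝ) • y₁) := by
      rw [Real.exp_zero, one_smul]
      exact (hu.contDiffAt hΩ hy₁).continuousAt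
    have h1 : ContinuousAt (fun s : ℝ => u (Real.exp s • y₁)) 0 :=
      ContinuousAt.comp (f := fun s : ℝ => Real.exp s • y₁) hu0 (by fun_prop)
    apply h1.log
    simp only [Real.exp_zero, one_smul]
    exact hu1.ne'
  have hev : ∀ᶠ s in 𝓝 (0:ℝ), Δ0 / 2 < Real.log (v y₁) - Real.log (u (Real.exp s • y₁)) := by
    apply hcont.eventually (lt_mem_nhds _)
    simp only [Real.exp_zero, one_smul]
    rw [← hΔ0]; linarith
  obtain ⟨ε, hε, Hε⟩ := Metric.eventually_nhds_iff.1 hev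
  obtain ⟨s₀, hs₀pos, hs₀ε⟩ : ∃ s₀ : ℝ, 0 < s₀ ∧ 2 * s₀ < ε := ⟨ε / 4, by positivity, by linarith⟩
  have Hs : ∀ s, 0 ≤ s → s ≤ 2 * s₀ →
      Δ0 / 2 < Real.log (v y₁) - Real.log (u (Real.exp s • y₁)) := by
    intro s h1 h2
    apply Hε
    rw [Real.dist_eq, sub_zero, abs_of_nonneg h1]
    linarith
  -- reaction gap
  have hL : 1 < Real.exp s₀ := Real.one_lt_exp_iff.2 hs₀pos
  obtain ⟨τ, hτ0, hτ1, c, hc, ρ, hρ, hgap⟩ := hf.reaction_gap hL (τ₁ := Δ0 / 4) (by positivity)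
  obtain ⟨l, hl1, hlM, hstart⟩ := start hf hΩ hdil hu hv hr hC hin (τ := τ / 2) (by positivity)
    (Real.exp (2 * s₀))
  have hlpos : 0 < l := by linarith
  obtain ⟨S₀, hexpS⟩ : ∃ S₀ : ℝ, Real.exp S₀ = l := ⟨Real.log l, Real.exp_log hlpos⟩
  have hS₀gt : 2 * s₀ < S₀ := by
    rw [← hexpS] at hlM; exact Real.exp_lt_exp.1 hlM
  have hS₀pos : 0 < S₀ := by linarith
  obtain ⟨F1, hF1, hquo⟩ := hf.quo_bdd
  obtain ⟨B, hB, hapr⟩ := apriori hf hΩ hdil h0 hu hv hr hC hin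
  obtain ⟨B1, hB1, hB10⟩ : ∃ B1 : ℝ, B1 = B * (1 + l) ∧ 0 ≤ B1 := ⟨_, rfl, by positivity⟩
  have hapr1 : ∀ y ∈ Ω, ∀ s, 0 ≤ s → s ≤ S₀ →
      Real.log (v y) - Real.log (u (Real.exp s • y)) ≤ B1 * (1 + ‖y‖ ^ 2) := by
    intro y hy s hs0 hs1
    have h1 := hapr y hy (Real.exp s) (Real.one_le_exp hs0)
    have h2 : ‖Real.exp s • y‖ ≤ l * (1 + ‖y‖ ^ 2) := by
      rw [norm_smul, Real.norm_eq_abs, abs_of_pos (Real.exp_pos s)]
      have h3 : Real.exp s ≤ l := by rw [← hexpS]; exact Real.exp_le_exp.2 hs1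
      exact mul_le_mul h3 (le_one_add_sq _) (norm_nonneg _) hlpos.le
    refine h1.trans ?_
    rw [hB1, mul_assoc]
    apply mul_le_mul_of_nonneg_left _ hB
    have h4 : 0 ≤ ‖y‖ ^ 2 := sq_nonneg _
    linarith
  have hlogw₁ : 0 ≤ Real.log (1 + ‖y₁‖ ^ 2) := Real.log_nonneg (one_le_w y₁)
  obtain ⟨N, K, δ, r', hN, hK, hδ, hNδ, hκρ, hNc, hκlog, hr'pos, hr'exp, hKcosh, hKs₀, hKr', hKδ,
    hKc, hδw⟩ := exists_params (F1 := F1) (D := (3 + 3 * (d:ℝ)) ^ 2) (B1 := B1) (ρ := ρ) (c := c)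
      (τ := τ) (Δ0 := Δ0) (lv := |Real.log (v y₁)|) (s₀ := s₀) (lw := Real.log (1 + ‖y₁‖ ^ 2))
      hF1 (by positivity) hB10 hρ hc hτ0 hΔ0pos (abs_nonneg _) hs₀pos hlogw₁
  have hNpos : 0 < N := by linarith
  have hκpos : 0 < 16 / N := by positivity
  -- the violating point at `σ = s₀`
  have hs₁0 : 0 ≤ s₀ + δ / 2 * Real.log (1 + ‖y₁‖ ^ 2) := by positivity
  have hs₁2 : s₀ + δ / 2 * Real.log (1 + ‖y₁‖ ^ 2) ≤ 2 * s₀ := by linarith
  have hviol : Real.log (1 + τ) ≤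
      Phi u v (16 / N) K N δ s₀ y₁ (s₀ + δ / 2 * Real.log (1 + ‖y₁‖ ^ 2)) := by
    have h1 := Hs _ hs₁0 hs₁2
    have h2 : pen K N δ (s₀ + δ / 2 * Real.log (1 + ‖y₁‖ ^ 2) - s₀) (1 + ‖y₁‖ ^ 2) = 0 := by
      unfold pen
      have : s₀ + δ / 2 * Real.log (1 + ‖y₁‖ ^ 2) - s₀ - δ / 2 * Real.log (1 + ‖y₁‖ ^ 2) = 0 := by
        ring
      rw [this, mul_zero, Real.cosh_zero]; ring
    have h3 : Real.log (1 + τ) ≤ τ := by
      have := Real.log_le_sub_one_of_pos (by linarith : 0 < 1 + τ)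
      linarith
    have h4 : -(Δ0 / 8) ≤ 16 / N * Real.log (v y₁) := by
      have h5 : -|Real.log (v y₁)| ≤ Real.log (v y₁) := neg_abs_le _
      have h6 : 16 / N * (-|Real.log (v y₁)|) ≤ 16 / N * Real.log (v y₁) :=
        mul_le_mul_of_nonneg_left h5 hκpos.le
      linarith
    unfold Phi
    rw [h2]
    linarith
  obtain ⟨σ', y', s', hσ', hy', hs'0, hs'1, hΦeq, hupper⟩ := exists_touch hf hΩ hdil hu hv hκpos
    hNpos (by linarith) hδ hs₀pos hB10 hτ0 hS₀pos hapr1 hKcosh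
    (fun y hy => by rw [hexpS]; exact hstart y hy) hy₁ hs₁0 (by linarith) hviol
  exact touch_false hf hΩ hdil hu hv hquo hc hτ0 hs₀pos hgap hN hK hδ hNδ hκρ hNc hr'exp hKs₀ hKr'
    hKδ hKc hσ' hy' hs'0 hs'1 hΦeq hupper

end ExtStar
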