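import Mathlib

/-!
# Definitions for `MP_437bdf_an`

Positive reactions, uniformly smooth boundaries, and positive bounded solutions of the Dirichlet
problem `-Δ u = f(u)` in `Ω`, `u = 0` on `∂Ω`.
-/

open InnerProductSpace Laplacian Filter Topology Set Metric

namespace ExtStar

/-- the Euclidean space `R^d` -/
abbrev E (d : ℕ) := EuclideanSpace ℝ (Fin d)

/-- A positive reaction of class `C^{1,γ}`: `f : [0,∞) → ℝ` with `f(0)=f(1)=0`, `f<0` on `(1,∞)`,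
`f'(1)<0`, `f>0` on `(0,1)` and `f'(0⁺)>0`. (Only the values of `f` on `[0,∞)` matter.) -/
structure PositiveReaction (γ : ℝ) (f : ℝ → ℝ) : Prop where
  contDiffOn : ContDiffOn ℝ 1 f (Ici 0)
  holder : ∀ R : ℝ, ∃ C : ℝ, ∀ s ∈ Icc 0 R, ∀ t ∈ Icc 0 R,
    |derivWithin f (Ici 0) s - derivWithin f (Ici 0) t| ≤ C * |s - t| ^ γ
  zero : f 0 = 0
  one : f 1 = 0
  neg : ∀ s, 1 < s → f s < 0
  deriv_one : derivWithin f (Ici 0) 1 < 0
  pos : ∀ s, 0 < s → s < 1 → 0 < f s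
  deriv_zero : 0 < derivWithin f (Ici 0) 0

variable {d : ℕ}

/-- The boundary of the open set `Ω` is uniformly of class `C^{2,γ}`: there are a size `r > 0` and
a bound `K` such that for every boundary point `b` there are a unit vector `e` and a function `φ`
(thought of as a function of the coordinates orthogonal to `e`; it is only evaluated at the
orthogonal projection of `z - b`) of class `C^{2,γ}` with all bounds given by `K`, such that in
the ball of radius `r` about `b`, `Ω` is the region lying strictly above the graph of `φ` in the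
direction `e`. -/
def UniformC2Boundary (γ : ℝ) (Ω : Set (E d)) : Prop :=
  ∃ r K : ℝ, 0 < r ∧ ∀ b ∈ frontier Ω, ∃ (e : E d) (φ : E d → ℝ), ‖e‖ = 1 ∧
    ContDiffOn ℝ 2 φ (ball 0 r) ∧
    (∀ z ∈ ball (0 : E d) r, ‖fderiv ℝ φ z‖ ≤ K ∧ ‖iteratedFDeriv ℝ 2 φ z‖ ≤ K) ∧
    (∀ z ∈ ball (0 : E d) r, ∀ z' ∈ ball (0 : E d) r,
      ‖iteratedFDeriv ℝ 2 φ z - iteratedFDeriv ℝ 2 φ z'‖ ≤ K * ‖z - z'‖ ^ γ) ∧
    ∀ z ∈ ball b r, z ∈ Ω ↔ φ ((z - b) - inner ℝ e (z - b) • e) < inner ℝ e (z - b)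

/-- A (positive, bounded) solution of `-Δ u = f(u)` in `Ω`, `u = 0` on `∂Ω`. -/
structure IsSol (f : ℝ → ℝ) (Ω : Set (E d)) (u : E d → ℝ) : Prop where
  contDiffOn : ContDiffOn ℝ 2 u Ω
  continuousOn : ContinuousOn u (closure Ω)
  pos : ∀ x ∈ Ω, 0 < u x
  bdd : ∃ C : ℝ, ∀ x ∈ Ω, u x ≤ C
  bdry : ∀ x ∈ frontier Ω, u x = 0
  eqn : ∀ x ∈ Ω, - Δ u x = f (u x)

end ExtStar
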