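import Pool.Agent.Helper340_star.ExDom
import Pool.Agent.Helper340_star.Bounds

/-!
# Boundary values of the limit of the penalised solutions

Helper file for the existence half of `MP_437bdf_an`.
-/

open InnerProductSpace Laplacian MeasureTheory Filter Topology Set Metric

namespace ExtStar

variable {d : ℕ} {γ : ℝ} {f : ℝ → ℝ} {Ω : Set (E d)}

/-- The penalised solutions are small on balls in the region where the potential is positive. -/
theorem outer_small (hf : PositiveReaction γ f) {V₀ : E d → ℝ} (hVc : Continuous V₀)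
    (h0 : ∀ x, 0 ≤ V₀ x) {U : ℕ → E d → ℝ} (hU : PenSeq f Ω V₀ U) {p : E d} {ρ ρ' : ℝ}
    (hρ : 0 ≤ ρ) (hρρ' : ρ < ρ') (hV : ∀ x ∈ closedBall p ρ', 0 < V₀ x) {δ : ℝ} (hδ : 0 < δ) :
    ∃ n, ∀ x ∈ closedBall p ρ, U n x ≤ δ := by
  obtain ⟨F, hF0, hF⟩ := hf.bdd
  obtain ⟨y₀, hy₀, hmin⟩ := (isCompact_closedBall p ρ').exists_isMinOn
    ⟨p, mem_closedBall_self (by linarith)⟩ hVc.continuousOn
  set v₀ := V₀ y₀ with hv₀
  have hv₀pos : 0 < v₀ := hV y₀ hy₀
  obtain ⟨R, hR⟩ := exists_nat_ge (‖p‖ + ρ')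
  set s := ρ' - ρ with hs
  have hs0 : 0 < s := by simp only [hs]; linarith
  set Q := F + 2 * d / s ^ 2 with hQ
  obtain ⟨k, hk⟩ := exists_nat_gt (Q / (v₀ * δ))
  refine ⟨R + k, ?_⟩
  intro x₀ hx₀
  by_contra hcon
  push Not at hcon
  set u := U (R + k) with hu
  have hsol := hU.sol (R + k)
  rw [← hu] at hsol
  set g : E d → ℝ := fun y => u y - (1 / s ^ 2) * ‖y - x₀‖ ^ 2 with hg
  have hgc : Continuous g := by
    have := hsol.c2.continuous
    fun_prop
  obtain ⟨z, hz, hmax⟩ := (isCompact_closedBall x₀ s).exists_isMaxOn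
    ⟨x₀, mem_closedBall_self hs0.le⟩ hgc.continuousOn
  have hgx : g x₀ = u x₀ := by simp [hg]
  have hgz : u x₀ ≤ g z := by rw [← hgx]; exact hmax (mem_closedBall_self hs0.le)
  have hzs : ‖z - x₀‖ ≤ s := by rwa [mem_closedBall, dist_eq_norm] at hz
  have hzlt : ‖z - x₀‖ < s := by
    rcases hzs.lt_or_eq with h | h
    · exact h
    · exfalso
      have h1 : g z = u z - 1 := by
        simp only [hg]
        rw [h]
        field_simp
      have h2 := (hsol.mem z).2
      linarith
  have hloc : IsLocalMax g z := by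
    have : ball x₀ s ∈ 𝓝 z := isOpen_ball.mem_nhds (by rwa [mem_ball, dist_eq_norm])
    filter_upwards [this] with y hy
    exact hmax (ball_subset_closedBall hy)
  have hjet : ∀ i, Jet (fun t => (1 / s ^ 2) * ‖z + t • bv i - x₀‖ ^ 2)
      ((1 / s ^ 2) * (2 * (z i - x₀ i))) ((1 / s ^ 2) * 2) := fun i =>
    (jet_normSq z x₀ i).const_mul _
  have hlap := lap_le_of_localMax (g := fun y => (1 / s ^ 2) * ‖y - x₀‖ ^ 2)
    hsol.c2.contDiffAt hjet hloc
  simp only [Finset.sum_const, Finset.card_univ, Fintype.card_fin, nsmul_eq_mul] at hlap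
  have hzV : z ∈ closedBall p ρ' := by
    rw [mem_closedBall]
    have h1 : dist x₀ p ≤ ρ := hx₀
    have h2 : dist z x₀ ≤ s := hz
    calc dist z p ≤ dist z x₀ + dist x₀ p := dist_triangle _ _ _
      _ ≤ ρ' := by simp only [hs] at h2; linarith
  have hzR : ‖z‖ ≤ R := by
    have h1 : ‖z‖ ≤ ‖p‖ + ρ' := by
      calc ‖z‖ = ‖p + (z - p)‖ := by congr 1; abel
        _ ≤ ‖p‖ + ‖z - p‖ := norm_add_le _ _
        _ ≤ _ := by
          rw [mem_closedBall, dist_eq_norm] at hzV
          linarith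
    exact h1.trans hR
  have hW := Wn_lower h0 R (R + k) hzR
  have hvz : v₀ ≤ V₀ z := hmin hzV
  have heq := hsol.eqn z
  have hfz := hF (u z) (hsol.mem z).1 (hsol.mem z).2
  have huz : δ < u z := by
    have : 0 ≤ (1 / s ^ 2) * ‖z - x₀‖ ^ 2 := by positivity
    simp only [hg] at hgz
    linarith
  have h1 : (k : ℝ) * v₀ * δ ≤ Wn V₀ (R + k) z * u z := by
    have h2 : (k : ℝ) * v₀ ≤ Wn V₀ (R + k) z := by
      refine le_trans ?_ hW
      push_cast
      have : ((R:ℝ) + k - R) = k := by ring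
      rw [this]
      gcongr
    exact mul_le_mul h2 huz.le hδ.le ((by positivity : (0:ℝ) ≤ k * v₀).trans h2)
  have h3 : Q < k * (v₀ * δ) := by
    rwa [div_lt_iff₀ (by positivity)] at hk
  have h4 : (d : ℝ) * (1 / s ^ 2 * 2) = 2 * d / s ^ 2 := by ring
  rw [h4] at hlap
  have h5 : Wn V₀ (R + k) z * u z ≤ Q := by
    simp only [hQ]
    linarith
  nlinarith

/-- Values of the penalised solutions at a boundary point with an exterior ball. -/
theorem bdry_small (hf : PositiveReaction γ f) {V₀ : E d → ℝ} (hVc : Continuous V₀)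
    (h0 : ∀ x, 0 ≤ V₀ x) {U : ℕ → E d → ℝ} (hU : PenSeq f Ω V₀ U) {p b : E d} {r : ℝ}
    (hr : 0 < r) (hV : ∀ x ∈ ball p r, 0 < V₀ x) (hb : ‖b - p‖ = r) {δ : ℝ} (hδ : 0 < δ) :
    ∃ n, U n b < δ := by
  obtain ⟨F, hF0, hF⟩ := hf.bdd
  set α := 4 * (d + 1) / r ^ 2 with hα
  have hα0 : 0 < α := by positivity
  have hαr : α * r ^ 2 = 4 * (d + 1) := by simp only [hα]; field_simp
  set e2 := Real.exp (-(α * (2 * r) ^ 2)) with he2
  set e1 := Real.exp (-(α * r ^ 2)) with he1
  have he2pos : 0 < e2 := Real.exp_pos _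
  have hexp : e2 < e1 := by
    apply Real.exp_lt_exp.2
    nlinarith [mul_pos hα0 (pow_pos hr 2)]
  set A := (F + 1) / (2 * α * e2) + 1 / (e1 - e2) with hA
  have hdiff : 0 < e1 - e2 := by linarith
  have hA1 : F + 1 ≤ A * (2 * α * e2) := by
    have h1 : 0 < 2 * α * e2 := by positivity
    have h2 : (F + 1) / (2 * α * e2) ≤ A := by
      simp only [hA]
      have : 0 ≤ 1 / (e1 - e2) := by positivity
      linarith
    rwa [div_le_iff₀ h1] at h2
  have hA2 : 1 ≤ A * (e1 - e2) := by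
    have h2 : 1 / (e1 - e2) ≤ A := by
      simp only [hA]
      have : 0 ≤ (F + 1) / (2 * α * e2) := by positivity
      linarith
    rwa [div_le_iff₀ hdiff] at h2
  have hApos : 0 < A := by positivity
  -- choose `ρ < r` close to `r`
  have hcont : Continuous (fun ρ : ℝ => A * (Real.exp (-(α * ρ ^ 2)) - e1)) := by fun_prop
  have hev : ∀ᶠ ρ in 𝓝 r, A * (Real.exp (-(α * ρ ^ 2)) - e1) < δ / 2 := by
    refine (hcont.tendsto r).eventually (gt_mem_nhds ?_)
    rw [← he1, sub_self, mul_zero]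
    positivity
  obtain ⟨η, hη, H⟩ := Metric.eventually_nhds_iff.1 hev
  set m := min (η / 2) (r / 4) with hm
  have hm0 : 0 < m := by positivity
  have hmη : m ≤ η / 2 := min_le_left _ _
  have hmr : m ≤ r / 4 := min_le_right _ _
  set ρ := r - m with hρ
  have hρr : ρ < r := by simp only [hρ]; linarith
  have hρ2 : r / 2 ≤ ρ := by simp only [hρ]; linarith
  have hρ0 : 0 < ρ := by linarith
  have hρδ : A * (Real.exp (-(α * ρ ^ 2)) - e1) < δ / 2 := by
    apply H
    rw [Real.dist_eq]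
    have : ρ - r = -m := by simp only [hρ]; ring
    rw [this, abs_neg, abs_of_pos hm0]
    linarith
  have hρe : e1 ≤ Real.exp (-(α * ρ ^ 2)) := by
    apply Real.exp_le_exp.2
    have : ρ ^ 2 ≤ r ^ 2 := pow_le_pow_left₀ hρ0.le hρr.le 2
    nlinarith
  -- smallness on the inner ball
  obtain ⟨n, hn⟩ := outer_small hf hVc h0 hU (p := p) (ρ := ρ) (ρ' := (ρ + r) / 2) hρ0.le
    (by linarith) (fun x hx => hV x (closedBall_subset_ball (by linarith) hx))
    (by positivity : 0 < δ / 4)
  refine ⟨n, ?_⟩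
  set u := U n with hu
  have hsol := hU.sol n
  rw [← hu] at hsol
  set Z : E d → ℝ := fun w => A * (Real.exp (-(α * ρ ^ 2)) - Real.exp (-(α * ‖w - p‖ ^ 2))) with hZ
  have hZc : Continuous Z := by fun_prop
  set S : Set (E d) := closedBall p (2 * r) ∩ {w | ρ ≤ ‖w - p‖} with hS
  have hScomp : IsCompact S := by
    apply (isCompact_closedBall p (2 * r)).inter_right
    exact isClosed_le continuous_const (by fun_prop)
  have hbS : b ∈ S := by
    refine ⟨?_, ?_⟩
    · rw [mem_closedBall, dist_eq_norm, hb]; linarith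
    · show ρ ≤ ‖b - p‖
      rw [hb]; exact hρr.le
  have hgc : Continuous (fun w => u w - Z w) := hsol.c2.continuous.sub hZc
  obtain ⟨z, hz, hmax⟩ := hScomp.exists_isMaxOn ⟨b, hbS⟩ hgc.continuousOn
  have hz1 : ‖z - p‖ ≤ 2 * r := by
    have := hz.1
    rwa [mem_closedBall, dist_eq_norm] at this
  have hz2 : ρ ≤ ‖z - p‖ := hz.2
  have hkey : u z - Z z ≤ δ / 4 := by
    rcases hz2.eq_or_lt with h | h
    · have h1 : Z z = 0 := by
        simp only [hZ]
        rw [← h, sub_self, mul_zero]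
      rw [h1, sub_zero]
      apply hn
      rw [mem_closedBall, dist_eq_norm, ← h]
    · rcases hz1.eq_or_lt with h' | h'
      · have h1 : 1 ≤ Z z := by
          simp only [hZ]
          rw [h', ← he2]
          have : A * (e1 - e2) ≤ A * (Real.exp (-(α * ρ ^ 2)) - e2) := by gcongr
          linarith
        have h2 := (hsol.mem z).2
        linarith
      · exfalso
        have hloc : IsLocalMax (fun w => u w - Z w) z := by
          have h1 : ∀ᶠ w in 𝓝 z, ‖w - p‖ < 2 * r := by
            have : Continuous fun w : E d => ‖w - p‖ := by fun_prop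
            exact (this.tendsto z).eventually (gt_mem_nhds h')
          have h2 : ∀ᶠ w in 𝓝 z, ρ < ‖w - p‖ := by
            have : Continuous fun w : E d => ‖w - p‖ := by fun_prop
            exact (this.tendsto z).eventually (lt_mem_nhds h)
          filter_upwards [h1, h2] with w hw1 hw2
          apply hmax
          refine ⟨?_, hw2.le⟩
          rw [mem_closedBall, dist_eq_norm]
          exact hw1.le
        have hjet : ∀ i, Jet (fun t => Z (z + t • bv i))
            (A * (0 - Real.exp (-(α * ‖z - p‖ ^ 2)) * (-(α * (2 * (z i - p i))))))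
            (A * (0 - (Real.exp (-(α * ‖z - p‖ ^ 2)) * (-(α * (2 * (z i - p i)))) ^ 2 +
              Real.exp (-(α * ‖z - p‖ ^ 2)) * (-(α * 2))))) := by
          intro i
          have h1 := ((Jet.const (Real.exp (-(α * ρ ^ 2)))).sub
            (((jet_normSq z p i).const_mul α).neg.exp)).const_mul A
          simpa using h1
        have hlap := lap_le_of_localMax hsol.c2.contDiffAt hjet hloc
        have hsum : ∑ i : Fin d, (A * (0 - (Real.exp (-(α * ‖z - p‖ ^ 2)) *
              (-(α * (2 * (z i - p i)))) ^ 2 + Real.exp (-(α * ‖z - p‖ ^ 2)) * (-(α * 2))))) =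
            -(A * (Real.exp (-(α * ‖z - p‖ ^ 2)) * (4 * α ^ 2 * ‖z - p‖ ^ 2 - 2 * α * d))) := by
          calc _ = ∑ i : Fin d, ((-(A * Real.exp (-(α * ‖z - p‖ ^ 2)) * (4 * α ^ 2))) *
                (z i - p i) ^ 2 + (A * Real.exp (-(α * ‖z - p‖ ^ 2)) * (2 * α))) :=
                Finset.sum_congr rfl (fun i _ => by ring)
            _ = _ := by rw [sum_affine]; ring
        rw [hsum] at hlap
        have h1 : 2 * α ≤ 4 * α ^ 2 * ‖z - p‖ ^ 2 - 2 * α * d := by
          have h3 : (r / 2) ^ 2 ≤ ‖z - p‖ ^ 2 :=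
            pow_le_pow_left₀ (by positivity) (hρ2.trans hz2) 2
          have h4 : 4 * α ^ 2 * (r / 2) ^ 2 ≤ 4 * α ^ 2 * ‖z - p‖ ^ 2 := by gcongr
          have h5 : 4 * α ^ 2 * (r / 2) ^ 2 = α * (α * r ^ 2) := by ring
          rw [h5, hαr] at h4
          have h6 : 0 ≤ α * d := by positivity
          nlinarith
        have h2 : e2 ≤ Real.exp (-(α * ‖z - p‖ ^ 2)) := by
          apply Real.exp_le_exp.2
          have : ‖z - p‖ ^ 2 ≤ (2 * r) ^ 2 := pow_le_pow_left₀ (norm_nonneg _) hz1 2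
          nlinarith
        have h3 : F + 1 ≤ A * (Real.exp (-(α * ‖z - p‖ ^ 2)) *
            (4 * α ^ 2 * ‖z - p‖ ^ 2 - 2 * α * d)) := by
          refine hA1.trans ?_
          apply mul_le_mul_of_nonneg_left _ hApos.le
          calc 2 * α * e2 = e2 * (2 * α) := by ring
            _ ≤ _ := mul_le_mul h2 h1 (by positivity) (Real.exp_pos _).le
        have heq := hsol.eqn z
        have hfz := hF (u z) (hsol.mem z).1 (hsol.mem z).2
        have hWu : 0 ≤ Wn V₀ n z * u z := mul_nonneg (Wn_nonneg h0 n z) (hsol.mem z).1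
        linarith
  have hb2 : u b - Z b ≤ u z - Z z := hmax hbS
  have hZb : Z b = A * (Real.exp (-(α * ρ ^ 2)) - e1) := by
    simp only [hZ]
    rw [hb]
  rw [hZb] at hb2
  linarith

end ExtStar
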