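import Pool.Agent.Helper340_star.ExRad

/-!
# Compactly supported radial kernels and the representation formula

Helper file for the existence half of `MP_437bdf_an`.
-/

open InnerProductSpace Laplacian MeasureTheory Filter Topology Set Metric

namespace ExtStar

variable {d : ℕ}

section ker

variable {F : Type*} [NormedAddCommGroup F]

/-- kernels vanishing outside the unit ball -/
def Van (q : E d → F) : Prop := ∀ z, 1 < ‖z‖ → q z = 0

theorem ker_of_van {q : E d → F} (hc : Continuous q) (hv : Van q) : Ker q where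
  cont := hc
  maj := by
    obtain ⟨S, hS⟩ := (isCompact_closedBall (0 : E d) 1).exists_bound_of_continuousOn hc.continuousOn
    have hS' : ∀ z, ‖q z‖ ≤ max S 0 := by
      intro z
      by_cases hz : ‖z‖ ≤ 1
      · exact (hS z (by simpa using hz)).trans (le_max_left _ _)
      · rw [hv z (not_le.1 hz), norm_zero]
        exact le_max_right _ _
    refine ⟨(closedBall (0 : E d) 2).indicator (fun _ => max S 0), ?_, ?_⟩
    · rw [integrable_indicator_iff measurableSet_closedBall]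
      exact integrableOn_const (measure_closedBall_lt_top).ne
    · intro z a ha
      by_cases hz : z ∈ closedBall (0 : E d) 2
      · rw [indicator_of_mem hz]
        exact hS' _
      · rw [indicator_of_notMem hz]
        have h1 : 2 < ‖z‖ := by simpa using hz
        have h2 : 1 < ‖z + a‖ := by
          have : ‖z‖ ≤ ‖z + a‖ + ‖a‖ := by
            calc ‖z‖ = ‖(z + a) - a‖ := by simp
              _ ≤ _ := norm_sub_le _ _
          linarith
        rw [hv _ h2, norm_zero]

variable [NormedSpace ℝ F]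

theorem van_fderiv {q : E d → F} (hv : Van q) : Van (fderiv ℝ q) := by
  intro z hz
  have h1 : q =ᶠ[𝓝 z] fun _ => 0 := by
    have : {y : E d | 1 < ‖y‖} ∈ 𝓝 z := (isOpen_lt continuous_const continuous_norm).mem_nhds hz
    filter_upwards [this] with y hy using hv y hy
  rw [h1.fderiv_eq]
  simp

end ker

/-- the profile -/
noncomputable def Zk (z : E d) : ℝ := expNegInvGlue (1 - ‖z‖ ^ 2)

/-- the derivative of the profile is `-ek z * z` -/
noncomputable def ek (z : E d) : ℝ := 2 * ((1 - ‖z‖ ^ 2)⁻¹ ^ 2 * expNegInvGlue (1 - ‖z‖ ^ 2))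

/-- derivative of the profile -/
noncomputable def Zk' (z : E d) : E d →L[ℝ] ℝ := (-ek z) • innerSL ℝ z

theorem one_sub_neg {z : E d} (hz : 1 < ‖z‖) : 1 - ‖z‖ ^ 2 ≤ 0 := by nlinarith

theorem van_Zk : Van (Zk (d := d)) := fun z hz => by
  rw [Zk, expNegInvGlue.zero_of_nonpos (one_sub_neg hz)]

theorem van_ek : Van (ek (d := d)) := fun z hz => by
  rw [ek, expNegInvGlue.zero_of_nonpos (one_sub_neg hz)]; simp

theorem van_Zk' : Van (Zk' (d := d)) := fun z hz => by
  rw [Zk', van_ek z hz]; simp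

theorem Zk_nonneg (z : E d) : 0 ≤ Zk z := expNegInvGlue.nonneg _

theorem ek_nonneg (z : E d) : 0 ≤ ek z := by
  have := expNegInvGlue.nonneg (1 - ‖z‖ ^ 2)
  unfold ek
  positivity

theorem Zk_pos {z : E d} (hz : ‖z‖ < 1) : 0 < Zk z := by
  apply expNegInvGlue.pos_of_pos
  nlinarith [norm_nonneg z]

theorem ek_pos {z : E d} (hz : ‖z‖ < 1) : 0 < ek z := by
  have h1 : 0 < 1 - ‖z‖ ^ 2 := by nlinarith [norm_nonneg z]
  have := expNegInvGlue.pos_of_pos h1
  unfold ek
  positivity

theorem contDiff_ek {n : ℕ∞} : ContDiff ℝ n (ek (d := d)) := by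
  have h1 : ContDiff ℝ n (fun x : ℝ => (x⁻¹) ^ 2 * expNegInvGlue x) := by
    have := expNegInvGlue.contDiff_polynomial_eval_inv_mul (n := n) (Polynomial.X ^ 2)
    simpa using this
  have h2 : ContDiff ℝ n (fun z : E d => 1 - ‖z‖ ^ 2) := by
    exact contDiff_const.sub (contDiff_norm_sq ℝ)
  exact contDiff_const.mul (h1.comp h2)

theorem contDiff_Zk {n : ℕ∞} : ContDiff ℝ n (Zk (d := d)) := by
  have h2 : ContDiff ℝ n (fun z : E d => 1 - ‖z‖ ^ 2) := by
    exact contDiff_const.sub (contDiff_norm_sq ℝ)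
  exact expNegInvGlue.contDiff.comp h2

theorem hasFDerivAt_Zk (z : E d) : HasFDerivAt Zk (Zk' z) z := by
  have h0 : HasDerivAt expNegInvGlue ((1 - ‖z‖ ^ 2)⁻¹ ^ 2 * expNegInvGlue (1 - ‖z‖ ^ 2))
      (1 - ‖z‖ ^ 2) := by
    have := expNegInvGlue.hasDerivAt_polynomial_eval_inv_mul 1 (1 - ‖z‖ ^ 2)
    simpa using this
  have h1 : HasFDerivAt (fun z : E d => ‖z‖ ^ 2) (2 • (innerSL ℝ z)) z :=
    (hasStrictFDerivAt_norm_sq z).hasFDerivAt
  have h2 : HasFDerivAt (fun z : E d => 1 - ‖z‖ ^ 2) (-(2 • (innerSL ℝ z))) z :=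
    h1.const_sub 1
  have h3 := h0.comp_hasFDerivAt z h2
  refine h3.congr_fderiv ?_
  ext v
  simp [Zk', ek]
  ring

theorem ker_Zk : Ker (Zk (d := d)) :=
  ker_of_van (contDiff_Zk (n := 0)).continuous van_Zk

theorem ker_ek : Ker (ek (d := d)) :=
  ker_of_van (contDiff_ek (n := 0)).continuous van_ek

theorem ker_Zk' : Ker (Zk' (d := d)) := by
  refine ker_of_van ?_ van_Zk'
  have h1 := (contDiff_ek (d := d) (n := 0)).continuous
  have h2 : Continuous fun z : E d => innerSL ℝ z := (innerSL ℝ (E := E d)).continuous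
  exact h1.neg.smul h2

theorem ker_ek' : Ker (fderiv ℝ (ek (d := d))) :=
  ker_of_van ((contDiff_ek (d := d) (n := 2)).continuous_fderiv (by norm_num))
    (van_fderiv van_ek)

theorem contDiff_ek' : ContDiff ℝ 1 (fderiv ℝ (ek (d := d))) :=
  (contDiff_ek (d := d) (n := 2)).fderiv_right (by norm_num)

theorem ker_ek'' : Ker (fderiv ℝ (fderiv ℝ (ek (d := d)))) :=
  ker_of_van (contDiff_ek'.continuous_fderiv (by norm_num)) (van_fderiv (van_fderiv van_ek))

theorem hasFDerivAt_ek (z : E d) : HasFDerivAt ek (fderiv ℝ ek z) z :=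
  ((contDiff_ek (d := d) (n := 2)).differentiable (by norm_num) z).hasFDerivAt

theorem hasFDerivAt_ek' (z : E d) :
    HasFDerivAt (fderiv ℝ ek) (fderiv ℝ (fderiv ℝ (ek (d := d))) z) z :=
  (contDiff_ek'.differentiable (by norm_num) z).hasFDerivAt

theorem integrable_norm_ek : Integrable (fun z : E d => ‖z‖ * ‖ek z‖) := by
  refine (ker_Zk' (d := d)).integrable.norm.congr (Eventually.of_forall fun z => ?_)
  show ‖Zk' z‖ = ‖z‖ * ‖ek z‖
  rw [Zk', norm_smul, norm_neg, innerSL_apply_norm, mul_comm]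

theorem integral_pos_of {q : E d → ℝ} (hq : Ker q) (h0 : ∀ z, 0 ≤ q z)
    (h1 : ∀ z, ‖z‖ < 1 → 0 < q z) : 0 < ∫ z, q z := by
  rw [integral_pos_iff_support_of_nonneg h0 hq.integrable]
  refine lt_of_lt_of_le (measure_ball_pos volume (0 : E d) one_pos) (measure_mono ?_)
  intro z hz
  have : ‖z‖ < 1 := by simpa using hz
  exact (h1 z this).ne'

theorem integral_Zk_pos : 0 < ∫ z : E d, Zk z :=
  integral_pos_of ker_Zk Zk_nonneg fun _ => Zk_pos

theorem integral_ek_pos : 0 < ∫ z : E d, ek z :=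
  integral_pos_of ker_ek ek_nonneg fun _ => ek_pos

/-- Lebesgue measure on `(0, ε]` -/
noncomputable def ν1 (ε : ℝ) : Measure ℝ := volume.restrict (Ioc 0 ε)

theorem ν1_mem (ε : ℝ) : ∀ᵐ t ∂(ν1 ε), t ∈ Ioc 0 ε := ae_restrict_mem measurableSet_Ioc

theorem ν1_pos (ε : ℝ) : ∀ᵐ t ∂(ν1 ε), 0 < t := (ν1_mem ε).mono fun _ h => h.1

theorem integrable_one (ε : ℝ) : Integrable (fun _ : ℝ => (1:ℝ)) (ν1 ε) :=
  integrableOn_const (by simp)

theorem integrable_t (ε : ℝ) : Integrable (fun t : ℝ => t * (fun _ : ℝ => (1:ℝ)) t) (ν1 ε) := by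
  have h1 : IntegrableOn (fun t : ℝ => t) (Ioc 0 ε) :=
    (continuous_id.integrableOn_Icc (a := 0) (b := ε)).mono_set Ioc_subset_Icc_self
  have h2 : Integrable (fun t : ℝ => t) (ν1 ε) := h1
  simpa using h2

/-- the second term of the representation formula -/
noncomputable def B1 (ε : ℝ) (k : E d → ℝ) (x : E d) : ℝ :=
  Tk (ν1 ε) (fun t => t * (fun _ : ℝ => (1:ℝ)) t) Bs Zk k x

/-- the representation formula for `-Δ u = k` -/
def Rep (u k : E d → ℝ) (x : E d) (ε : ℝ) : Prop :=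
  (∫ z : E d, ek z) * u x = Av Bs ek u ε x + B1 ε k x

theorem Av_congr {V F G : Type*} [NormedAddCommGroup V] [NormedAddCommGroup F]
    [NormedAddCommGroup G] [NormedSpace ℝ G] {B : V → F → G} (hB : Bil B) {q : E d → F}
    (hv : Van q) {h₁ h₂ : E d → V} {t : ℝ} (ht : 0 ≤ t) {x : E d}
    (h : ∀ y ∈ closedBall x t, h₁ y = h₂ y) : Av B q h₁ t x = Av B q h₂ t x := by
  have hB0 : ∀ v, B v 0 = 0 := fun v => by
    have := hB.bd v 0
    rw [norm_zero, mul_zero] at this
    exact norm_le_zero_iff.1 this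
  unfold Av
  congr 1
  ext1 z
  by_cases hz : ‖z‖ ≤ 1
  · rw [h]
    rw [mem_closedBall, dist_eq_norm, add_sub_cancel_left, norm_smul, Real.norm_of_nonneg ht]
    nlinarith [norm_nonneg z]
  · rw [hv z (not_le.1 hz), hB0, hB0]

theorem B1_congr {k₁ k₂ : E d → ℝ} {ε : ℝ} {x : E d}
    (h : ∀ y ∈ closedBall x ε, k₁ y = k₂ y) : B1 ε k₁ x = B1 ε k₂ x := by
  unfold B1 Tk
  apply integral_congr_ae
  filter_upwards [ν1_mem ε] with t ht
  rw [Av_congr bil_Bs van_Zk ht.1.le]
  exact fun y hy => h y (closedBall_subset_closedBall ht.2 hy)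

theorem bm_of_cpt {V : Type*} [NormedAddCommGroup V] {h : E d → V} (hc : Continuous h)
    (hs : HasCompactSupport h) : ∃ C, BM h C := by
  obtain ⟨C, hC⟩ := hs.exists_bound_of_continuous hc
  exact ⟨C, hc.stronglyMeasurable, hC⟩

/-- the identity behind the representation formula -/
theorem Ad_eq {w : E d → ℝ} (hw : ContDiff ℝ 2 w) (hs : HasCompactSupport w) {t : ℝ}
    (ht : t ≠ 0) (x : E d) : Ad ek w t x = t * Av Bs Zk (Δ w) t x := by
  have hw1 : ContDiff ℝ 1 w := hw.of_le (by norm_num)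
  have hfd : ContDiff ℝ 1 (fderiv ℝ w) := hw.fderiv_right (by norm_num)
  have hfs : HasCompactSupport (fderiv ℝ w) := hs.fderiv ℝ
  -- the coordinate identity
  have hi : ∀ i : Fin d, Integrable (fun z => D2 w (x + t • z) i * Zk z) ∧
      Integrable (fun z => fderiv ℝ w (x + t • z) (bv i) * (ek z * z i)) ∧
      ∫ z, fderiv ℝ w (x + t • z) (bv i) * (ek z * z i) = t * ∫ z, D2 w (x + t • z) i * Zk z := by
    intro i
    set h : E d → ℝ := fun y => fderiv ℝ w y (bv i) with hh
    have hC1 : ContDiff ℝ 1 h := hfd.clm_apply contDiff_const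
    have hsupp : HasCompactSupport h := by
      have := hfs.comp_left (g := fun φ : E d →L[ℝ] ℝ => φ (bv i)) (by simp)
      exact this
    obtain ⟨C, hC⟩ := bm_of_cpt hC1.continuous hsupp
    obtain ⟨C', hC'⟩ := bm_of_cpt (hC1.continuous_fderiv (by norm_num)) (hsupp.fderiv ℝ)
    have e1 := hasFDerivAt_Av ker_Zk ker_Zk' hasFDerivAt_Zk hC ht x
    have e2 := hasFDerivAt_Av' ker_Zk hC hC1 hC'.bdd t x
    have e3 := e1.unique e2
    have hD : ∀ y, fderiv ℝ h y (bv i) = D2 w y i := by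
      intro y
      have h1 : HasFDerivAt (fderiv ℝ w) (fderiv ℝ (fderiv ℝ w) y) y :=
        (hfd.differentiable (by norm_num) y).hasFDerivAt
      have h2 : HasFDerivAt h ((ContinuousLinearMap.apply ℝ ℝ (bv i)).comp
          (fderiv ℝ (fderiv ℝ w) y)) y :=
        ((ContinuousLinearMap.apply ℝ ℝ (bv i : E d)).hasFDerivAt).comp y h1
      rw [h2.fderiv]
      rfl
    have i1 := integrable_B bil_Bs ker_Zk' hC t x
    have i2 := integrable_B bil_Bd ker_Zk hC' t x
    have e4 := congrArg (fun φ : E d →L[ℝ] ℝ => φ (bv i)) e3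
    simp only [Av] at e4
    rw [_root_.smul_apply, ContinuousLinearMap.integral_apply i1,
      ContinuousLinearMap.integral_apply i2] at e4
    have c1 : ∀ z, (Bs (h (x + t • z)) (Zk' z)) (bv i) =
        -(fderiv ℝ w (x + t • z) (bv i) * (ek z * z i)) := by
      intro z
      simp only [Bs, Zk', _root_.smul_apply, innerSL_apply_apply, inner_bv, smul_eq_mul, hh]
      ring
    have c2 : ∀ z, (Bd (fderiv ℝ h (x + t • z)) (Zk z)) (bv i) = D2 w (x + t • z) i * Zk z := by
      intro z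
      simp only [Bd, ContinuousLinearMap.smulRight_apply, smul_eq_mul, hD]
    have j1 := i1.apply_continuousLinearMap (bv i)
    have j2 := i2.apply_continuousLinearMap (bv i)
    simp only [c1, c2] at e4 j1 j2
    refine ⟨j2, by simpa using j1.neg, ?_⟩
    rw [integral_neg, smul_eq_mul] at e4
    rw [← e4]
    field_simp
  unfold Ad Av
  have s1 : ∀ z, fderiv ℝ w (x + t • z) z * ek z =
      ∑ i, fderiv ℝ w (x + t • z) (bv i) * (ek z * z i) := by
    intro z
    rw [← sum_apply_bv (fderiv ℝ w (x + t • z)) z, Finset.sum_mul]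
    apply Finset.sum_congr rfl
    intro i _
    ring
  have s2 : ∀ z, Bs (Δ w (x + t • z)) (Zk z) = ∑ i, D2 w (x + t • z) i * Zk z := by
    intro z
    rw [Bs, smul_eq_mul, laplacian_eq_sum, Finset.sum_mul]
  simp only [s1, s2]
  rw [integral_finsetSum _ (fun i _ => (hi i).2.1), integral_finsetSum _ (fun i _ => (hi i).1),
    Finset.mul_sum]
  exact Finset.sum_congr rfl fun i _ => (hi i).2.2

end ExtStar
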