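import Pool.Agent.Helper340_star.ExKer

/-!
# Derivatives of averages against kernels

Helper file for the existence half of `MP_437bdf_an`.
-/

open MeasureTheory Filter Topology Set Metric

namespace ExtStar

variable {d : ℕ}
variable {F : Type*} [NormedAddCommGroup F] [NormedSpace ℝ F]

/-- kernel side derivative, measurable data -/
theorem hasFDerivAt_Av {q : E d → F} {q' : E d → (E d →L[ℝ] F)} (hq : Ker q) (hq' : Ker q')
    (hd : ∀ z, HasFDerivAt q (q' z) z) {h : E d → ℝ} {C : ℝ} (hh : BM h C) {t : ℝ} (ht : t ≠ 0)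
    (x : E d) : HasFDerivAt (Av Bs q h t) ((-t⁻¹) • Av Bs q' h t x) x := by
  have h1 : Av Bs q h t = fun x => ∫ z, h (t • z) • (q (z - t⁻¹ • x)) := by
    ext x; exact Av_shift _ q h ht x
  have h2 : (-t⁻¹) • Av Bs q' h t x = ∫ z, h (t • z) • ((-t⁻¹) • q' (z - t⁻¹ • x)) := by
    rw [Av_shift _ q' h ht x, ← integral_smul]
    congr 1
    ext1 z
    rw [Bs, smul_comm]
  rw [h1, h2]
  obtain ⟨b, hb, hbq⟩ := hq'.maj
  have hm1 : Measurable (fun z : E d => t • z) := by fun_prop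
  have hm2 : ∀ y : E d, Measurable (fun z : E d => z - t⁻¹ • y) := fun y => by fun_prop
  apply hasFDerivAt_integral_of_dominated_of_fderiv_le
    (F := fun (x : E d) (z : E d) => h (t • z) • (q (z - t⁻¹ • x)))
    (F' := fun (x : E d) (z : E d) => h (t • z) • ((-t⁻¹) • q' (z - t⁻¹ • x)))
    (bound := fun z => C * (‖t⁻¹‖ * b (z - t⁻¹ • x))) (nhds_small x t)
  · refine Eventually.of_forall fun y => ?_
    apply StronglyMeasurable.aestronglyMeasurable
    exact (hh.meas.comp_measurable hm1).smul (hq.cont.stronglyMeasurable.comp_measurable (hm2 y))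
  · have h3 := (integrable_B bil_Bs hq hh t x).comp_sub_right (t⁻¹ • x)
    refine h3.congr (Eventually.of_forall fun z => ?_)
    simp only [Bs]
    rw [smul_sub, smul_inv_smul₀ ht]
    congr 2
    abel
  · apply StronglyMeasurable.aestronglyMeasurable
    have hA : StronglyMeasurable (fun z => (-t⁻¹) • q' (z - t⁻¹ • x)) :=
      (hq'.cont.stronglyMeasurable.comp_measurable (hm2 x)).const_smul (-t⁻¹)
    exact (hh.meas.comp_measurable hm1).smul hA
  · refine Eventually.of_forall fun z y hy => ?_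
    rw [norm_smul, norm_smul, norm_neg]
    have h3 : q' (z - t⁻¹ • y) = q' ((z - t⁻¹ • x) + t⁻¹ • (x - y)) := by
      congr 1
      rw [smul_sub]; abel
    rw [h3]
    exact mul_le_mul (hh.bdd _) (mul_le_mul_of_nonneg_left (hbq _ _ hy) (norm_nonneg _))
      (by positivity) hh.nonneg
  · exact ((hb.comp_sub_right _).const_mul _).const_mul _
  · refine Eventually.of_forall fun z y _ => ?_
    have h3 : HasFDerivAt (fun y : E d => z - t⁻¹ • y) ((-t⁻¹) • ContinuousLinearMap.id ℝ (E d)) y := by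
      have := (((hasFDerivAt_id (𝕜 := ℝ) y).const_smul t⁻¹).const_sub z)
      refine this.congr_fderiv ?_
      ext v
      simp
    have h4 := (hd (z - t⁻¹ • y)).comp y h3
    have h5 := h4.const_smul (h (t • z))
    refine h5.congr_fderiv ?_
    ext v
    simp

/-- **kernel side derivative** of `Tk` -/
theorem hasFDerivAt_Tk {ν : Measure ℝ} (hν : ∀ᵐ t ∂ν, 0 < t) {ω : ℝ → ℝ} (hω : Integrable ω ν)
    (hω1 : Integrable (fun t => t * ω t) ν)
    {q : E d → F} {q' : E d → (E d →L[ℝ] F)} (hq : Ker q) (hq' : Ker q')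
    (hd : ∀ z, HasFDerivAt q (q' z) z) {h : E d → ℝ} {C : ℝ} (hh : BM h C) (x : E d) :
    HasFDerivAt (Tk ν (fun t => t * ω t) Bs q h) (- Tk ν ω Bs q' h x) x := by
  unfold Tk
  rw [← integral_neg]
  have hcongr : (∫ t, -(ω t • Av Bs q' h t x) ∂ν) =
      ∫ t, (t * ω t) • ((-t⁻¹) • Av Bs q' h t x) ∂ν := by
    apply integral_congr_ae
    filter_upwards [hν] with t ht
    rw [smul_smul, ← neg_smul]
    congr 1
    field_simp
  rw [hcongr]
  apply hasFDerivAt_integral_of_dominated_of_fderiv_le (s := univ)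
    (F := fun (x : E d) (t : ℝ) => (t * ω t) • Av Bs q h t x)
    (F' := fun (x : E d) (t : ℝ) => (t * ω t) • ((-t⁻¹) • Av Bs q' h t x))
    (bound := fun t => ‖ω t‖ * (C * ∫ z, ‖q' z‖)) univ_mem
  · exact Eventually.of_forall fun y => aesm_wAv hω1 bil_Bs hq hh y
  · exact integrable_wAv hω1 bil_Bs hq hh x
  · have hA : AEStronglyMeasurable (fun t : ℝ => (-t⁻¹) • Av Bs q' h t x) ν :=
      (measurable_inv.neg).aestronglyMeasurable.smul
        (sm_Av_t bil_Bs hq' hh x).aestronglyMeasurable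
    exact hω1.aestronglyMeasurable.smul hA
  · filter_upwards [hν] with t ht y _
    have : (t * ω t) • ((-t⁻¹) • Av Bs q' h t y) = -(ω t • Av Bs q' h t y) := by
      rw [smul_smul, ← neg_smul]
      congr 1
      field_simp
    rw [this, norm_neg]
    exact norm_wAv_le bil_Bs hq' hh t y
  · exact hω.norm.mul_const _
  · filter_upwards [hν] with t ht y _
    exact (hasFDerivAt_Av hq hq' hd hh ht.ne' y).const_smul _

theorem bm_fderiv {h : E d → ℝ} {C' : ℝ} (hh1 : ContDiff ℝ 1 h) (hh' : ∀ x, ‖fderiv ℝ h x‖ ≤ C') :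
    BM (fderiv ℝ h) C' :=
  ⟨(hh1.continuous_fderiv (by norm_num)).stronglyMeasurable, hh'⟩

/-- function side derivative of `Av` -/
theorem hasFDerivAt_Av' {q : E d → F} (hq : Ker q) {h : E d → ℝ} {C C' : ℝ}
    (hh : BM h C) (hh1 : ContDiff ℝ 1 h) (hh' : ∀ x, ‖fderiv ℝ h x‖ ≤ C') (t : ℝ) (x : E d) :
    HasFDerivAt (Av Bs q h t) (Av Bd q (fderiv ℝ h) t x) x := by
  have hbm := bm_fderiv hh1 hh'
  unfold Av
  apply hasFDerivAt_integral_of_dominated_of_fderiv_le (s := univ)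
    (F := fun (x : E d) (z : E d) => Bs (h (x + t • z)) (q z))
    (F' := fun (x : E d) (z : E d) => Bd (fderiv ℝ h (x + t • z)) (q z))
    (bound := fun z => C' * ‖q z‖) univ_mem
  · exact Eventually.of_forall fun y => (integrable_B bil_Bs hq hh t y).aestronglyMeasurable
  · exact integrable_B bil_Bs hq hh t x
  · exact (integrable_B bil_Bd hq hbm t x).aestronglyMeasurable
  · exact Eventually.of_forall fun z y _ => norm_B_le bil_Bd hbm _ _
  · exact hq.integrable.norm.const_mul _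
  · refine Eventually.of_forall fun z y _ => ?_
    have h1 : HasFDerivAt h (fderiv ℝ h (y + t • z)) (y + t • z) :=
      (hh1.differentiable (by norm_num) _).hasFDerivAt
    have h2 : HasFDerivAt (fun y : E d => y + t • z) (ContinuousLinearMap.id ℝ (E d)) y :=
      (hasFDerivAt_id y).add_const _
    have h3 := (h1.comp y h2).smul_const (q z)
    refine h3.congr_fderiv ?_
    ext v
    simp [Bd]

/-- **function side derivative** of `Tk` -/
theorem hasFDerivAt_Tk' {ν : Measure ℝ} {ω : ℝ → ℝ} (hω : Integrable ω ν)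
    {q : E d → F} (hq : Ker q) {h : E d → ℝ} {C C' : ℝ}
    (hh : BM h C) (hh1 : ContDiff ℝ 1 h) (hh' : ∀ x, ‖fderiv ℝ h x‖ ≤ C') (x : E d) :
    HasFDerivAt (Tk ν ω Bs q h) (Tk ν ω Bd q (fderiv ℝ h) x) x := by
  have hbm := bm_fderiv hh1 hh'
  unfold Tk
  apply hasFDerivAt_integral_of_dominated_of_fderiv_le (s := univ)
    (F := fun (x : E d) (t : ℝ) => ω t • Av Bs q h t x)
    (F' := fun (x : E d) (t : ℝ) => ω t • Av Bd q (fderiv ℝ h) t x)
    (bound := fun t => ‖ω t‖ * (C' * ∫ z, ‖q z‖)) univ_mem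
  · exact Eventually.of_forall fun y => aesm_wAv hω bil_Bs hq hh y
  · exact integrable_wAv hω bil_Bs hq hh x
  · exact aesm_wAv hω bil_Bd hq hbm x
  · exact Eventually.of_forall fun t y _ => norm_wAv_le bil_Bd hq hbm t y
  · exact hω.norm.mul_const _
  · exact Eventually.of_forall fun t y _ => (hasFDerivAt_Av' hq hh hh1 hh' t y).const_smul _

theorem contDiff_two_of {u : E d → F} (u' : E d → (E d →L[ℝ] F))
    (u'' : E d → (E d →L[ℝ] (E d →L[ℝ] F))) (h1 : ∀ x, HasFDerivAt u (u' x) x)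
    (h2 : ∀ x, HasFDerivAt u' (u'' x) x) (h3 : Continuous u'') : ContDiff ℝ 2 u := by
  have h4 : ContDiff ℝ 1 u' := contDiff_one_iff_hasFDerivAt.2 ⟨u'', h3, h2⟩
  have h5 := (contDiff_succ_iff_hasFDerivAt (𝕜 := ℝ) (f := u) (n := 1)).2
    ⟨u', by simpa using h4, h1⟩
  norm_num at h5
  exact h5

/-- **C¹ regularity**, measurable data -/
theorem contDiff_one_Tk {ν : Measure ℝ} (hν : ∀ᵐ t ∂ν, 0 < t) {ω : ℝ → ℝ} (hω : Integrable ω ν)
    (hω1 : Integrable (fun t => t * ω t) ν)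
    {q : E d → F} {q' : E d → (E d →L[ℝ] F)} (hq : Ker q) (hq' : Ker q')
    (hd : ∀ z, HasFDerivAt q (q' z) z) {h : E d → ℝ} {C : ℝ} (hh : BM h C) :
    ContDiff ℝ 1 (Tk ν (fun t => t * ω t) Bs q h) := by
  rw [contDiff_one_iff_hasFDerivAt]
  exact ⟨fun x => - Tk ν ω Bs q' h x, (continuous_Tk hν hω bil_Bs hq' hh).neg,
    fun x => hasFDerivAt_Tk hν hω hω1 hq hq' hd hh x⟩

/-- **C² regularity**, `C¹` data -/
theorem contDiff_two_Tk {ν : Measure ℝ} (hν : ∀ᵐ t ∂ν, 0 < t) {ω : ℝ → ℝ} (hω : Integrable ω ν)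
    (hω1 : Integrable (fun t => t * ω t) ν)
    {q : E d → F} {q' : E d → (E d →L[ℝ] F)} (hq : Ker q) (hq' : Ker q')
    (hd : ∀ z, HasFDerivAt q (q' z) z) {h : E d → ℝ} {C C' : ℝ} (hh : BM h C)
    (hh1 : ContDiff ℝ 1 h) (hh' : ∀ x, ‖fderiv ℝ h x‖ ≤ C') :
    ContDiff ℝ 2 (Tk ν (fun t => t * ω t) Bs q h) := by
  have hbm := bm_fderiv hh1 hh'
  exact contDiff_two_of (fun x => - Tk ν ω Bs q' h x) (fun x => - Tk ν ω Bd q' (fderiv ℝ h) x)
    (fun x => hasFDerivAt_Tk hν hω hω1 hq hq' hd hh x)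
    (fun x => (hasFDerivAt_Tk' hω hq' hh hh1 hh' x).neg)
    (continuous_Tk hν hω bil_Bd hq' hbm).neg

/-- for fixed `t ≠ 0` averages against `C²` kernels are `C²` -/
theorem contDiff_two_Av {q : E d → F} {q' : E d → (E d →L[ℝ] F)}
    {q'' : E d → (E d →L[ℝ] (E d →L[ℝ] F))} (hq : Ker q) (hq' : Ker q') (hq'' : Ker q'')
    (hd : ∀ z, HasFDerivAt q (q' z) z) (hd' : ∀ z, HasFDerivAt q' (q'' z) z)
    {h : E d → ℝ} {C : ℝ} (hh : BM h C) {t : ℝ} (ht : t ≠ 0) :
    ContDiff ℝ 2 (Av Bs q h t) := by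
  apply contDiff_two_of (fun x => (-t⁻¹) • Av Bs q' h t x)
    (fun x => (-t⁻¹) • ((-t⁻¹) • Av Bs q'' h t x))
  · exact fun x => hasFDerivAt_Av hq hq' hd hh ht x
  · intro x
    have := (hasFDerivAt_Av hq' hq'' hd' hh ht x).const_smul (-t⁻¹)
    exact this
  · have := ((continuous_Av bil_Bs hq'' hh ht).const_smul (-t⁻¹)).const_smul (-t⁻¹)
    exact this

end ExtStar
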