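import Pool.Agent.Helper340_star.ExCpt

/-!
# The representation formula and interior regularity

Helper file for the existence half of `MP_437bdf_an`.
-/

open InnerProductSpace Laplacian MeasureTheory Filter Topology Set Metric

namespace ExtStar

variable {d : ℕ}

theorem continuous_laplacian {w : E d → ℝ} (hw : ContDiff ℝ 2 w) : Continuous (Δ w) := by
  have h1 : ContDiff ℝ 1 (fderiv ℝ w) := hw.fderiv_right (by norm_num)
  have h2 : Continuous (fderiv ℝ (fderiv ℝ w)) := h1.continuous_fderiv (by norm_num)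
  have h3 : Δ w = fun x => ∑ i, D2 w x i := by ext1 x; exact laplacian_eq_sum w x
  rw [h3]
  apply continuous_finsetSum
  intro i _
  exact (h2.clm_apply continuous_const).clm_apply continuous_const

theorem hasCompactSupport_laplacian {w : E d → ℝ} (hs : HasCompactSupport w) :
    HasCompactSupport (Δ w) := by
  refine HasCompactSupport.intro' (K := tsupport w) hs (isClosed_tsupport w) ?_
  intro x hx
  have h1 : w =ᶠ[𝓝 x] fun _ => (0:ℝ) := notMem_tsupport_iff_eventuallyEq.1 hx
  have h2 := (laplacian_congr_nhds h1).self_of_nhds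
  rw [h2, laplacian_const]
  rfl

theorem rep_global {w : E d → ℝ} (hw : ContDiff ℝ 2 w) (hs : HasCompactSupport w) (x : E d)
    {ε : ℝ} (hε : 0 < ε) : Rep w (fun y => - Δ w y) x ε := by
  have hw1 : ContDiff ℝ 1 w := hw.of_le (by norm_num)
  obtain ⟨C, hC⟩ := bm_of_cpt hw.continuous hs
  obtain ⟨C', hC'⟩ := bm_of_cpt (hw1.continuous_fderiv (by norm_num)) (hs.fderiv ℝ)
  obtain ⟨C₂, hC₂⟩ := bm_of_cpt (continuous_laplacian hw) (hasCompactSupport_laplacian hs)
  have hd : ∀ t, HasDerivAt (fun t => Av Bs ek w t x) (Ad ek w t x) t := fun t =>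
    hasDerivAt_Av_t ker_ek integrable_norm_ek hC hw1 hC'.bdd t x
  have hmeas : StronglyMeasurable (fun t => Ad ek w t x) := by
    have : (fun t => Ad ek w t x) = deriv (fun t => Av Bs ek w t x) := by
      ext1 t; exact (hd t).deriv.symm
    rw [this]
    exact (measurable_deriv _).stronglyMeasurable
  have hint : IntervalIntegrable (fun t => Ad ek w t x) volume 0 ε := by
    rw [intervalIntegrable_iff_integrableOn_Ioc_of_le hε.le]
    have : IntegrableOn (fun _ : ℝ => C' * ∫ z : E d, ‖z‖ * ‖ek z‖) (Ioc 0 ε) :=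
      integrableOn_const (by simp)
    refine this.mono' hmeas.aestronglyMeasurable (Eventually.of_forall fun t => ?_)
    exact norm_Ad_le integrable_norm_ek hC'.bdd t x
  have hftc := intervalIntegral.integral_eq_sub_of_hasDerivAt (fun t _ => hd t) hint
  rw [intervalIntegral.integral_of_le hε.le] at hftc
  have h0 : Av Bs ek w 0 x = (∫ z : E d, ek z) * w x := by
    simp only [Av, Bs, zero_smul, add_zero, smul_eq_mul]
    rw [integral_const_mul]
    ring
  have h1 : ∫ t in Ioc 0 ε, Ad ek w t x = B1 ε (Δ w) x := by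
    unfold B1 Tk ν1
    apply setIntegral_congr_fun measurableSet_Ioc
    intro t ht
    simp only [mul_one, smul_eq_mul]
    exact Ad_eq hw hs ht.1.ne' x
  have h2 : B1 ε (fun y => - Δ w y) x = - B1 ε (Δ w) x := by
    unfold B1 Tk
    rw [← integral_neg]
    congr 1
    ext1 t
    have : Av Bs Zk (fun y => - Δ w y) t x = - Av Bs Zk (Δ w) t x := by
      unfold Av
      rw [← integral_neg]
      congr 1
      ext1 z
      simp [Bs]
    rw [this, smul_neg]
  unfold Rep
  rw [h2, ← h1, hftc, h0]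
  ring

theorem contDiff_cutoff {n : ℕ∞} {χ u : E d → ℝ} {U : Set (E d)} (hU : IsOpen U)
    (hχ : ContDiff ℝ n χ) (hs : tsupport χ ⊆ U) (hu : ContDiffOn ℝ n u U) :
    ContDiff ℝ n (fun x => χ x * u x) := by
  rw [contDiff_iff_contDiffAt]
  intro y
  by_cases hy : y ∈ U
  · exact hχ.contDiffAt.mul (hu.contDiffAt (hU.mem_nhds hy))
  · have h1 : χ =ᶠ[𝓝 y] fun _ => (0:ℝ) := notMem_tsupport_iff_eventuallyEq.1 fun h => hy (hs h)
    have h2 : (fun x => χ x * u x) =ᶠ[𝓝 y] fun _ => (0:ℝ) := by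
      filter_upwards [h1] with z hz
      rw [hz, zero_mul]
    exact contDiffAt_const.congr_of_eventuallyEq h2

/-- cutoff functions -/
theorem exists_cutoff {U : Set (E d)} (hU : IsOpen U) {x : E d} {ε : ℝ} (hε : 0 < ε)
    (hx : closedBall x ε ⊆ U) : ∃ χ : E d → ℝ, ContDiff ℝ 2 χ ∧ HasCompactSupport χ ∧
      tsupport χ ⊆ U ∧ ∃ ε' > ε, ∀ y ∈ ball x ε', χ y = 1 := by
  obtain ⟨δ, hδ, hδU⟩ := (isCompact_closedBall x ε).exists_cthickening_subset_open hU hx
  rw [cthickening_closedBall hδ.le hε.le] at hδU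
  let φ : ContDiffBump x := ⟨ε + δ / 2, δ + ε, by positivity, by linarith⟩
  refine ⟨φ, φ.contDiff, φ.hasCompactSupport, ?_, ε + δ / 2, by linarith, ?_⟩
  · rw [φ.tsupport_eq]
    exact hδU
  · intro y hy
    exact φ.one_of_mem_closedBall (ball_subset_closedBall hy)

theorem rep_local {u : E d → ℝ} {U : Set (E d)} (hU : IsOpen U) (hu : ContDiffOn ℝ 2 u U)
    {x : E d} {ε : ℝ} (hε : 0 < ε) (hx : closedBall x ε ⊆ U) :
    Rep u (fun y => - Δ u y) x ε := by
  obtain ⟨χ, h1, h2, h3, ε', hε', h4⟩ := exists_cutoff hU hε hx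
  have hw : ContDiff ℝ 2 (fun y => χ y * u y) := contDiff_cutoff hU h1 h3 hu
  have hws : HasCompactSupport (fun y => χ y * u y) := h2.mul_right
  have hrep := rep_global hw hws x hε
  have e1 : ∀ y ∈ closedBall x ε, χ y * u y = u y := by
    intro y hy
    rw [h4 y (closedBall_subset_ball hε' hy), one_mul]
  have e2 : ∀ y ∈ closedBall x ε, - Δ (fun y => χ y * u y) y = - Δ u y := by
    intro y hy
    congr 1
    apply (laplacian_congr_nhds _).self_of_nhds
    filter_upwards [isOpen_ball.mem_nhds (closedBall_subset_ball hε' hy)] with z hz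
    rw [h4 z hz, one_mul]
  unfold Rep at hrep ⊢
  have e3 : (fun y => χ y * u y) x = u x := e1 x (mem_closedBall_self hε.le)
  rw [B1_congr e2, Av_congr bil_Bs van_ek hε.le e1, e3] at hrep
  exact hrep

/-- strict comparison for `B1` -/
theorem B1_lt {a b : E d → ℝ} {Ca Cb : ℝ} (ha : BM a Ca) (hb : BM b Cb) (hac : Continuous a)
    (hbc : Continuous b) {x : E d} (hx : b x < a x) :
    ∃ s₀ > 0, ∀ s, 0 < s → s ≤ s₀ → B1 s b x < B1 s a x := by
  set c := (a x - b x) / 2 with hc
  have hc0 : 0 < c := by simp only [hc]; linarith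
  have hev : ∀ᶠ y in 𝓝 x, c < a y - b y := by
    have hcont : Continuous fun y => a y - b y := hac.sub hbc
    refine (hcont.tendsto x).eventually (lt_mem_nhds ?_)
    simp only [hc]; linarith
  obtain ⟨s₁, hs₁, H⟩ := Metric.eventually_nhds_iff_ball.1 hev
  refine ⟨s₁ / 2, by positivity, fun s hs hs' => ?_⟩
  have hI := integral_Zk_pos (d := d)
  have hAv : ∀ t ∈ Ioc 0 s, Av Bs Zk b t x + c * ∫ z : E d, Zk z ≤ Av Bs Zk a t x := by
    intro t ht
    unfold Av
    rw [← integral_const_mul, ← integral_add (integrable_B bil_Bs ker_Zk hb t x)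
      (ker_Zk.integrable.const_mul _)]
    apply integral_mono ((integrable_B bil_Bs ker_Zk hb t x).add (ker_Zk.integrable.const_mul _))
      (integrable_B bil_Bs ker_Zk ha t x)
    intro z
    simp only [Bs, smul_eq_mul, Pi.add_apply]
    by_cases hz : ‖z‖ ≤ 1
    · have h1 : x + t • z ∈ ball x s₁ := by
        rw [mem_ball, dist_eq_norm, add_sub_cancel_left, norm_smul, Real.norm_of_nonneg ht.1.le]
        have h2 : t * ‖z‖ ≤ t * 1 := by
          apply mul_le_mul_of_nonneg_left hz ht.1.le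
        linarith [ht.2]
      have h2 := H _ h1
      have h3 := Zk_nonneg z
      nlinarith
    · rw [van_Zk z (not_le.1 hz)]
      simp
  have hint : ∀ {h : E d → ℝ} {C : ℝ}, BM h C →
      Integrable (fun t => (t * (fun _ : ℝ => (1:ℝ)) t) • Av Bs Zk h t x) (ν1 s) :=
    fun hh => integrable_wAv (integrable_t s) bil_Bs ker_Zk hh x
  have hle : B1 s b x + (c * ∫ z : E d, Zk z) * ∫ t, t ∂(ν1 s) ≤ B1 s a x := by
    unfold B1 Tk
    have hit : Integrable (fun t : ℝ => t) (ν1 s) := by simpa using integrable_t s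
    rw [← integral_const_mul, ← integral_add (hint hb) (hit.const_mul _)]
    apply integral_mono_ae ((hint hb).add (hit.const_mul _)) (hint ha)
    filter_upwards [ν1_mem s] with t ht
    simp only [mul_one, smul_eq_mul, Pi.add_apply]
    have h1 := hAv t ht
    have h2 := mul_le_mul_of_nonneg_left h1 ht.1.le
    linarith
  have hpos : 0 < ∫ t, t ∂(ν1 s) := by
    have : ∫ t, t ∂(ν1 s) = s ^ 2 / 2 := by
      unfold ν1
      rw [← intervalIntegral.integral_of_le hs.le, integral_id]
      ring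
    rw [this]
    positivity
  have : 0 < (c * ∫ z : E d, Zk z) * ∫ t, t ∂(ν1 s) := by positivity
  linarith

theorem B1_eq_imp {a b : E d → ℝ} {Ca Cb : ℝ} (ha : BM a Ca) (hb : BM b Cb) (hac : Continuous a)
    (hbc : Continuous b) {x : E d} {ε : ℝ} (hε : 0 < ε)
    (h : ∀ s, 0 < s → s ≤ ε → B1 s a x = B1 s b x) : a x = b x := by
  by_contra hne
  rcases lt_or_gt_of_ne hne with hlt | hgt
  · obtain ⟨s₀, hs₀, H⟩ := B1_lt hb ha hbc hac hlt
    have h1 := H (min s₀ ε) (lt_min hs₀ hε) (min_le_left _ _)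
    rw [h _ (lt_min hs₀ hε) (min_le_right _ _)] at h1
    exact lt_irrefl _ h1
  · obtain ⟨s₀, hs₀, H⟩ := B1_lt ha hb hac hbc hgt
    have h1 := H (min s₀ ε) (lt_min hs₀ hε) (min_le_left _ _)
    rw [h _ (lt_min hs₀ hε) (min_le_right _ _)] at h1
    exact lt_irrefl _ h1

/-- the representation formula as an identity of functions -/
theorem rep_eq {u k : E d → ℝ} {x : E d} {ε : ℝ} (h : Rep u k x ε) :
    u x = (∫ z : E d, ek z)⁻¹ * (Av Bs ek u ε x + B1 ε k x) := by
  have hI := integral_ek_pos (d := d)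
  rw [← h]
  field_simp

theorem contDiff_Av_ek {u : E d → ℝ} {C : ℝ} (hu : BM u C) {ε : ℝ} (hε : 0 < ε) :
    ContDiff ℝ 2 (Av Bs ek u ε) :=
  contDiff_two_Av ker_ek ker_ek' ker_ek'' hasFDerivAt_ek hasFDerivAt_ek' hu hε.ne'

/-- **interior regularity** -/
theorem regular {U : Set (E d)} (hU : IsOpen U) {u k : E d → ℝ} {C C₂ : ℝ} (hu : BM u C)
    (hk : BM k C₂) (hrep : ∀ x ε, 0 < ε → closedBall x ε ⊆ U → Rep u k x ε) :
    ContDiffOn ℝ 1 u U ∧ (ContDiffOn ℝ 1 k U → ContDiffOn ℝ 2 u U ∧ ∀ x ∈ U, -Δ u x = k x) := by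
  have hball : ∀ x ∈ U, ∃ ε > 0, closedBall x (2 * ε) ⊆ U := by
    intro x hx
    obtain ⟨ε, hε, h⟩ := Metric.nhds_basis_closedBall.mem_iff.1 (hU.mem_nhds hx)
    refine ⟨ε / 2, by positivity, ?_⟩
    rwa [mul_div_cancel₀ _ (two_ne_zero)]
  have hsub : ∀ x : E d, ∀ ε > 0, ∀ y ∈ ball x ε, closedBall y ε ⊆ closedBall x (2 * ε) := by
    intro x ε hε y hy
    apply closedBall_subset_closedBall'
    have : dist y x < ε := hy
    linarith
  constructor
  · intro x hx
    obtain ⟨ε, hε, hεU⟩ := hball x hx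
    apply ContDiffAt.contDiffWithinAt
    have h1 : ContDiff ℝ 1 (fun y => (∫ z : E d, ek z)⁻¹ * (Av Bs ek u ε y + B1 ε k y)) := by
      apply contDiff_const.mul
      apply ((contDiff_Av_ek hu hε).of_le (by norm_num)).add
      exact contDiff_one_Tk (ν1_pos ε) (integrable_one ε) (integrable_t ε) ker_Zk ker_Zk'
        hasFDerivAt_Zk hk
    refine h1.contDiffAt.congr_of_eventuallyEq ?_
    filter_upwards [ball_mem_nhds x hε] with y hy
    exact rep_eq (hrep y ε hε ((hsub x ε hε y hy).trans hεU))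
  · intro hk1
    have key : ContDiffOn ℝ 2 u U := by
      intro x hx
      obtain ⟨ε, hε, hεU⟩ := hball x hx
      apply ContDiffAt.contDiffWithinAt
      obtain ⟨χ, h1, h2, h3, ε', hε', h4⟩ := exists_cutoff hU (by positivity : 0 < 2 * ε) hεU
      have hkc : ContDiff ℝ 1 (fun y => χ y * k y) :=
        contDiff_cutoff hU (h1.of_le (by norm_num)) h3 hk1
      have hkcs : HasCompactSupport (fun y => χ y * k y) := h2.mul_right
      obtain ⟨C₃, hC₃⟩ := bm_of_cpt hkc.continuous hkcs
      obtain ⟨C₄, hC₄⟩ := bm_of_cpt (hkc.continuous_fderiv (by norm_num)) (hkcs.fderiv ℝ)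
      have h1 : ContDiff ℝ 2 (fun y => (∫ z : E d, ek z)⁻¹ *
          (Av Bs ek u ε y + B1 ε (fun y => χ y * k y) y)) := by
        apply contDiff_const.mul
        apply (contDiff_Av_ek hu hε).add
        exact contDiff_two_Tk (ν1_pos ε) (integrable_one ε) (integrable_t ε) ker_Zk ker_Zk'
          hasFDerivAt_Zk hC₃ hkc hC₄.bdd
      refine h1.contDiffAt.congr_of_eventuallyEq ?_
      filter_upwards [ball_mem_nhds x hε] with y hy
      have hs := hsub x ε hε y hy
      rw [← B1_congr (k₁ := k)]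
      · exact rep_eq (hrep y ε hε (hs.trans hεU))
      · intro z hz
        rw [h4 z (closedBall_subset_ball hε' (hs hz)), one_mul]
    refine ⟨key, ?_⟩
    intro x hx
    obtain ⟨ε, hε, hεU⟩ := hball x hx
    obtain ⟨χ, h1, h2, h3, ε', hε', h4⟩ := exists_cutoff hU (by positivity : 0 < 2 * ε) hεU
    have hw : ContDiff ℝ 2 (fun y => χ y * u y) := contDiff_cutoff hU h1 h3 key
    have hws : HasCompactSupport (fun y => χ y * u y) := h2.mul_right
    have hkc : ContDiff ℝ 1 (fun y => χ y * k y) :=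
      contDiff_cutoff hU (h1.of_le (by norm_num)) h3 hk1
    have hkcs : HasCompactSupport (fun y => χ y * k y) := h2.mul_right
    obtain ⟨C₃, hC₃⟩ := bm_of_cpt hkc.continuous hkcs
    obtain ⟨C₅, hC₅⟩ := bm_of_cpt (continuous_laplacian hw).neg (hasCompactSupport_laplacian hws).neg
    have hx2 : x ∈ ball x ε' := mem_ball_self (by linarith)
    have hm : ∀ s, 0 < s → s ≤ ε → B1 s (fun y => χ y * k y) x =
        B1 s (-Δ (fun y => χ y * u y)) x := by
      intro s hs hsε
      have e0 : closedBall x s ⊆ ball x ε' :=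
        closedBall_subset_ball (by linarith)
      have e1 : ∀ y ∈ closedBall x s, χ y * u y = u y := fun y hy => by
        rw [h4 y (e0 hy), one_mul]
      have e2 : ∀ y ∈ closedBall x s, χ y * k y = k y := fun y hy => by
        rw [h4 y (e0 hy), one_mul]
      have r1 := rep_global hw hws x hs
      have r2 := hrep x s hs ((closedBall_subset_closedBall (by linarith)).trans hεU)
      unfold Rep at r1 r2
      have e3 : (fun y => χ y * u y) x = u x := e1 x (mem_closedBall_self hs.le)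
      rw [Av_congr bil_Bs van_ek hs.le e1, e3, r2] at r1
      rw [B1_congr e2]
      have := add_left_cancel r1
      exact this
    have hfin := B1_eq_imp hC₃ hC₅ hkc.continuous (continuous_laplacian hw).neg hε hm
    simp only [Pi.neg_apply] at hfin
    rw [h4 x hx2, one_mul] at hfin
    rw [hfin]
    congr 1
    apply (laplacian_congr_nhds _).self_of_nhds
    filter_upwards [isOpen_ball.mem_nhds hx2] with z hz
    rw [h4 z hz, one_mul]

/-- at a zero of a nonnegative superharmonic function, the function vanishes nearby -/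
theorem zero_near {u k : E d → ℝ} {C : ℝ} (hu : BM u C) (hu0 : ∀ y, 0 ≤ u y)
    (hk0 : ∀ y, 0 ≤ k y) {x : E d} {ε : ℝ} (hε : 0 < ε) (hrep : Rep u k x ε)
    (hx : u x = 0) {y : E d} (hy : y ∈ ball x ε) (hyc : ContinuousAt u y) : u y = 0 := by
  by_contra hne
  have hpos : 0 < u y := lt_of_le_of_ne (hu0 y) (Ne.symm hne)
  have hB : 0 ≤ B1 ε k x := by
    unfold B1 Tk
    apply integral_nonneg_of_ae
    filter_upwards [ν1_mem ε] with t ht
    have h1 : 0 ≤ Av Bs Zk k t x := integral_nonneg fun z => mul_nonneg (hk0 _) (Zk_nonneg z)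
    have h2 : (0:ℝ) ≤ t * 1 := by linarith [ht.1]
    exact mul_nonneg h2 h1
  unfold Rep at hrep
  rw [hx, mul_zero] at hrep
  have hA : 0 < Av Bs ek u ε x := by
    unfold Av
    have hnn : 0 ≤ fun z => Bs (u (x + ε • z)) (ek z) := fun z =>
      mul_nonneg (hu0 _) (ek_nonneg z)
    rw [integral_pos_iff_support_of_nonneg hnn (integrable_B bil_Bs ker_ek hu ε x)]
    obtain ⟨ρ, hρ, H⟩ := Metric.eventually_nhds_iff_ball.1 (hyc.eventually (lt_mem_nhds hpos))
    set z₀ : E d := ε⁻¹ • (y - x) with hz₀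
    have hz₀1 : ‖z₀‖ < 1 := by
      rw [hz₀, norm_smul, norm_inv, Real.norm_of_nonneg hε.le, inv_mul_lt_iff₀ hε, mul_one,
        ← dist_eq_norm]
      exact hy
    have hyz : x + ε • z₀ = y := by
      rw [hz₀, smul_inv_smul₀ hε.ne']
      abel
    set η := min (ρ / ε) (1 - ‖z₀‖) with hη
    have hη0 : 0 < η := lt_min (by positivity) (by linarith)
    refine lt_of_lt_of_le (measure_ball_pos volume z₀ hη0) (measure_mono ?_)
    intro z hz
    have hz' : ‖z - z₀‖ < η := by rwa [mem_ball, dist_eq_norm] at hz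
    have h1 : ‖z‖ < 1 := by
      have h2 : ‖z‖ ≤ ‖z - z₀‖ + ‖z₀‖ := by
        calc ‖z‖ = ‖(z - z₀) + z₀‖ := by simp
          _ ≤ _ := norm_add_le _ _
      have h3 : η ≤ 1 - ‖z₀‖ := min_le_right _ _
      linarith
    have h4 : x + ε • z ∈ ball y ρ := by
      rw [mem_ball, dist_eq_norm, ← hyz, add_sub_add_left_eq_sub, ← smul_sub, norm_smul,
        Real.norm_of_nonneg hε.le]
      have h5 : η ≤ ρ / ε := min_le_left _ _
      calc ε * ‖z - z₀‖ < ε * η := by gcongr
        _ ≤ ε * (ρ / ε) := by gcongr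
        _ = ρ := by field_simp
    exact (mul_pos (H _ h4) (ek_pos h1)).ne'
  linarith

end ExtStar
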