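import Pool.Agent.Helper340_star.ExIter
import Pool.Agent.Helper340_star.ExRep

/-!
# Penalisation: solutions in a domain as limits of solutions on the whole space

Helper file for the existence half of `MP_437bdf_an`.
-/

open InnerProductSpace Laplacian MeasureTheory Filter Topology Set Metric

namespace ExtStar

variable {d : ℕ} {γ : ℝ} {f : ℝ → ℝ} {Ω : Set (E d)}

/-- a bump function equal to one on a large ball -/
noncomputable def bb (m : ℕ) : ContDiffBump (0 : E d) := ⟨m + 1, m + 2, by positivity, by linarith⟩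

/-- the potentials -/
noncomputable def Wn (V₀ : E d → ℝ) (n : ℕ) (x : E d) : ℝ :=
  ∑ m ∈ Finset.range n, (bb m : E d → ℝ) x * V₀ x

theorem Wn_succ (V₀ : E d → ℝ) (n : ℕ) (x : E d) :
    Wn V₀ (n + 1) x = Wn V₀ n x + (bb n : E d → ℝ) x * V₀ x := by
  unfold Wn
  rw [Finset.sum_range_succ]

theorem pot_of_cpt {W : E d → ℝ} (hc : ContDiff ℝ 1 W) (hs : HasCompactSupport W)
    (h0 : ∀ x, 0 ≤ W x) : ∃ M M', Pot W M M' := by
  obtain ⟨C, hC⟩ := bm_of_cpt hc.continuous hs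
  obtain ⟨K, hK⟩ := hc.lipschitzWith_of_hasCompactSupport hs (by norm_num)
  refine ⟨C, K, hc, h0, fun x => (le_abs_self _).trans (hC.bdd x), fun x y => ?_⟩
  have := hK.dist_le_mul x y
  rwa [Real.dist_eq, dist_eq_norm] at this

theorem Wn_nonneg {V₀ : E d → ℝ} (h0 : ∀ x, 0 ≤ V₀ x) (n : ℕ) (x : E d) : 0 ≤ Wn V₀ n x :=
  Finset.sum_nonneg fun m _ => mul_nonneg (bb m).nonneg (h0 x)

theorem Wn_mono {V₀ : E d → ℝ} (h0 : ∀ x, 0 ≤ V₀ x) (n : ℕ) (x : E d) :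
    Wn V₀ n x ≤ Wn V₀ (n + 1) x := by
  rw [Wn_succ]
  have : 0 ≤ (bb n : E d → ℝ) x * V₀ x := mul_nonneg (bb n).nonneg (h0 x)
  linarith

theorem Wn_contDiff {V₀ : E d → ℝ} (hV : ContDiff ℝ 1 V₀) (n : ℕ) : ContDiff ℝ 1 (Wn V₀ n) := by
  unfold Wn
  exact ContDiff.sum fun m _ => (bb m).contDiff.mul hV

theorem Wn_cpt (V₀ : E d → ℝ) (n : ℕ) : HasCompactSupport (Wn V₀ n) := by
  induction n with
  | zero =>
    have : Wn V₀ 0 = fun _ => 0 := by ext x; simp [Wn]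
    rw [this]
    exact HasCompactSupport.zero
  | succ n ih =>
    have h1 : Wn V₀ (n + 1) = fun x => Wn V₀ n x + (bb n : E d → ℝ) x * V₀ x := by
      ext x; exact Wn_succ V₀ n x
    rw [h1]
    exact ih.add ((bb n).hasCompactSupport.mul_right)

theorem Wn_lower {V₀ : E d → ℝ} (h0 : ∀ x, 0 ≤ V₀ x) (R n : ℕ) {x : E d} (hx : ‖x‖ ≤ R) :
    ((n : ℝ) - R) * V₀ x ≤ Wn V₀ n x := by
  induction n with
  | zero =>
    have h1 := Wn_nonneg h0 0 x
    have h2 : 0 ≤ (R:ℝ) * V₀ x := mul_nonneg (Nat.cast_nonneg R) (h0 x)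
    simp only [Nat.cast_zero, zero_sub, neg_mul]
    linarith
  | succ n ih =>
    rw [Wn_succ]
    by_cases hn : R ≤ n + 1
    · have h1 : (bb n : E d → ℝ) x = 1 := by
        apply (bb n).one_of_mem_closedBall
        rw [mem_closedBall, dist_zero_right]
        have : (R:ℝ) ≤ n + 1 := by exact_mod_cast hn
        exact hx.trans this
      rw [h1]
      push_cast
      linarith
    · have h1 : ((n + 1 : ℕ) : ℝ) - R ≤ 0 := by
        have : ((n + 1 : ℕ) : ℝ) ≤ R := by exact_mod_cast (not_le.1 hn).le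
        linarith
      have h2 := Wn_nonneg h0 (n + 1) x
      rw [Wn_succ] at h2
      have h3 : (((n + 1 : ℕ) : ℝ) - R) * V₀ x ≤ 0 := mul_nonpos_of_nonpos_of_nonneg h1 (h0 x)
      linarith

/-- The penalised solutions: a decreasing sequence. -/
structure PenSeq (f : ℝ → ℝ) (Ω : Set (E d)) (V₀ : E d → ℝ) (U : ℕ → E d → ℝ) : Prop where
  sol : ∀ n, PotSol f (Wn V₀ n) (U n)
  anti : ∀ n x, U (n + 1) x ≤ U n x
  max : ∀ n v, SubSol f (Wn V₀ n) v → ∀ x, v x ≤ U n x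

theorem exists_penSeq (hf : PositiveReaction γ f) {V₀ : E d → ℝ} (hV : ContDiff ℝ 1 V₀)
    (h0 : ∀ x, 0 ≤ V₀ x) : ∃ U, PenSeq f Ω V₀ U := by
  have h1 : ∀ n, ∃ u, PotSol f (Wn V₀ n) u ∧ ∀ v, SubSol f (Wn V₀ n) v → ∀ x, v x ≤ u x := by
    intro n
    obtain ⟨M, M', hP⟩ := pot_of_cpt (Wn_contDiff hV n) (Wn_cpt V₀ n) (Wn_nonneg h0 n)
    exact exists_potSol hf hP
  choose U hU hmax using h1
  refine ⟨U, hU, ?_, hmax⟩
  intro n x
  apply hmax n
  refine ⟨(hU (n + 1)).c2.continuous, fun y => ((hU (n + 1)).mem y).2, fun y hy => ?_⟩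
  refine ⟨(hU (n + 1)).c2.contDiffAt, ?_⟩
  have h2 := (hU (n + 1)).eqn y
  have h3 := Wn_mono h0 n y
  have h4 : Wn V₀ n y * U (n + 1) y ≤ Wn V₀ (n + 1) y * U (n + 1) y :=
    mul_le_mul_of_nonneg_right h3 hy.le
  linarith

theorem f_bdd_abs (hf : PositiveReaction γ f) :
    ∃ F : ℝ, 0 ≤ F ∧ ∀ s ∈ Icc (0:ℝ) 1, |f s| ≤ F := by
  obtain ⟨F, hF, h⟩ := hf.bdd
  refine ⟨F, hF, fun s hs => ?_⟩
  rw [abs_of_nonneg (hf.nonneg hs.1 hs.2)]
  exact h s hs.1 hs.2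

theorem bm_f (hf : PositiveReaction γ f) {F : ℝ} (hF : ∀ s ∈ Icc (0:ℝ) 1, |f s| ≤ F)
    {u : E d → ℝ} (hu : In01 u) : BM (fun x => f (u x)) F := by
  refine ⟨?_, fun x => hF _ (hu.mem x)⟩
  have h1 : StronglyMeasurable (fun x => f (max (u x) 0)) :=
    (Nl_continuous_s hf).comp_stronglyMeasurable hu.meas
  have h2 : (fun x => f (max (u x) 0)) = fun x => f (u x) := by
    ext1 x
    rw [max_eq_left (hu.mem x).1]
  rwa [h2] at h1

theorem bm_01 {u : E d → ℝ} (hu : In01 u) : BM u 1 := by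
  refine ⟨hu.meas, fun x => ?_⟩
  rw [Real.norm_eq_abs, abs_le]
  constructor <;> linarith [(hu.mem x).1, (hu.mem x).2]

/-- The limit of the penalised solutions solves the equation in `Ω`. -/
theorem limit_sol (hf : PositiveReaction γ f) (hΩ : IsOpen Ω) {V₀ : E d → ℝ}
    (hV0 : ∀ x ∈ Ω, V₀ x = 0) {U : ℕ → E d → ℝ} (hU : PenSeq f Ω V₀ U) :
    ∃ u : E d → ℝ, (∀ x, Tendsto (fun n => U n x) atTop (𝓝 (u x))) ∧ In01 u ∧
      (∀ x ε, 0 < ε → closedBall x ε ⊆ Ω → Rep u (fun y => f (u y)) x ε) ∧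
      ContDiffOn ℝ 2 u Ω ∧ ∀ x ∈ Ω, - Δ u x = f (u x) := by
  have hU01 : ∀ n, In01 (U n) := fun n =>
    ⟨(hU.sol n).c2.continuous.stronglyMeasurable, (hU.sol n).mem⟩
  have hlim : ∀ x, ∃ l, Tendsto (fun n => U n x) atTop (𝓝 l) := by
    intro x
    refine ⟨_, tendsto_atTop_ciInf (antitone_nat_of_succ_le fun n => hU.anti n x) ?_⟩
    exact ⟨0, by rintro _ ⟨n, rfl⟩; exact ((hU01 n).mem x).1⟩
  choose u hu using hlim
  have hu01 : In01 u :=
    ⟨stronglyMeasurable_of_tendsto atTop (fun n => (hU01 n).meas) (tendsto_pi_nhds.2 hu),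
      fun x => isClosed_Icc.mem_of_tendsto (hu x) (Eventually.of_forall fun n =>
        (hU01 n).mem x)⟩
  obtain ⟨F, hF0, hF⟩ := f_bdd_abs hf
  have hflim : ∀ y, Tendsto (fun n => f (U n y)) atTop (𝓝 (f (u y))) := by
    intro y
    have h1 := ((Nl_continuous_s hf).tendsto (u y)).comp (hu y)
    have h2 : ((fun s => f (max s 0)) ∘ fun n => U n y) = fun n => f (U n y) := by
      ext1 n
      simp only [Function.comp]
      rw [max_eq_left ((hU01 n).mem y).1]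
    rw [h2, max_eq_left (hu01.mem y).1] at h1
    exact h1
  have hrep : ∀ x ε, 0 < ε → closedBall x ε ⊆ Ω → Rep u (fun y => f (u y)) x ε := by
    intro x ε hε hx
    have h1 : ∀ n, Rep (U n) (fun y => f (U n y)) x ε := by
      intro n
      have h2 := rep_local isOpen_univ (hU.sol n).c2.contDiffOn hε (subset_univ (closedBall x ε))
      unfold Rep at h2 ⊢
      rw [h2]
      congr 1
      apply B1_congr
      intro y hy
      have h3 := (hU.sol n).eqn y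
      have h4 : Wn V₀ n y = 0 := by
        unfold Wn
        rw [hV0 y (hx hy)]
        simp
      rw [h4, zero_mul, add_zero] at h3
      exact h3
    have t1 : Tendsto (fun n => (∫ z : E d, ek z) * U n x) atTop (𝓝 ((∫ z : E d, ek z) * u x)) :=
      (hu x).const_mul _
    have t2 : Tendsto (fun n => Av Bs ek (U n) ε x) atTop (𝓝 (Av Bs ek u ε x)) :=
      tendsto_Av bil_Bs ker_ek (fun n => bm_01 (hU01 n)) ε x (fun z => hu _)
    have t3 : Tendsto (fun n => B1 ε (fun y => f (U n y)) x) atTop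
        (𝓝 (B1 ε (fun y => f (u y)) x)) :=
      tendsto_Tk (integrable_t ε) bil_Bs ker_Zk (fun n => bm_f hf hF (hU01 n)) x
        (Eventually.of_forall fun t z => hflim _)
    have t4 := t2.add t3
    have h5 : (fun n => Av Bs ek (U n) ε x + B1 ε (fun y => f (U n y)) x) =
        fun n => (∫ z : E d, ek z) * U n x := by
      ext1 n
      exact (h1 n).symm
    rw [h5] at t4
    exact tendsto_nhds_unique t1 t4
  obtain ⟨r1, r2⟩ := regular hΩ (bm_01 hu01) (bm_f hf hF hu01) hrep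
  have hk1 : ContDiffOn ℝ 1 (fun y => f (u y)) Ω :=
    hf.contDiffOn.comp r1 (fun x _ => (hu01.mem x).1)
  exact ⟨u, hu, hu01, hrep, r2 hk1⟩

/-- strong maximum principle -/
theorem limit_pos (hf : PositiveReaction γ f) (hΩ : IsOpen Ω) (hconn : IsPreconnected Ω)
    {u : E d → ℝ} (hu : In01 u) (huc : ContinuousOn u Ω)
    (hrep : ∀ x ε, 0 < ε → closedBall x ε ⊆ Ω → Rep u (fun y => f (u y)) x ε)
    {x₀ : E d} (hx₀ : x₀ ∈ Ω) (hpos : 0 < u x₀) : ∀ x ∈ Ω, 0 < u x := by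
  intro x hx
  by_contra hn
  have hx0 : u x = 0 := le_antisymm (not_lt.1 hn) (hu.mem x).1
  have hA : IsOpen {y | y ∈ Ω ∧ 0 < u y} := by
    have := huc.isOpen_inter_preimage hΩ (isOpen_Ioi (a := (0:ℝ)))
    exact this
  have hB : IsOpen {y | y ∈ Ω ∧ u y = 0} := by
    rw [Metric.isOpen_iff]
    rintro y ⟨hy, hy0⟩
    obtain ⟨ε, hε, h⟩ := Metric.nhds_basis_closedBall.mem_iff.1 (hΩ.mem_nhds hy)
    refine ⟨ε, hε, fun z hz => ?_⟩
    have hzΩ := h (ball_subset_closedBall hz)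
    exact ⟨hzΩ, zero_near (bm_01 hu) (fun y => (hu.mem y).1)
      (fun y => hf.nonneg (hu.mem y).1 (hu.mem y).2) hε (hrep y ε hε h) hy0 hz
      (huc.continuousAt (hΩ.mem_nhds hzΩ))⟩
  have hcover : Ω ⊆ {y | y ∈ Ω ∧ 0 < u y} ∪ {y | y ∈ Ω ∧ u y = 0} := by
    intro y hy
    rcases (hu.mem y).1.lt_or_eq with h | h
    · exact Or.inl ⟨hy, h⟩
    · exact Or.inr ⟨hy, h.symm⟩
  obtain ⟨y, hy, h1, h2⟩ := hconn _ _ hA hB hcover ⟨x₀, hx₀, hx₀, hpos⟩ ⟨x, hx, hx, hx0⟩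
  have := h1.2
  rw [h2.2] at this
  exact lt_irrefl _ this

end ExtStar
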