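import Pool.Agent.Helper340_star.Apriori

/-!
# Uniformly smooth boundaries: two-sided balls and the inner ball property

Helper file for `MP_437bdf_an`.
-/

open InnerProductSpace Laplacian Filter Topology Set Metric

namespace ExtStar

variable {d : ℕ} {γ : ℝ} {f : ℝ → ℝ} {Ω : Set (E d)} {u v : E d → ℝ}

/-- Uniform two-sided ball condition. -/
def TwoSided (Ω : Set (E d)) (r : ℝ) : Prop :=
  ∀ b ∈ frontier Ω, ∃ ν : E d, ‖ν‖ = 1 ∧ ball (b + r • ν) r ⊆ Ω ∧ ball (b - r • ν) r ⊆ Ωᶜ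

/-- Taylor estimate for a `C²` function with bounded second derivative. -/
theorem taylor_bound {φ : E d → ℝ} {r K : ℝ} (hr : 0 < r) (hφ : ContDiffOn ℝ 2 φ (ball 0 r))
    (hK : ∀ z ∈ ball (0 : E d) r, ‖iteratedFDeriv ℝ 2 φ z‖ ≤ K) {w : E d}
    (hw : w ∈ ball (0 : E d) r) : |φ w - φ 0 - fderiv ℝ φ 0 w| ≤ K * ‖w‖ ^ 2 := by
  have hopen : IsOpen (ball (0 : E d) r) := isOpen_ball
  have hcd : ∀ z ∈ ball (0 : E d) r, ContDiffAt ℝ 2 φ z := fun z hz =>
    hφ.contDiffAt (hopen.mem_nhds hz)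
  have h0 : (0 : E d) ∈ ball (0 : E d) r := mem_ball_self hr
  have h1 : ∀ z ∈ ball (0 : E d) r, ‖fderiv ℝ φ z - fderiv ℝ φ 0‖ ≤ K * ‖z - 0‖ := by
    intro z hz
    apply (convex_ball (0 : E d) r).norm_image_sub_le_of_norm_fderiv_le (𝕜 := ℝ)
      (f := fderiv ℝ φ) _ _ h0 hz
    · intro x hx
      exact ((hcd x hx).fderiv_right (m := 1) (by norm_num)).differentiableAt (by norm_num)
    · intro x hx
      have h2 : ‖fderiv ℝ (fderiv ℝ φ) x‖ = ‖iteratedFDeriv ℝ 2 φ x‖ := by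
        rw [← norm_iteratedFDeriv_one, norm_iteratedFDeriv_fderiv]
      rw [h2]
      exact hK x hx
  have hK0 : 0 ≤ K := (norm_nonneg _).trans (hK 0 h0)
  have hsub : closedBall (0 : E d) ‖w‖ ⊆ ball (0 : E d) r := by
    rw [mem_ball, dist_zero_right] at hw
    exact closedBall_subset_ball hw
  have h3 := (convex_closedBall (0 : E d) ‖w‖).norm_image_sub_le_of_norm_hasFDerivWithin_le
    (𝕜 := ℝ) (f := fun z => φ z - fderiv ℝ φ 0 z) (f' := fun z => fderiv ℝ φ z - fderiv ℝ φ 0)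
    (C := K * ‖w‖) (x := 0) (y := w)
    (fun z hz => by
      have h4 : HasFDerivAt φ (fderiv ℝ φ z) z :=
        ((hcd z (hsub hz)).differentiableAt (by norm_num)).hasFDerivAt
      exact (h4.sub (fderiv ℝ φ 0).hasFDerivAt).hasFDerivWithinAt)
    (fun z hz => by
      refine (h1 z (hsub hz)).trans ?_
      rw [mem_closedBall, dist_zero_right] at hz
      rw [sub_zero]
      gcongr)
    (mem_closedBall_self (norm_nonneg _))
    (by rw [mem_closedBall, dist_zero_right])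
  simp only [map_zero, sub_zero] at h3
  rw [Real.norm_eq_abs] at h3
  have h5 : φ w - φ 0 - fderiv ℝ φ 0 w = φ w - fderiv ℝ φ 0 w - φ 0 := by ring
  rw [h5]
  calc _ ≤ K * ‖w‖ * ‖w‖ := h3
    _ = K * ‖w‖ ^ 2 := by ring

theorem twoSided_of_uniform (hΩ : IsOpen Ω) (h : UniformC2Boundary γ Ω) :
    ∃ ρ : ℝ, 0 < ρ ∧ TwoSided Ω ρ := by
  obtain ⟨r, K, hr, H⟩ := h
  set ρ := min (r / 2) (1 / (2 * (|K| + 1))) with hρ
  have hρpos : 0 < ρ := by positivity
  have hρr : 2 * ρ ≤ r := by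
    have : ρ ≤ r / 2 := min_le_left _ _
    linarith
  refine ⟨ρ, hρpos, ?_⟩
  intro b hb
  obtain ⟨e, φ, he, hφ, hbd, _, hgraph⟩ := H b hb
  have h0r : (0 : E d) ∈ ball (0 : E d) r := mem_ball_self hr
  have hK0 : 0 ≤ K := (norm_nonneg _).trans (hbd 0 h0r).1
  have hρK : 2 * ρ * K ≤ 1 := by
    have h1 : ρ ≤ 1 / (2 * (|K| + 1)) := min_le_right _ _
    rw [le_div_iff₀ (by positivity)] at h1
    rw [abs_of_nonneg hK0] at h1
    nlinarith
  have hbΩ : b ∉ Ω := by
    rw [hΩ.frontier_eq] at hb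
    exact hb.2
  have hbcl : b ∈ closure Ω := frontier_subset_closure hb
  set P : E d → E d := fun ζ => ζ - inner ℝ e ζ • e with hP
  have hPc : Continuous P := by fun_prop
  have hP0 : P 0 = 0 := by simp [hP]
  have hee : inner ℝ e e = (1:ℝ) := by rw [real_inner_self_eq_norm_sq, he]; norm_num
  have hPnorm : ∀ ζ, ‖P ζ‖ ≤ ‖ζ‖ := by
    intro ζ
    have h1 : ‖P ζ‖ ^ 2 = ‖ζ‖ ^ 2 - (inner ℝ e ζ) ^ 2 := by
      simp only [hP]
      rw [@norm_sub_sq_real, inner_smul_right, norm_smul, he, Real.norm_eq_abs, mul_one, sq_abs,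
        real_inner_comm]
      ring
    have h2 : ‖P ζ‖ ^ 2 ≤ ‖ζ‖ ^ 2 := by
      rw [h1]; linarith [sq_nonneg (inner ℝ e ζ)]
    exact (abs_le_of_sq_le_sq' h2 (norm_nonneg _)).2
  have hφc : ContinuousAt φ 0 := (hφ.contDiffAt (isOpen_ball.mem_nhds h0r)).continuousAt
  -- `φ 0 = 0`
  have hφ0 : φ 0 = 0 := by
    have h1 := hgraph b (mem_ball_self hr)
    simp only [sub_self, inner_zero_right, zero_smul] at h1
    have h2 : 0 ≤ φ 0 := by
      by_contra hcon
      push Not at hcon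
      exact hbΩ (h1.2 hcon)
    by_contra hne
    have h3 : 0 < φ 0 := lt_of_le_of_ne h2 (Ne.symm hne)
    -- near `b`, no points of `Ω`
    have hc1 : ContinuousAt (fun z : E d => φ (P (z - b)) - inner ℝ e (z - b)) b := by
      apply ContinuousAt.sub
      · apply ContinuousAt.comp (g := φ)
        · simp only [sub_self, hP0]
          exact hφc
        · fun_prop
      · fun_prop
    have h4 : ∀ᶠ z in 𝓝 b, 0 < φ (P (z - b)) - inner ℝ e (z - b) := by
      apply hc1.eventually (lt_mem_nhds _)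
      simpa [hP0] using h3
    have h5 : ∀ᶠ z in 𝓝 b, z ∈ ball b r := isOpen_ball.mem_nhds (mem_ball_self hr)
    have h6 : ∃ᶠ z in 𝓝 b, z ∈ Ω := mem_closure_iff_frequently.1 hbcl
    obtain ⟨z, hz1, hz2, hz3⟩ := (h6.and_eventually (h4.and h5)).exists
    have h7 := (hgraph z hz3).1 hz1
    linarith
  set A := fderiv ℝ φ 0 with hA
  have htaylor : ∀ ζ, ‖ζ‖ < r → |φ (P ζ) - A (P ζ)| ≤ K * ‖ζ‖ ^ 2 := by
    intro ζ hζ
    have h1 : P ζ ∈ ball (0 : E d) r := by
      rw [mem_ball, dist_zero_right]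
      exact lt_of_le_of_lt (hPnorm ζ) hζ
    have h2 := taylor_bound hr hφ (fun z hz => (hbd z hz).2) h1
    rw [hφ0, sub_zero] at h2
    refine h2.trans ?_
    have := hPnorm ζ
    gcongr
  -- normal vector
  set a : E d := (InnerProductSpace.toDual ℝ (E d)).symm A with ha
  have hAa : ∀ z, A z = inner ℝ a z := by
    intro z
    simp [ha]
  set m : E d := (1 + inner ℝ a e) • e - a with hm
  have hml : ∀ ζ, inner ℝ m ζ = inner ℝ e ζ - A (P ζ) := by
    intro ζ
    simp only [hm, hP]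
    rw [hAa, inner_sub_left, inner_smul_left, inner_sub_right, inner_smul_right]
    simp
    ring
  have hm1 : 1 ≤ ‖m‖ := by
    have h1 : inner ℝ m e = (1:ℝ) := by
      rw [hml]
      have : P e = 0 := by
        simp only [hP, hee, one_smul, sub_self]
      rw [this, map_zero, hee, sub_zero]
    have h2 := real_inner_le_norm m e
    rw [h1, he, mul_one] at h2
    exact h2
  have hmpos : 0 < ‖m‖ := by linarith
  set ν : E d := ‖m‖⁻¹ • m with hν
  have hνn : ‖ν‖ = 1 := by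
    rw [hν, norm_smul, norm_inv, norm_norm]
    field_simp
  have hmν : m = ‖m‖ • ν := by
    rw [hν, smul_smul, mul_inv_cancel₀ hmpos.ne', one_smul]
  refine ⟨ν, hνn, ?_, ?_⟩
  · intro z hz
    rw [mem_ball, dist_eq_norm] at hz
    set ζ := z - b with hζ
    have h1 : z - (b + ρ • ν) = ζ - ρ • ν := by rw [hζ]; abel
    rw [h1] at hz
    have h2 : ‖ζ‖ ^ 2 < 2 * ρ * inner ℝ ζ ν := by
      have h3 : ‖ζ - ρ • ν‖ ^ 2 < ρ ^ 2 := by
        apply pow_lt_pow_left₀ hz (norm_nonneg _) (by norm_num)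
      rw [@norm_sub_sq_real, inner_smul_right, norm_smul, hνn, Real.norm_eq_abs, mul_one,
        sq_abs] at h3
      linarith
    have hζr : ‖ζ‖ < r := by
      have h3 : ‖ζ‖ ≤ ‖ζ - ρ • ν‖ + ‖ρ • ν‖ := by
        calc ‖ζ‖ = ‖(ζ - ρ • ν) + ρ • ν‖ := by rw [sub_add_cancel]
          _ ≤ _ := norm_add_le _ _
      rw [norm_smul, hνn, Real.norm_eq_abs, abs_of_pos hρpos, mul_one] at h3
      linarith
    have hζν : 0 < inner ℝ ζ ν := by
      have h3 : 0 ≤ ‖ζ‖ ^ 2 := sq_nonneg _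
      have h4 : 0 < 2 * ρ * inner ℝ ζ ν := by linarith
      exact (pos_iff_pos_of_mul_pos h4).1 (by linarith)
    have h5 : K * ‖ζ‖ ^ 2 < inner ℝ m ζ := by
      have h6 : inner ℝ m ζ = ‖m‖ * inner ℝ ζ ν := by
        conv_lhs => rw [hmν]
        rw [inner_smul_left, real_inner_comm]
        simp
      rw [h6]
      have h7 : inner ℝ ζ ν ≤ ‖m‖ * inner ℝ ζ ν := le_mul_of_one_le_left hζν.le hm1
      have h8 : K * ‖ζ‖ ^ 2 ≤ K * (2 * ρ * inner ℝ ζ ν) := by gcongr
      by_cases hζ0 : K = 0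
      · rw [hζ0, zero_mul]
        linarith
      · have hKpos : 0 < K := lt_of_le_of_ne hK0 (Ne.symm hζ0)
        have h9 : K * ‖ζ‖ ^ 2 < K * (2 * ρ * inner ℝ ζ ν) := mul_lt_mul_of_pos_left h2 hKpos
        have h10 : K * (2 * ρ * inner ℝ ζ ν) = (2 * ρ * K) * inner ℝ ζ ν := by ring
        have h11 : (2 * ρ * K) * inner ℝ ζ ν ≤ 1 * inner ℝ ζ ν := by gcongr
        linarith
    have hzb : z ∈ ball b r := by rw [mem_ball, dist_eq_norm]; exact hζr
    rw [hgraph z hzb]
    have h12 := htaylor ζ hζr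
    rw [abs_le] at h12
    rw [hml] at h5
    have h13 : (z - b) - inner ℝ e (z - b) • e = P ζ := rfl
    rw [h13]
    linarith [h12.2]
  · intro z hz
    rw [mem_ball, dist_eq_norm] at hz
    set ζ := z - b with hζ
    have h1 : z - (b - ρ • ν) = ζ + ρ • ν := by rw [hζ]; abel
    rw [h1] at hz
    have h2 : ‖ζ‖ ^ 2 < 2 * ρ * (-inner ℝ ζ ν) := by
      have h3 : ‖ζ + ρ • ν‖ ^ 2 < ρ ^ 2 := by
        apply pow_lt_pow_left₀ hz (norm_nonneg _) (by norm_num)
      rw [@norm_add_sq_real, inner_smul_right, norm_smul, hνn, Real.norm_eq_abs, mul_one,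
        sq_abs] at h3
      linarith
    have hζr : ‖ζ‖ < r := by
      have h3 : ‖ζ‖ ≤ ‖ζ + ρ • ν‖ + ‖ρ • ν‖ := by
        calc ‖ζ‖ = ‖(ζ + ρ • ν) - ρ • ν‖ := by rw [add_sub_cancel_right]
          _ ≤ _ := norm_sub_le _ _
      rw [norm_smul, hνn, Real.norm_eq_abs, abs_of_pos hρpos, mul_one] at h3
      linarith
    have hζν : 0 < -inner ℝ ζ ν := by
      have h3 : 0 ≤ ‖ζ‖ ^ 2 := sq_nonneg _
      have h4 : 0 < 2 * ρ * (-inner ℝ ζ ν) := by linarith
      exact (pos_iff_pos_of_mul_pos h4).1 (by linarith)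
    have h5 : K * ‖ζ‖ ^ 2 < -inner ℝ m ζ := by
      have h6 : -inner ℝ m ζ = ‖m‖ * (-inner ℝ ζ ν) := by
        conv_lhs => rw [hmν]
        rw [inner_smul_left, real_inner_comm]
        simp
      rw [h6]
      have h7 : -inner ℝ ζ ν ≤ ‖m‖ * (-inner ℝ ζ ν) := le_mul_of_one_le_left hζν.le hm1
      by_cases hζ0 : K = 0
      · rw [hζ0, zero_mul]
        linarith
      · have hKpos : 0 < K := lt_of_le_of_ne hK0 (Ne.symm hζ0)
        have h9 : K * ‖ζ‖ ^ 2 < K * (2 * ρ * (-inner ℝ ζ ν)) := mul_lt_mul_of_pos_left h2 hKpos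
        have h10 : K * (2 * ρ * (-inner ℝ ζ ν)) = (2 * ρ * K) * (-inner ℝ ζ ν) := by ring
        have h11 : (2 * ρ * K) * (-inner ℝ ζ ν) ≤ 1 * (-inner ℝ ζ ν) := by gcongr
        linarith
    have hzb : z ∈ ball b r := by rw [mem_ball, dist_eq_norm]; exact hζr
    rw [mem_compl_iff, hgraph z hzb, not_lt]
    have h12 := htaylor ζ hζr
    rw [abs_le] at h12
    rw [hml] at h5
    have h13 : (z - b) - inner ℝ e (z - b) • e = P ζ := rfl
    rw [h13]
    linarith [h12.1]

/-- The inner ball property with linear bound for solutions. -/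
theorem innerProp_of_twoSided (hf : PositiveReaction γ f) (hΩ : IsOpen Ω) (hne : Ωᶜ.Nonempty)
    (hv : IsSol f Ω v) {r : ℝ} (hr : 0 < r) (hTB : TwoSided Ω r) :
    ∃ C : ℝ, 0 < C ∧ InnerProp Ω v r C := by
  obtain ⟨C₁, hC₁, hbar⟩ := ext_barrier d hf hr
  refine ⟨C₁ + 1 / r, by positivity, ?_⟩
  intro y hy
  have hclosed : IsClosed Ωᶜ := hΩ.isClosed_compl
  obtain ⟨b, hbc, hbd⟩ := hclosed.exists_infDist_eq_dist hne y
  set D := dist y b with hD
  have hDpos : 0 < D := by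
    rw [hD, dist_pos]
    rintro rfl
    exact hbc hy
  have hball : ball y D ⊆ Ω := by
    intro z hz
    by_contra hzn
    have h1 : infDist y Ωᶜ ≤ dist y z := infDist_le_dist_of_mem hzn
    rw [mem_ball, dist_comm] at hz
    linarith
  have hv1 : v y ≤ 1 := hv.le_one hf hΩ hy
  by_cases hcase : r ≤ D
  · refine ⟨y, (ball_subset_ball hcase).trans hball, by simpa using hr, ?_⟩
    rw [sub_self, norm_zero, sub_zero]
    have h1 : (C₁ + 1 / r) * r = C₁ * r + 1 := by field_simp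
    rw [h1]
    have : 0 ≤ C₁ * r := by positivity
    linarith
  · push Not at hcase
    have hbcl : b ∈ closure Ω := by
      have h1 : b ∈ closedBall y D := by rw [mem_closedBall, dist_comm]
      rw [← closure_ball y hDpos.ne'] at h1
      exact closure_mono hball h1
    have hbfr : b ∈ frontier Ω := by
      rw [hΩ.frontier_eq]; exact ⟨hbcl, hbc⟩
    obtain ⟨ν, hν, hin, hout⟩ := hTB b hbfr
    have hDn : ‖y - b‖ = D := by rw [hD, dist_eq_norm]
    -- disjoint balls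
    have hdisj : Disjoint (ball y D) (ball (b - r • ν) r) := by
      rw [Set.disjoint_left]
      intro z hz1 hz2
      exact hout hz2 (hball hz1)
    rw [disjoint_ball_ball_iff hDpos hr, dist_eq_norm] at hdisj
    have h1 : y - (b - r • ν) = (y - b) + r • ν := by abel
    rw [h1] at hdisj
    have hinner : D ≤ inner ℝ (y - b) ν := by
      have h2 : (D + r) ^ 2 ≤ ‖(y - b) + r • ν‖ ^ 2 :=
        pow_le_pow_left₀ (by positivity) hdisj 2
      rw [@norm_add_sq_real, inner_smul_right, norm_smul, hν, Real.norm_eq_abs, mul_one, sq_abs,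
        hDn] at h2
      have h3 : 2 * r * D ≤ 2 * r * inner ℝ (y - b) ν := by linarith
      exact le_of_mul_le_mul_left h3 (by positivity)
    have hyb : y - b = D • ν := by
      have h2 : ‖(y - b) - D • ν‖ ^ 2 ≤ 0 := by
        rw [@norm_sub_sq_real, inner_smul_right, norm_smul, hν, Real.norm_eq_abs, mul_one, sq_abs,
          hDn]
        have h3 : D * D ≤ D * inner ℝ (y - b) ν := by gcongr
        linarith
      have h3 : ‖(y - b) - D • ν‖ = 0 := by
        have := sq_nonneg ‖(y - b) - D • ν‖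
        have h4 : ‖(y - b) - D • ν‖ ^ 2 = 0 := le_antisymm h2 this
        exact pow_eq_zero_iff (by norm_num) |>.1 h4
      exact sub_eq_zero.1 (norm_eq_zero.1 h3)
    have hyp : ‖y - (b + r • ν)‖ = r - D := by
      have h2 : y - (b + r • ν) = (D - r) • ν := by
        have : y - (b + r • ν) = (y - b) - r • ν := by abel
        rw [this, hyb, sub_smul]
      rw [h2, norm_smul, hν, Real.norm_eq_abs, mul_one, abs_of_neg (by linarith)]
      ring
    refine ⟨b + r • ν, hin, by rw [hyp]; linarith, ?_⟩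
    rw [hyp]
    have h3 : ‖y - (b - r • ν)‖ = D + r := by
      rw [h1, hyb, ← add_smul, norm_smul, hν, Real.norm_eq_abs, mul_one,
        abs_of_pos (by positivity)]
    have h4 := hbar Ω v hΩ hv (b - r • ν) hout y hy (by rw [h3]; linarith)
    rw [h3] at h4
    have h5 : (C₁ + 1 / r) * (r - (r - D)) = C₁ * D + 1 / r * D := by ring
    rw [h5]
    have h6 : C₁ * (D + r - r) = C₁ * D := by ring
    have h7 : 0 ≤ 1 / r * D := by positivity
    linarith

end ExtStar
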