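import Pool.Agent.Helper340_star.ExBdry
import Pool.Agent.Helper340_star.Geometry

/-!
# Existence of positive bounded solutions on exterior-star domains

Helper file for `MP_437bdf_an`.
-/

open InnerProductSpace Laplacian MeasureTheory Filter Topology Set Metric

namespace ExtStar

variable {d : ℕ} {γ : ℝ} {f : ℝ → ℝ} {Ω : Set (E d)}

theorem sub_alg {μ R q D : ℝ} (hμ : 0 < μ) (hq : 0 < q)
    (hRμ : (6 * D + 24) ^ 2 ≤ 96 * μ * R ^ 2) :
    -(24 * q * (R ^ 2 - q) - 6 * D * q ^ 2) ≤ μ * q ^ 3 := by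
  have h1 : (6 * D + 24) * q ≤ μ * q ^ 2 + 24 * R ^ 2 := by
    have e : 4 * μ * (μ * q ^ 2 + 24 * R ^ 2) - 4 * μ * ((6 * D + 24) * q) =
        (2 * μ * q - (6 * D + 24)) ^ 2 + (96 * μ * R ^ 2 - (6 * D + 24) ^ 2) := by ring
    have h2 : 0 ≤ (2 * μ * q - (6 * D + 24)) ^ 2 := sq_nonneg _
    have h3 : 4 * μ * ((6 * D + 24) * q) ≤ 4 * μ * (μ * q ^ 2 + 24 * R ^ 2) := by linarith
    exact le_of_mul_le_mul_left h3 (by positivity)
  have h4 := mul_le_mul_of_nonneg_left h1 hq.le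
  have e2 : μ * q ^ 3 + (24 * q * (R ^ 2 - q) - 6 * D * q ^ 2) =
      q * (μ * q ^ 2 + 24 * R ^ 2) - q * ((6 * D + 24) * q) := by ring
  linarith

theorem sub_radius (d : ℕ) {μ : ℝ} (hμ : 0 < μ) : ∃ R : ℝ, 0 < R ∧
    (6 * (d:ℝ) + 24) ^ 2 ≤ 96 * μ * R ^ 2 := by
  have hd : (0:ℝ) ≤ d := Nat.cast_nonneg d
  refine ⟨(6 * d + 24) / μ + (6 * (d:ℝ) + 24), by positivity, ?_⟩
  set R := (6 * d + 24) / μ + (6 * (d:ℝ) + 24) with hR
  have hR0 : 0 < R := by positivity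
  have h1 : (6 * (d:ℝ) + 24) / μ ≤ R := by simp only [hR]; linarith
  have h2 : (6 * (d:ℝ) + 24) ≤ R := by
    simp only [hR]
    have : 0 ≤ (6 * (d:ℝ) + 24) / μ := by positivity
    linarith
  have h3 : (6 * (d:ℝ) + 24) ≤ R * μ := by rwa [div_le_iff₀ hμ] at h1
  have h4 : (6 * (d:ℝ) + 24) * (6 * (d:ℝ) + 24) ≤ (R * μ) * R := by
    apply mul_le_mul h3 h2 (by positivity) (by positivity)
  have h5 : 0 ≤ μ * R ^ 2 := by positivity
  have h6 : (6 * (d:ℝ) + 24) ^ 2 = (6 * (d:ℝ) + 24) * (6 * (d:ℝ) + 24) := by ring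
  have h7 : (R * μ) * R = μ * R ^ 2 := by ring
  rw [h6]
  linarith

/-- A compactly supported subsolution. -/
theorem exists_sub (d : ℕ) (hf : PositiveReaction γ f) : ∃ R s₀ : ℝ, 0 < R ∧ 0 < s₀ ∧
    ∀ (W : E d → ℝ) (x₀ : E d), (∀ x ∈ ball x₀ R, W x = 0) →
      ∃ φ : E d → ℝ, SubSol f W φ ∧ φ x₀ = s₀ := by
  obtain ⟨μ, s₀, hμ, hs₀, hs₁, hlin⟩ := hf.linear_near_zero
  obtain ⟨R, hR0, hRμ⟩ := sub_radius d hμ
  refine ⟨R, s₀, hR0, hs₀, fun W x₀ hW => ?_⟩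
  set τ := s₀ / (R ^ 2) ^ 3 with hτ
  have hτ0 : 0 < τ := by positivity
  set φ : E d → ℝ := fun x => τ * (max (R ^ 2 - ‖x - x₀‖ ^ 2) 0) ^ 3 with hφ
  have hφc : Continuous φ := by fun_prop
  have hφle : ∀ x, φ x ≤ s₀ := by
    intro x
    have h1 : max (R ^ 2 - ‖x - x₀‖ ^ 2) 0 ≤ R ^ 2 := by
      apply max_le
      · have : 0 ≤ ‖x - x₀‖ ^ 2 := by positivity
        linarith
      · positivity
    calc φ x ≤ τ * (R ^ 2) ^ 3 := by
          simp only [hφ]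
          gcongr
      _ = s₀ := by simp only [hτ]; field_simp
  have hφ0 : φ x₀ = s₀ := by
    have h1 : max (R ^ 2 - ‖x₀ - x₀‖ ^ 2) 0 = R ^ 2 := by
      rw [sub_self, norm_zero]
      have : 0 ≤ R ^ 2 := by positivity
      rw [max_eq_left] <;> simp [this]
    simp only [hφ]
    rw [h1]
    simp only [hτ]
    field_simp
  refine ⟨φ, ⟨hφc, fun x => (hφle x).trans hs₁.le, ?_⟩, hφ0⟩
  intro x hx
  -- `x` is in the ball
  have hq : 0 < R ^ 2 - ‖x - x₀‖ ^ 2 := by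
    by_contra hn
    push Not at hn
    have : φ x = 0 := by
      simp only [hφ]
      rw [max_eq_right hn]
      simp
    linarith
  have hxR : ‖x - x₀‖ < R := by
    by_contra hn
    push Not at hn
    have : R ^ 2 ≤ ‖x - x₀‖ ^ 2 := pow_le_pow_left₀ hR0.le hn 2
    linarith
  set ψ : E d → ℝ := fun y => τ * (R ^ 2 - ‖y - x₀‖ ^ 2) ^ 3 with hψ
  have hψφ : φ =ᶠ[𝓝 x] ψ := by
    have hc : Continuous fun y : E d => R ^ 2 - ‖y - x₀‖ ^ 2 := by fun_prop
    filter_upwards [(hc.tendsto x).eventually (lt_mem_nhds hq)] with y hy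
    simp only [hφ, hψ]
    rw [max_eq_left hy.le]
  have hψs : ContDiff ℝ 2 ψ := by
    have h1 : ContDiff ℝ 2 (fun y : E d => ‖y - x₀‖ ^ 2) :=
      (contDiff_norm_sq ℝ).comp (contDiff_id.sub contDiff_const)
    exact contDiff_const.mul ((contDiff_const.sub h1).pow 3)
  have hφs : ContDiffAt ℝ 2 φ x := hψs.contDiffAt.congr_of_eventuallyEq hψφ
  refine ⟨hφs, ?_⟩
  have hWx : W x = 0 := hW x (by rwa [mem_ball, dist_eq_norm])
  rw [hWx, zero_mul, add_zero]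
  set q := R ^ 2 - ‖x - x₀‖ ^ 2 with hqdef
  have hφx : φ x = τ * q ^ 3 := by
    simp only [hφ]
    rw [← hqdef, max_eq_left hq.le]
  have hjet : ∀ i, Jet (fun t => ψ (x + t • bv i))
      (τ * (3 * q ^ 2 * (0 - 2 * (x i - x₀ i))))
      (τ * (6 * q * (0 - 2 * (x i - x₀ i)) ^ 2 + 3 * q ^ 2 * (0 - 2))) := by
    intro i
    have h1 : Jet (fun t => R ^ 2 - ‖x + t • bv i - x₀‖ ^ 2) (0 - 2 * (x i - x₀ i)) (0 - 2) :=
      (Jet.const (R ^ 2)).sub (jet_normSq x x₀ i)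
    have h2 := h1.comp (F := fun s => s ^ 3) (F' := fun s => 3 * s ^ 2) (F'' := 6 * q) ?_ ?_
    · have h3 := h2.const_mul τ
      simp only [zero_smul, add_zero] at h3
      exact h3
    · refine Eventually.of_forall fun s => ?_
      simpa using hasDerivAt_pow 3 s
    · simp only [zero_smul, add_zero]
      have h4 := (hasDerivAt_pow 2 (R ^ 2 - ‖x - x₀‖ ^ 2)).const_mul 3
      refine h4.congr_deriv ?_
      rw [← hqdef]
      norm_num
      ring
  have hlap := lap_ge_of_localMin (u := φ) (g := ψ) hφs hjet (by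
    have : (fun y => φ y - ψ y) =ᶠ[𝓝 x] fun _ => 0 := by
      filter_upwards [hψφ] with y hy
      rw [hy, sub_self]
    have h0 : φ x - ψ x = 0 := this.self_of_nhds
    filter_upwards [this] with y hy
    rw [hy, h0])
  have hsum : ∑ i : Fin d, (τ * (6 * q * (0 - 2 * (x i - x₀ i)) ^ 2 + 3 * q ^ 2 * (0 - 2))) =
      τ * (24 * q * ‖x - x₀‖ ^ 2 - 6 * d * q ^ 2) := by
    calc _ = ∑ i : Fin d, ((24 * τ * q) * (x i - x₀ i) ^ 2 + (-(6 * τ * q ^ 2))) :=
          Finset.sum_congr rfl (fun i _ => by ring)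
      _ = _ := by rw [sum_affine]; ring
  rw [hsum] at hlap
  have hf1 := hlin (φ x) hx (hφle x)
  have hs : ‖x - x₀‖ ^ 2 = R ^ 2 - q := by simp only [hqdef]; ring
  rw [hs] at hlap
  have hmain : -(24 * q * (R ^ 2 - q) - 6 * d * q ^ 2) ≤ μ * q ^ 3 := sub_alg hμ hq hRμ
  have h5 : -(τ * (24 * q * (R ^ 2 - q) - 6 * d * q ^ 2)) ≤ μ * (τ * q ^ 3) := by
    have h6 := mul_le_mul_of_nonneg_left hmain hτ0.le
    have h7 : τ * -(24 * q * (R ^ 2 - q) - 6 * d * q ^ 2) =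
        -(τ * (24 * q * (R ^ 2 - q) - 6 * d * q ^ 2)) := by ring
    have h8 : τ * (μ * q ^ 3) = μ * (τ * q ^ 3) := by ring
    rw [h7, h8] at h6
    exact h6
  rw [hφx] at hf1 ⊢
  linarith

/-- Existence, assuming exterior balls at boundary points and a large ball inside. -/
theorem exists_sol_of (hf : PositiveReaction γ f) (hΩ : IsOpen Ω) (hconn : IsPreconnected Ω)
    (hext : ∀ b ∈ frontier Ω, ∃ (p : E d) (r : ℝ), 0 < r ∧ ‖b - p‖ = r ∧ ball p r ⊆ Ωᶜ)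
    (hbig : ∀ R : ℝ, 0 < R → ∃ x₀ : E d, ball x₀ R ⊆ Ω) : ∃ u, IsSol f Ω u := by
  obtain ⟨V₀, hV₀s, hV₀c, hV₀r⟩ := (isClosed_closure (s := Ω)).isOpen_compl.exists_contDiff_support_eq
    (n := 1)
  have hV₀n : ∀ x, 0 ≤ V₀ x := fun x => (hV₀r (mem_range_self x)).1
  have hV₀z : ∀ x ∈ Ω, V₀ x = 0 := by
    intro x hx
    by_contra hn
    have : x ∈ Function.support V₀ := hn
    rw [hV₀s] at this
    exact this (subset_closure hx)
  have hV₀p : ∀ x ∈ (closure Ω)ᶜ, 0 < V₀ x := by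
    intro x hx
    rw [← hV₀s] at hx
    exact lt_of_le_of_ne (hV₀n x) (Ne.symm hx)
  obtain ⟨U, hU⟩ := exists_penSeq (Ω := Ω) hf hV₀c hV₀n
  obtain ⟨w, hw, hw01, hrep, hwc, hweq⟩ := limit_sol hf hΩ hV₀z hU
  -- positivity
  obtain ⟨R, s₀, hR, hs₀, hsub⟩ := exists_sub d hf
  obtain ⟨x₀, hx₀⟩ := hbig R hR
  have hwpos : ∀ x ∈ Ω, 0 < w x := by
    apply limit_pos hf hΩ hconn hw01 hwc.continuousOn hrep (hx₀ (mem_ball_self hR))
    have h1 : ∀ n, s₀ ≤ U n x₀ := by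
      intro n
      obtain ⟨φ, hφ, hφ0⟩ := hsub (Wn V₀ n) x₀ (fun x hx => by
        unfold Wn
        rw [hV₀z x (hx₀ hx)]
        simp)
      rw [← hφ0]
      exact hU.max n φ hφ x₀
    exact lt_of_lt_of_le hs₀ (ge_of_tendsto (hw x₀) (Eventually.of_forall h1))
  have hwU : ∀ n x, w x ≤ U n x := fun n x =>
    (antitone_nat_of_succ_le fun n => hU.anti n x).le_of_tendsto (hw x) n
  classical
  set u : E d → ℝ := fun x => if x ∈ Ω then w x else 0 with hu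
  have huw : ∀ x ∈ Ω, u x = w x := fun x hx => by simp only [hu]; rw [if_pos hx]
  have hu0 : ∀ x, x ∉ Ω → u x = 0 := fun x hx => by simp only [hu]; rw [if_neg hx]
  have hevw : ∀ x ∈ Ω, u =ᶠ[𝓝 x] w := fun x hx => by
    filter_upwards [hΩ.mem_nhds hx] with y hy using huw y hy
  refine ⟨u, ?_, ?_, ?_, ?_, ?_, ?_⟩
  · exact hwc.congr huw
  · intro x hx
    by_cases hxΩ : x ∈ Ω
    · apply ContinuousAt.continuousWithinAt
      exact (hwc.continuousOn.continuousAt (hΩ.mem_nhds hxΩ)).congr (hevw x hxΩ).symm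
    · have hfr : x ∈ frontier Ω := by rw [hΩ.frontier_eq]; exact ⟨hx, hxΩ⟩
      obtain ⟨p, r, hr, hpr, hball⟩ := hext x hfr
      have hV : ∀ y ∈ ball p r, 0 < V₀ y := by
        intro y hy
        apply hV₀p
        rw [← interior_compl]
        exact interior_maximal hball isOpen_ball hy
      apply ContinuousAt.continuousWithinAt
      rw [ContinuousAt, hu0 x hxΩ, Metric.tendsto_nhds]
      intro δ hδ
      obtain ⟨n, hn⟩ := bdry_small hf hV₀c.continuous hV₀n hU hr hV hpr hδ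
      have hUc := ((hU.sol n).c2.continuous.tendsto x).eventually (gt_mem_nhds hn)
      filter_upwards [hUc] with y hy
      rw [Real.dist_eq, sub_zero]
      by_cases hyΩ : y ∈ Ω
      · rw [huw y hyΩ, abs_of_nonneg (hw01.mem y).1]
        exact (hwU n y).trans_lt hy
      · rw [hu0 y hyΩ, abs_zero]
        exact hδ
  · intro x hx
    rw [huw x hx]
    exact hwpos x hx
  · exact ⟨1, fun x hx => by rw [huw x hx]; exact (hw01.mem x).2⟩
  · intro x hx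
    rw [hΩ.frontier_eq] at hx
    exact hu0 x hx.2
  · intro x hx
    rw [(laplacian_congr_nhds (hevw x hx)).self_of_nhds, huw x hx]
    exact hweq x hx

/-- Exterior-star sets contain large balls. -/
theorem big_ball {Ω : Set (E d)} (hΩ : IsOpen Ω) (hne : Ω.Nonempty) {c : E d}
    (hc : StarConvex ℝ c Ωᶜ) {R : ℝ} : ∃ x₀ : E d, ball x₀ R ⊆ Ω := by
  obtain ⟨x, hx⟩ := hne
  obtain ⟨ε, hε, h⟩ := Metric.isOpen_iff.1 hΩ x hx
  set l := max 1 (R / ε) with hl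
  have hl1 : 1 ≤ l := le_max_left _ _
  have hl0 : 0 < l := by linarith
  have hlR : R ≤ l * ε := by
    have : R / ε ≤ l := le_max_right _ _
    rwa [div_le_iff₀ hε] at this
  refine ⟨c + l • (x - c), fun y hy => ?_⟩
  by_contra hn
  have hy' : y ∈ Ωᶜ := hn
  have h2 := hc hy' (a := 1 - l⁻¹) (b := l⁻¹) (by
    have : l⁻¹ ≤ 1 := inv_le_one_of_one_le₀ hl1
    linarith) (inv_nonneg.2 hl0.le) (by ring)
  apply h2
  apply h
  rw [mem_ball, dist_eq_norm] at hy ⊢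
  have h3 : (1 - l⁻¹) • c + l⁻¹ • y - x = l⁻¹ • (y - (c + l • (x - c))) := by
    rw [smul_sub, smul_add, smul_smul, inv_mul_cancel₀ hl0.ne', one_smul, sub_smul, one_smul]
    abel
  rw [h3, norm_smul, norm_inv, Real.norm_of_nonneg hl0.le, inv_mul_lt_iff₀ hl0]
  linarith

/-- **Existence on exterior-star domains.** -/
theorem existence (hf : PositiveReaction γ f) (hΩ : IsOpen Ω) (hconn : IsConnected Ω)
    (hbd : UniformC2Boundary γ Ω) (hstar : ∃ c, StarConvex ℝ c Ωᶜ) : ∃ u, IsSol f Ω u := by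
  obtain ⟨c, hc⟩ := hstar
  obtain ⟨ρ, hρ, hTB⟩ := twoSided_of_uniform hΩ hbd
  apply exists_sol_of hf hΩ hconn.isPreconnected
  · intro b hb
    obtain ⟨ν, hν, _, h2⟩ := hTB b hb
    refine ⟨b - ρ • ν, ρ, hρ, ?_, h2⟩
    rw [sub_sub_cancel, norm_smul, hν, mul_one, Real.norm_of_nonneg hρ.le]
  · intro R _
    exact big_ball hΩ hconn.nonempty hc

end ExtStar
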