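import Pool.Agent.Helper340_star.ExMax

/-!
# The semilinear problem with a potential on the whole space: monotone iteration

Helper file for the existence half of `MP_437bdf_an`.
-/

open InnerProductSpace Laplacian MeasureTheory Filter Topology Set Metric

namespace ExtStar

variable {d : ℕ} {γ : ℝ} {f : ℝ → ℝ}

theorem PositiveReaction.lip (hf : PositiveReaction γ f) :
    ∃ K : ℝ, 0 ≤ K ∧ ∀ s ∈ Icc (0:ℝ) 1, ∀ t ∈ Icc (0:ℝ) 1, |f s - f t| ≤ K * |s - t| := by
  have h1 : ContDiffOn ℝ 1 f (Icc 0 1) := hf.contDiffOn.mono fun x hx => hx.1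
  obtain ⟨K, hK⟩ := h1.exists_lipschitzOnWith (by norm_num) (convex_Icc 0 1) isCompact_Icc
  refine ⟨K, K.2, fun s hs t ht => ?_⟩
  have := hK.dist_le_mul s hs t ht
  rwa [Real.dist_eq, Real.dist_eq] at this

/-- potentials: bounded, nonnegative, `C¹`, Lipschitz -/
structure Pot (W : E d → ℝ) (M M' : ℝ) : Prop where
  c1 : ContDiff ℝ 1 W
  nonneg : ∀ x, 0 ≤ W x
  le : ∀ x, W x ≤ M
  lip : ∀ x y, |W x - W y| ≤ M' * ‖x - y‖

/-- the nonlinear right hand side -/
def Nl (f : ℝ → ℝ) (L : ℝ) (W : E d → ℝ) (u : E d → ℝ) (x : E d) : ℝ :=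
  (L - W x) * u x + f (u x)

/-- values in `[0,1]`, measurable -/
structure In01 (u : E d → ℝ) : Prop where
  meas : StronglyMeasurable u
  mem : ∀ x, u x ∈ Icc (0:ℝ) 1

theorem Nl_mono {L M M' K : ℝ} {W : E d → ℝ} (hW : Pot W M M')
    (hK : ∀ s ∈ Icc (0:ℝ) 1, ∀ t ∈ Icc (0:ℝ) 1, |f s - f t| ≤ K * |s - t|) (hL : M + K ≤ L)
    {u v : E d → ℝ} {x : E d} (hu : u x ∈ Icc (0:ℝ) 1) (hv : v x ∈ Icc (0:ℝ) 1)
    (h : u x ≤ v x) : Nl f L W u x ≤ Nl f L W v x := by
  unfold Nl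
  have h1 := hK _ hu _ hv
  rw [abs_of_nonpos (by linarith : u x - v x ≤ 0)] at h1
  have h2 := (abs_le.1 h1).2
  have h3 := hW.le x
  nlinarith

theorem Nl_continuous_s (hf : PositiveReaction γ f) : Continuous (fun s => f (max s 0)) :=
  hf.continuousOn.comp_continuous (by fun_prop) (fun s => mem_Ici.2 (le_max_right s 0))

theorem Nl_bm (hf : PositiveReaction γ f) {L M M' K : ℝ} {W : E d → ℝ} (hW : Pot W M M')
    (hK : ∀ s ∈ Icc (0:ℝ) 1, ∀ t ∈ Icc (0:ℝ) 1, |f s - f t| ≤ K * |s - t|) (hL : M + K ≤ L)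
    {u : E d → ℝ} (hu : In01 u) :
    BM (Nl f L W u) L ∧ ∀ x, 0 ≤ Nl f L W u x ∧ Nl f L W u x ≤ L := by
  have hb : ∀ x, 0 ≤ Nl f L W u x ∧ Nl f L W u x ≤ L := by
    intro x
    have h0 : Nl f L W (fun _ => 0) x = 0 := by simp [Nl, hf.zero]
    have h1 : Nl f L W (fun _ => 1) x = L - W x := by simp [Nl, hf.one]
    have h2 := Nl_mono (u := fun _ => 0) (v := u) hW hK hL (x := x) ⟨le_rfl, zero_le_one⟩
      (hu.mem x) (hu.mem x).1
    have h3 := Nl_mono (u := u) (v := fun _ => 1) hW hK hL (x := x) (hu.mem x)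
      ⟨zero_le_one, le_rfl⟩ (hu.mem x).2
    have h4 := hW.nonneg x
    rw [h0] at h2
    rw [h1] at h3
    exact ⟨h2, by linarith⟩
  refine ⟨⟨?_, fun x => ?_⟩, hb⟩
  · have h1 : StronglyMeasurable (fun x => f (max (u x) 0)) :=
      (Nl_continuous_s hf).comp_stronglyMeasurable hu.meas
    have h2 : (fun x => f (max (u x) 0)) = fun x => f (u x) := by
      ext1 x
      rw [max_eq_left (hu.mem x).1]
    rw [h2] at h1
    have h3 : StronglyMeasurable (fun x => L - W x) :=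
      (continuous_const.sub hW.c1.continuous).stronglyMeasurable
    exact (h3.mul hu.meas).add h1
  · rw [Real.norm_eq_abs, abs_le]
    constructor <;> linarith [(hb x).1, (hb x).2]

/-- nonlinear right hand side of a `C¹` function with bounded gradient -/
theorem Nl_C1 (hf : PositiveReaction γ f) {L M M' K C : ℝ} {W : E d → ℝ} (hW : Pot W M M')
    (hK0 : 0 ≤ K)
    (hK : ∀ s ∈ Icc (0:ℝ) 1, ∀ t ∈ Icc (0:ℝ) 1, |f s - f t| ≤ K * |s - t|) (hL : M + K ≤ L)
    {u : E d → ℝ} (hu : In01 u) (hu1 : ContDiff ℝ 1 u) (hu' : ∀ x, ‖fderiv ℝ u x‖ ≤ C) :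
    ContDiff ℝ 1 (Nl f L W u) ∧ ∃ C' : ℝ, ∀ x, ‖fderiv ℝ (Nl f L W u) x‖ ≤ C' := by
  have h1 : ContDiff ℝ 1 (f ∘ u) := hf.contDiffOn.comp_contDiff hu1 (fun x => (hu.mem x).1)
  refine ⟨((contDiff_const.sub hW.c1).mul hu1).add h1, ?_⟩
  have hC : 0 ≤ C := le_trans (norm_nonneg _) (hu' 0)
  have hM : 0 ≤ M := le_trans (hW.nonneg 0) (hW.le 0)
  have hL0 : 0 ≤ L := by linarith
  have hulip : ∀ x y, |u x - u y| ≤ C * ‖x - y‖ := by
    intro x y
    have := (convex_univ (𝕜 := ℝ) (E := E d)).norm_image_sub_le_of_norm_fderiv_le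
      (f := u) (C := C) (fun z _ => hu1.differentiable (by norm_num) z) (fun z _ => hu' z)
      (mem_univ y) (mem_univ x)
    rwa [Real.norm_eq_abs] at this
  have hM' : 0 ≤ |M'| := abs_nonneg _
  refine ⟨L * C + |M'| + K * C, fun x => ?_⟩
  apply norm_fderiv_le_of_lip' ℝ (by positivity)
  refine Eventually.of_forall fun y => ?_
  have h2 : Nl f L W u y - Nl f L W u x =
      (L - W y) * (u y - u x) - (W y - W x) * u x + (f (u y) - f (u x)) := by
    unfold Nl; ring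
  rw [h2]
  have e1 : |(L - W y) * (u y - u x)| ≤ L * (C * ‖y - x‖) := by
    rw [abs_mul]
    apply mul_le_mul _ (hulip y x) (abs_nonneg _) hL0
    rw [abs_le]
    constructor <;> linarith [hW.nonneg y, hW.le y]
  have e2 : |(W y - W x) * u x| ≤ |M'| * ‖y - x‖ := by
    rw [abs_mul]
    calc |W y - W x| * |u x| ≤ (M' * ‖y - x‖) * 1 := by
          apply mul_le_mul (hW.lip y x) _ (abs_nonneg _)
          · exact le_trans (abs_nonneg _) (hW.lip y x)
          · rw [abs_le]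
            constructor <;> linarith [(hu.mem x).1, (hu.mem x).2]
      _ = M' * ‖y - x‖ := by ring
      _ ≤ _ := by gcongr; exact le_abs_self _
  have e3 : |f (u y) - f (u x)| ≤ K * (C * ‖y - x‖) :=
    (hK _ (hu.mem y) _ (hu.mem x)).trans (mul_le_mul_of_nonneg_left (hulip y x) hK0)
  rw [Real.norm_eq_abs]
  calc |(L - W y) * (u y - u x) - (W y - W x) * u x + (f (u y) - f (u x))|
      ≤ |(L - W y) * (u y - u x) - (W y - W x) * u x| + |f (u y) - f (u x)| := abs_add_le _ _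
    _ ≤ |(L - W y) * (u y - u x)| + |(W y - W x) * u x| + |f (u y) - f (u x)| := by
      gcongr
      exact abs_sub _ _
    _ ≤ L * (C * ‖y - x‖) + |M'| * ‖y - x‖ + K * (C * ‖y - x‖) := by linarith
    _ = _ := by ring

/-- the iteration -/
noncomputable def it (f : ℝ → ℝ) (L : ℝ) (W : E d → ℝ) : ℕ → E d → ℝ
  | 0 => fun _ => 1
  | n + 1 => Rs L (Nl f L W (it f L W n))

/-- A subsolution: continuous, at most one, and a classical subsolution where positive. -/
structure SubSol (f : ℝ → ℝ) (W : E d → ℝ) (v : E d → ℝ) : Prop where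
  cont : Continuous v
  le_one : ∀ x, v x ≤ 1
  sub : ∀ x, 0 < v x → ContDiffAt ℝ 2 v x ∧ -Δ v x + W x * v x ≤ f (v x)

/-- Solutions with potential. -/
structure PotSol (f : ℝ → ℝ) (W : E d → ℝ) (u : E d → ℝ) : Prop where
  c2 : ContDiff ℝ 2 u
  mem : ∀ x, u x ∈ Icc (0:ℝ) 1
  eqn : ∀ x, -Δ u x + W x * u x = f (u x)

theorem exists_potSol (hf : PositiveReaction γ f) {W : E d → ℝ} {M M' : ℝ} (hW : Pot W M M') :
    ∃ u, PotSol f W u ∧ ∀ v, SubSol f W v → ∀ x, v x ≤ u x := by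
  obtain ⟨K, hK0, hK⟩ := hf.lip
  have hM : 0 ≤ M := le_trans (hW.nonneg 0) (hW.le 0)
  set L := M + K + 1 with hL
  have hL0 : 0 < L := by positivity
  have hLK : M + K ≤ L := by linarith
  obtain ⟨G, hG⟩ := Rs_C1 (d := d) hL0 L
  set U := it f L W with hU
  -- one step
  have hstep : ∀ u : E d → ℝ, In01 u → In01 (Rs L (Nl f L W u)) ∧
      ContDiff ℝ 1 (Rs L (Nl f L W u)) ∧ ∀ x, ‖fderiv ℝ (Rs L (Nl f L W u)) x‖ ≤ G := by
    intro u hu
    obtain ⟨hb1, hb2⟩ := Nl_bm hf hW hK hLK hu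
    obtain ⟨h1, h2⟩ := hG _ hb1
    refine ⟨⟨h1.continuous.stronglyMeasurable, fun x => ⟨?_, ?_⟩⟩, h1, h2⟩
    · have := Rs_mono hL0 (h₁ := fun _ => (0:ℝ)) (C := L)
        ⟨stronglyMeasurable_const, fun _ => by simpa using hL0.le⟩ hb1 (fun y => (hb2 y).1) x
      rw [Rs_const hL0] at this
      simpa using this
    · have := Rs_mono hL0 (h₂ := fun _ => L) (C := L) hb1
        ⟨stronglyMeasurable_const, fun _ => by rw [Real.norm_of_nonneg hL0.le]⟩
        (fun y => (hb2 y).2) x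
      rw [Rs_const hL0, div_self hL0.ne'] at this
      exact this
  have hgood : ∀ n, In01 (U n) ∧ ContDiff ℝ 1 (U n) ∧ ∀ x, ‖fderiv ℝ (U n) x‖ ≤ max G 0 := by
    intro n
    induction n with
    | zero =>
      refine ⟨⟨stronglyMeasurable_const, fun x => ⟨zero_le_one, le_rfl⟩⟩, contDiff_const, fun x => ?_⟩
      have : fderiv ℝ (U 0) x = 0 := by
        show fderiv ℝ (fun _ : E d => (1:ℝ)) x = 0
        simp
      rw [this]
      simp
    | succ n ih =>
      obtain ⟨h1, h2, h3⟩ := hstep (U n) ih.1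
      exact ⟨h1, h2, fun x => (h3 x).trans (le_max_left _ _)⟩
  have hclass : ∀ n, ContDiff ℝ 2 (U (n + 1)) ∧
      ∀ x, -Δ (U (n + 1)) x + L * U (n + 1) x = Nl f L W (U n) x := by
    intro n
    obtain ⟨h1, h2, h3⟩ := hgood n
    obtain ⟨h4, C', h5⟩ := Nl_C1 hf hW hK0 hK hLK h1 h2 h3
    exact Rs_eqn hL0 (Nl_bm hf hW hK hLK h1).1 h4 h5
  have hanti : ∀ n x, U (n + 1) x ≤ U n x := by
    intro n
    induction n with
    | zero => exact fun x => ((hgood 1).1.mem x).2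
    | succ n ih =>
      intro x
      exact Rs_mono hL0 (Nl_bm hf hW hK hLK (hgood (n + 1)).1).1 (Nl_bm hf hW hK hLK (hgood n).1).1
        (fun y => Nl_mono hW hK hLK ((hgood (n + 1)).1.mem y) ((hgood n).1.mem y) (ih y)) x
  have hlim : ∀ x, ∃ l, Tendsto (fun n => U n x) atTop (𝓝 l) := by
    intro x
    refine ⟨_, tendsto_atTop_ciInf (antitone_nat_of_succ_le fun n => hanti n x) ?_⟩
    exact ⟨0, by rintro _ ⟨n, rfl⟩; exact ((hgood n).1.mem x).1⟩
  choose u hu using hlim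
  have hu01 : In01 u :=
    ⟨stronglyMeasurable_of_tendsto atTop (fun n => (hgood n).1.meas) (tendsto_pi_nhds.2 hu),
      fun x => isClosed_Icc.mem_of_tendsto (hu x) (Eventually.of_forall fun n =>
        (hgood n).1.mem x)⟩
  have hNlim : ∀ y, Tendsto (fun n => Nl f L W (U n) y) atTop (𝓝 (Nl f L W u y)) := by
    intro y
    unfold Nl
    apply ((hu y).const_mul _).add
    have h1 := ((Nl_continuous_s hf).tendsto (u y)).comp (hu y)
    have h2 : ((fun s => f (max s 0)) ∘ fun n => U n y) = fun n => f (U n y) := by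
      ext1 n
      simp only [Function.comp]
      rw [max_eq_left ((hgood n).1.mem y).1]
    rw [h2, max_eq_left (hu01.mem y).1] at h1
    exact h1
  have hfix : u = Rs L (Nl f L W u) := by
    ext1 x
    have h1 : Tendsto (fun n => U (n + 1) x) atTop (𝓝 (u x)) :=
      (hu x).comp (tendsto_add_atTop_nat 1)
    have h2 : Tendsto (fun n => U (n + 1) x) atTop (𝓝 (Rs L (Nl f L W u) x)) :=
      Rs_tendsto hL0 (fun n => (Nl_bm hf hW hK hLK (hgood n).1).1) hNlim x
    exact tendsto_nhds_unique h1 h2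
  have hu1 : ContDiff ℝ 1 u ∧ ∀ x, ‖fderiv ℝ u x‖ ≤ G := by
    have := (hstep u hu01).2
    rwa [← hfix] at this
  obtain ⟨h4, C', h5⟩ := Nl_C1 hf hW hK0 hK hLK hu01 hu1.1 hu1.2
  have hcl := Rs_eqn hL0 (Nl_bm hf hW hK hLK hu01).1 h4 h5
  rw [← hfix] at hcl
  refine ⟨u, ⟨hcl.1, hu01.mem, fun x => ?_⟩, ?_⟩
  · have := hcl.2 x
    unfold Nl at this
    linarith
  · intro v hv x
    have hvn : ∀ n x, v x ≤ U n x := by
      intro n
      induction n with
      | zero => exact hv.le_one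
      | succ n ih =>
        apply max_principle (S := 1) hL0 hv.cont (hclass n).1.continuous
        · intro y
          linarith [hv.le_one y, ((hgood (n+1)).1.mem y).1]
        · intro y hy
          have hvy : 0 < v y := lt_of_le_of_lt ((hgood (n+1)).1.mem y).1 hy
          obtain ⟨h1, h2⟩ := hv.sub y hvy
          refine ⟨h1, (hclass n).1.contDiffAt, ?_⟩
          rw [(hclass n).2 y]
          have h3 := Nl_mono (u := v) (v := U n) hW hK hLK (x := y) ⟨hvy.le, hv.le_one y⟩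
            ((hgood n).1.mem y) (ih y)
          refine le_trans ?_ h3
          unfold Nl
          linarith
    exact ge_of_tendsto (hu x) (Eventually.of_forall fun n => hvn n x)

end ExtStar
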