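import Pool.Agent.Helper340_star.Calc

/-!
# Averages against integrable kernels

Helper file for the existence half of `MP_437bdf_an`.  For a kernel `q` and a bounded measurable
`h` we study `Av B q h t x = ∫ B (h (x + t z)) (q z) dz` and its weighted `t`-integrals
`Tk ν ω B q h x = ∫ ω t • Av B q h t x dν(t)`.
-/

open MeasureTheory Filter Topology Set Metric

namespace ExtStar

section generic

variable {d : ℕ}
variable {V : Type*} [NormedAddCommGroup V]
variable {F : Type*} [NormedAddCommGroup F]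
variable {G : Type*} [NormedAddCommGroup G] [NormedSpace ℝ G]

/-- continuous kernels with an integrable majorant uniform for small translations -/
structure Ker (q : E d → F) : Prop where
  cont : Continuous q
  maj : ∃ b : E d → ℝ, Integrable b ∧ ∀ z a, ‖a‖ ≤ 1 → ‖q (z + a)‖ ≤ b z

theorem Ker.integrable {q : E d → F} (hq : Ker q) : Integrable q := by
  obtain ⟨b, hb, h⟩ := hq.maj
  refine hb.mono' hq.cont.aestronglyMeasurable (Eventually.of_forall fun z => ?_)
  simpa using h z 0 (by simp)

/-- bounded measurable functions -/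
structure BM (h : E d → V) (C : ℝ) : Prop where
  meas : StronglyMeasurable h
  bdd : ∀ x, ‖h x‖ ≤ C

/-- products of norm at most one -/
structure Bil (B : V → F → G) : Prop where
  cont : Continuous (fun p : V × F => B p.1 p.2)
  bd : ∀ v w, ‖B v w‖ ≤ ‖v‖ * ‖w‖

/-- averages against a kernel -/
noncomputable def Av (B : V → F → G) (q : E d → F) (h : E d → V) (t : ℝ) (x : E d) : G :=
  ∫ z, B (h (x + t • z)) (q z)

theorem Av_shift (B : V → F → G) (q : E d → F) (h : E d → V) {t : ℝ} (ht : t ≠ 0)
    (x : E d) : Av B q h t x = ∫ z, B (h (t • z)) (q (z - t⁻¹ • x)) := by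
  have h1 := integral_add_right_eq_self (μ := (volume : Measure (E d)))
    (fun z => B (h (t • z)) (q (z - t⁻¹ • x))) (t⁻¹ • x)
  rw [← h1]
  unfold Av
  congr 1
  ext z
  rw [add_sub_cancel_right, smul_add, smul_inv_smul₀ ht, add_comm]

theorem BM.nonneg {h : E d → V} {C : ℝ} (hh : BM h C) : 0 ≤ C :=
  le_trans (norm_nonneg _) (hh.bdd 0)

theorem norm_B_le {B : V → F → G} (hB : Bil B) {h : E d → V} {C : ℝ} (hh : BM h C) (y : E d)
    (w : F) : ‖B (h y) w‖ ≤ C * ‖w‖ :=
  (hB.bd _ _).trans (mul_le_mul_of_nonneg_right (hh.bdd y) (norm_nonneg _))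

theorem sm_B {B : V → F → G} (hB : Bil B) {α : Type*} [MeasurableSpace α] {a : α → V} {b : α → F}
    (ha : StronglyMeasurable a) (hb : StronglyMeasurable b) :
    StronglyMeasurable (fun z => B (a z) (b z)) :=
  hB.cont.comp_stronglyMeasurable (ha.prodMk hb)

theorem integrable_B {B : V → F → G} (hB : Bil B) {q : E d → F} {h : E d → V} {C : ℝ} (hq : Ker q)
    (hh : BM h C) (t : ℝ) (x : E d) : Integrable (fun z => B (h (x + t • z)) (q z)) := by
  refine (hq.integrable.norm.const_mul C).mono' ?_ (Eventually.of_forall fun z => ?_)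
  · apply StronglyMeasurable.aestronglyMeasurable
    apply sm_B hB
    · exact hh.meas.comp_measurable (by fun_prop)
    · exact hq.cont.stronglyMeasurable
  · exact norm_B_le hB hh _ _

theorem norm_Av_le {B : V → F → G} (hB : Bil B) {q : E d → F} {h : E d → V} {C : ℝ} (hq : Ker q)
    (hh : BM h C) (t : ℝ) (x : E d) : ‖Av B q h t x‖ ≤ C * ∫ z, ‖q z‖ := by
  unfold Av
  rw [← integral_const_mul]
  exact norm_integral_le_of_norm_le (hq.integrable.norm.const_mul C)
    (Eventually.of_forall fun z => norm_B_le hB hh _ _)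

/-- measurability in `t` -/
theorem sm_Av_t {B : V → F → G} (hB : Bil B) {q : E d → F} {h : E d → V} {C : ℝ} (hq : Ker q)
    (hh : BM h C) (x : E d) : StronglyMeasurable (fun t => Av B q h t x) := by
  unfold Av
  have h1 : StronglyMeasurable (Function.uncurry fun (t : ℝ) (z : E d) =>
      B (h (x + t • z)) (q z)) := by
    apply sm_B hB
    · exact hh.meas.comp_measurable (by fun_prop)
    · exact hq.cont.stronglyMeasurable.comp_measurable measurable_snd
  exact h1.integral_prod_right

theorem nhds_small (x : E d) (t : ℝ) : {y : E d | ‖t⁻¹ • (x - y)‖ ≤ 1} ∈ 𝓝 x := by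
  have hc : Continuous fun y : E d => ‖t⁻¹ • (x - y)‖ := by fun_prop
  have := hc.tendsto x
  simp only [sub_self, smul_zero, norm_zero] at this
  exact (this.eventually (gt_mem_nhds one_pos)).mono fun x hx => hx.le

/-- continuity in `x`, measurable data -/
theorem continuous_Av {B : V → F → G} (hB : Bil B) {q : E d → F} {h : E d → V} {C : ℝ}
    (hq : Ker q) (hh : BM h C) {t : ℝ} (ht : t ≠ 0) : Continuous (Av B q h t) := by
  rw [continuous_iff_continuousAt]
  intro x₀
  have h1 : Av B q h t = fun x => ∫ z, B (h (t • z)) (q (z - t⁻¹ • x)) := by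
    ext x; exact Av_shift B q h ht x
  rw [h1]
  obtain ⟨b, hb, hbq⟩ := hq.maj
  apply continuousAt_of_dominated (bound := fun z => C * b (z - t⁻¹ • x₀))
  · refine Eventually.of_forall fun x => ?_
    apply StronglyMeasurable.aestronglyMeasurable
    apply sm_B hB
    · exact hh.meas.comp_measurable (by fun_prop)
    · exact hq.cont.stronglyMeasurable.comp_measurable (by fun_prop)
  · filter_upwards [nhds_small x₀ t] with x hx
    refine Eventually.of_forall fun z => ?_
    refine (norm_B_le hB hh _ _).trans ?_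
    have h3 : q (z - t⁻¹ • x) = q ((z - t⁻¹ • x₀) + t⁻¹ • (x₀ - x)) := by
      congr 1
      rw [smul_sub]; abel
    rw [h3]
    exact mul_le_mul_of_nonneg_left (hbq _ _ hx) hh.nonneg
  · exact (hb.comp_sub_right _).const_mul _
  · refine Eventually.of_forall fun z => ?_
    have h5 : Continuous fun x : E d => (h (t • z), q (z - t⁻¹ • x)) := by
      have hqc := hq.cont
      fun_prop
    exact (hB.cont.comp h5).continuousAt

/-- weighted integrals of averages -/
noncomputable def Tk (ν : Measure ℝ) (ω : ℝ → ℝ) (B : V → F → G) (q : E d → F)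
    (h : E d → V) (x : E d) : G := ∫ t, ω t • Av B q h t x ∂ν

theorem norm_wAv_le {ω : ℝ → ℝ} {B : V → F → G} (hB : Bil B) {q : E d → F} {h : E d → V} {C : ℝ}
    (hq : Ker q) (hh : BM h C) (t : ℝ) (x : E d) :
    ‖ω t • Av B q h t x‖ ≤ ‖ω t‖ * (C * ∫ z, ‖q z‖) := by
  rw [norm_smul]
  exact mul_le_mul_of_nonneg_left (norm_Av_le hB hq hh t x) (norm_nonneg _)

theorem aesm_wAv {ν : Measure ℝ} {ω : ℝ → ℝ} (hω : Integrable ω ν) {B : V → F → G} (hB : Bil B)
    {q : E d → F} {h : E d → V} {C : ℝ} (hq : Ker q) (hh : BM h C) (x : E d) :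
    AEStronglyMeasurable (fun t => ω t • Av B q h t x) ν :=
  hω.aestronglyMeasurable.smul (sm_Av_t hB hq hh x).aestronglyMeasurable

theorem integrable_wAv {ν : Measure ℝ} {ω : ℝ → ℝ} (hω : Integrable ω ν)
    {B : V → F → G} (hB : Bil B) {q : E d → F} {h : E d → V} {C : ℝ} (hq : Ker q) (hh : BM h C)
    (x : E d) : Integrable (fun t => ω t • Av B q h t x) ν :=
  (hω.norm.mul_const (C * ∫ z, ‖q z‖)).mono' (aesm_wAv hω hB hq hh x)
    (Eventually.of_forall fun t => norm_wAv_le hB hq hh t x)

theorem norm_Tk_le {ν : Measure ℝ} {ω : ℝ → ℝ} (hω : Integrable ω ν)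
    {B : V → F → G} (hB : Bil B) {q : E d → F} {h : E d → V} {C : ℝ} (hq : Ker q) (hh : BM h C)
    (x : E d) : ‖Tk ν ω B q h x‖ ≤ (∫ t, ‖ω t‖ ∂ν) * (C * ∫ z, ‖q z‖) := by
  unfold Tk
  rw [← integral_mul_const]
  exact norm_integral_le_of_norm_le (hω.norm.mul_const _)
    (Eventually.of_forall fun t => norm_wAv_le hB hq hh t x)

theorem continuous_Tk {ν : Measure ℝ} (hν : ∀ᵐ t ∂ν, 0 < t) {ω : ℝ → ℝ} (hω : Integrable ω ν)
    {B : V → F → G} (hB : Bil B) {q : E d → F} {h : E d → V} {C : ℝ} (hq : Ker q) (hh : BM h C) :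
    Continuous (Tk ν ω B q h) := by
  unfold Tk
  apply continuous_of_dominated (bound := fun t => ‖ω t‖ * (C * ∫ z, ‖q z‖))
  · exact fun x => aesm_wAv hω hB hq hh x
  · exact fun x => Eventually.of_forall fun t => norm_wAv_le hB hq hh t x
  · exact hω.norm.mul_const _
  · filter_upwards [hν] with t ht
    exact (continuous_Av hB hq hh ht.ne').const_smul _

/-- dominated convergence for `Av` -/
theorem tendsto_Av {B : V → F → G} (hB : Bil B) {q : E d → F} {hn : ℕ → E d → V} {h : E d → V}
    {C : ℝ} (hq : Ker q) (hhn : ∀ n, BM (hn n) C) (t : ℝ) (x : E d)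
    (hlim : ∀ z, Tendsto (fun n => hn n (x + t • z)) atTop (𝓝 (h (x + t • z)))) :
    Tendsto (fun n => Av B q (hn n) t x) atTop (𝓝 (Av B q h t x)) := by
  unfold Av
  apply tendsto_integral_of_dominated_convergence (fun z => C * ‖q z‖)
  · exact fun n => (integrable_B hB hq (hhn n) t x).aestronglyMeasurable
  · exact hq.integrable.norm.const_mul _
  · exact fun n => Eventually.of_forall fun z => norm_B_le hB (hhn n) _ _
  · refine Eventually.of_forall fun z => ?_
    have h5 : Continuous fun v : V => B v (q z) :=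
      hB.cont.comp (by fun_prop : Continuous fun v : V => (v, q z))
    exact (h5.tendsto _).comp (hlim z)

/-- dominated convergence for `Tk` -/
theorem tendsto_Tk {ν : Measure ℝ} {ω : ℝ → ℝ} (hω : Integrable ω ν)
    {B : V → F → G} (hB : Bil B) {q : E d → F} {hn : ℕ → E d → V} {h : E d → V}
    {C : ℝ} (hq : Ker q) (hhn : ∀ n, BM (hn n) C) (x : E d)
    (hlim : ∀ᵐ t ∂ν, ∀ z, Tendsto (fun n => hn n (x + t • z)) atTop (𝓝 (h (x + t • z)))) :
    Tendsto (fun n => Tk ν ω B q (hn n) x) atTop (𝓝 (Tk ν ω B q h x)) := by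
  unfold Tk
  apply tendsto_integral_of_dominated_convergence (fun t => ‖ω t‖ * (C * ∫ z, ‖q z‖))
  · exact fun n => aesm_wAv hω hB hq (hhn n) x
  · exact hω.norm.mul_const _
  · exact fun n => Eventually.of_forall fun t => norm_wAv_le hB hq (hhn n) t x
  · filter_upwards [hlim] with t ht
    exact (tendsto_Av hB hq hhn t x ht).const_smul _

end generic

section smul

variable {d : ℕ}
variable {F : Type*} [NormedAddCommGroup F] [NormedSpace ℝ F]

/-- the product `(c, w) ↦ c • w` -/
def Bs (c : ℝ) (w : F) : F := c • w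

theorem bil_Bs : Bil (Bs (F := F)) where
  cont := continuous_fst.smul continuous_snd
  bd := fun v w => by rw [Bs, norm_smul]

/-- the product `(φ, w) ↦ (v ↦ φ v • w)` -/
noncomputable def Bd (c : E d →L[ℝ] ℝ) (w : F) : E d →L[ℝ] F := c.smulRight w

theorem bil_Bd : Bil (Bd (d := d) (F := F)) where
  cont := by
    have := (ContinuousLinearMap.smulRightL ℝ (E d) F).continuous₂
    exact this
  bd := fun v w => by rw [Bd, ContinuousLinearMap.norm_smulRight_apply]

end smul

end ExtStar
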