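import Pool.Agent.Helper340_star.ExRes
import Pool.Agent.Helper340_star.Reaction

/-!
# The normalised resolvent and the maximum principle on the whole space

Helper file for the existence half of `MP_437bdf_an`.
-/

open InnerProductSpace Laplacian MeasureTheory Filter Topology Set Metric

namespace ExtStar

variable {d : ℕ}

/-- Maximum principle on the whole space. -/
theorem max_principle {L S : ℝ} (hL : 0 < L) {v w : E d → ℝ} (hv : Continuous v)
    (hw : Continuous w) (hS : ∀ x, v x - w x ≤ S)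
    (hpt : ∀ x, w x < v x → ContDiffAt ℝ 2 v x ∧ ContDiffAt ℝ 2 w x ∧
      -Δ v x + L * v x ≤ -Δ w x + L * w x) (x₁ : E d) : v x₁ ≤ w x₁ := by
  by_contra hcon
  push Not at hcon
  set m := v x₁ - w x₁ with hm
  have hm0 : 0 < m := by linarith
  set δ := L * m / (4 * (d + 1)) with hδ
  have hδ0 : 0 < δ := by positivity
  set g : E d → ℝ := fun x => v x - (w x + δ * ‖x - x₁‖ ^ 2) with hg
  have hgc : Continuous g := by fun_prop
  set ρ := S / δ + 1 with hρ
  have hS0 : 0 ≤ S := le_trans hm0.le (hS x₁)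
  have hρ1 : 1 ≤ ρ := by
    have : 0 ≤ S / δ := by positivity
    linarith
  obtain ⟨z, hz, hmax⟩ := (isCompact_closedBall x₁ ρ).exists_isMaxOn
    ⟨x₁, mem_closedBall_self (by linarith)⟩ hgc.continuousOn
  have hg1 : g x₁ = m := by simp [hg, hm]
  have hglob : ∀ x, g x ≤ g z := by
    intro x
    by_cases hx : x ∈ closedBall x₁ ρ
    · exact hmax hx
    · have h1 : ρ < ‖x - x₁‖ := by
        rw [mem_closedBall, dist_eq_norm] at hx
        push Not at hx
        exact hx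
      have h2 : S ≤ δ * ‖x - x₁‖ ^ 2 := by
        have h3 : ρ ≤ ‖x - x₁‖ ^ 2 := by nlinarith
        calc S = δ * (S / δ) := by field_simp
          _ ≤ δ * ρ := by gcongr; linarith
          _ ≤ _ := by gcongr
      have h4 : g x ≤ 0 := by
        simp only [hg]
        linarith [hS x]
      have h5 : g x₁ ≤ g z := hmax (mem_closedBall_self (by linarith))
      linarith
  have hgz : m ≤ g z := by rw [← hg1]; exact hglob x₁
  have hsq : 0 ≤ δ * ‖z - x₁‖ ^ 2 := by positivity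
  have hzv : w z < v z := by
    simp only [hg] at hgz
    linarith
  obtain ⟨h1, h2, h3⟩ := hpt z hzv
  have hloc : IsLocalMax g z := Eventually.of_forall hglob
  have hjet : ∀ i, Jet (fun t => w (z + t • bv i) + δ * ‖z + t • bv i - x₁‖ ^ 2)
      (D1 w z i + δ * (2 * (z i - x₁ i))) (D2 w z i + δ * 2) := fun i =>
    (jet_bv h2 i).add ((jet_normSq z x₁ i).const_mul δ)
  have hlap := lap_le_of_localMax (g := fun x => w x + δ * ‖x - x₁‖ ^ 2) h1 hjet hloc
  rw [Finset.sum_add_distrib, ← laplacian_eq_sum] at hlap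
  simp only [Finset.sum_const, Finset.card_univ, Fintype.card_fin, nsmul_eq_mul] at hlap
  have h4 : m ≤ v z - w z := by
    simp only [hg] at hgz
    linarith
  have h5 : L * m ≤ L * (v z - w z) := by gcongr
  have h6 : (d : ℝ) * (δ * 2) < L * m := by
    have : (d : ℝ) * (δ * 2) = L * m * ((d : ℝ) / (2 * (d + 1))) := by
      simp only [hδ]; field_simp; ring
    rw [this]
    have h7 : (d : ℝ) / (2 * (d + 1)) < 1 := by
      rw [div_lt_one (by positivity)]
      have : (0:ℝ) ≤ d := Nat.cast_nonneg d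
      linarith
    have h8 : 0 < L * m := by positivity
    nlinarith
  linarith

/-- the normalised resolvent -/
noncomputable def Rs (L : ℝ) (h : E d → ℝ) (x : E d) : ℝ := (∫ z : E d, gk z)⁻¹ * R0 L h x

theorem Rs_eqn {L : ℝ} (hL : 0 < L) {h : E d → ℝ} {C C' : ℝ} (hh : BM h C)
    (hh1 : ContDiff ℝ 1 h) (hh' : ∀ x, ‖fderiv ℝ h x‖ ≤ C') :
    ContDiff ℝ 2 (Rs L h) ∧ ∀ x, - Δ (Rs L h) x + L * Rs L h x = h x := by
  have hc : ContDiff ℝ 2 (R0 L h) := contDiff_two_Tk ν0_pos (integrable_wt hL) (integrable_wt1 hL)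
    ker_gk ker_gk' hasFDerivAt_gk hh hh1 hh'
  refine ⟨contDiff_const.mul hc, fun x => ?_⟩
  have h1 : Δ (Rs L h) x = (∫ z : E d, gk z)⁻¹ * Δ (R0 L h) x := by
    have := laplacian_smul (∫ z : E d, gk z)⁻¹ (hc.contDiffAt (x := x))
    exact this
  have h2 := R0_eqn hL hh hh1 hh' x
  have h3 := integral_gk_pos (d := d)
  rw [h1, Rs]
  have h4 : -((∫ z : E d, gk z)⁻¹ * Δ (R0 L h) x) + L * ((∫ z : E d, gk z)⁻¹ * R0 L h x) =
      (∫ z : E d, gk z)⁻¹ * (- Δ (R0 L h) x + L * R0 L h x) := by ring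
  rw [h4, h2]
  field_simp

theorem Rs_C1 {L : ℝ} (hL : 0 < L) (C : ℝ) : ∃ K : ℝ, ∀ h : E d → ℝ, BM h C →
    ContDiff ℝ 1 (Rs L h) ∧ ∀ x, ‖fderiv ℝ (Rs L h) x‖ ≤ K := by
  refine ⟨(∫ z : E d, gk z)⁻¹ * ((∫ t, ‖wt L t‖ ∂ν0) * (C * ∫ z : E d, ‖gk' z‖)), fun h hh => ?_⟩
  have hc : ContDiff ℝ 1 (R0 L h) := contDiff_one_Tk ν0_pos (integrable_wt hL) (integrable_wt1 hL)
    ker_gk ker_gk' hasFDerivAt_gk hh
  refine ⟨contDiff_const.mul hc, fun x => ?_⟩
  have h1 : HasFDerivAt (Rs L h) ((∫ z : E d, gk z)⁻¹ • (- Tk ν0 (wt L) Bs gk' h x)) x :=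
    (hasFDerivAt_Tk ν0_pos (integrable_wt hL) (integrable_wt1 hL) ker_gk ker_gk' hasFDerivAt_gk
      hh x).const_mul _
  have h3 := integral_gk_pos (d := d)
  rw [h1.fderiv, norm_smul, norm_neg, Real.norm_of_nonneg (by positivity)]
  exact mul_le_mul_of_nonneg_left (norm_Tk_le (integrable_wt hL) bil_Bs ker_gk' hh x)
    (by positivity)

theorem Rs_mono {L : ℝ} (hL : 0 < L) {h₁ h₂ : E d → ℝ} {C : ℝ} (hh₁ : BM h₁ C) (hh₂ : BM h₂ C)
    (hle : ∀ x, h₁ x ≤ h₂ x) (x : E d) : Rs L h₁ x ≤ Rs L h₂ x := by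
  have h3 := integral_gk_pos (d := d)
  unfold Rs R0 Tk
  apply mul_le_mul_of_nonneg_left _ (by positivity)
  apply integral_mono_ae (integrable_wAv (integrable_wt1 hL) bil_Bs ker_gk hh₁ x)
    (integrable_wAv (integrable_wt1 hL) bil_Bs ker_gk hh₂ x)
  filter_upwards [ν0_pos] with t ht
  have hw : 0 ≤ t * wt L t := mul_nonneg ht.le (Real.exp_pos _).le
  simp only [smul_eq_mul]
  apply mul_le_mul_of_nonneg_left _ hw
  unfold Av
  apply integral_mono (integrable_B bil_Bs ker_gk hh₁ t x) (integrable_B bil_Bs ker_gk hh₂ t x)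
  intro z
  exact mul_le_mul_of_nonneg_right (hle _) (gk_pos z).le

theorem Rs_const {L : ℝ} (hL : 0 < L) (c : ℝ) (x : E d) : Rs L (fun _ => c) x = c / L := by
  have h1 := (Rs_eqn (d := d) hL (h := fun _ => c) (C := ‖c‖) (C' := 0)
    ⟨stronglyMeasurable_const, fun _ => le_rfl⟩ contDiff_const (by simp)).2 x
  have h2 : Rs L (fun _ : E d => c) = fun _ => Rs L (fun _ : E d => c) 0 := by
    ext y
    rfl
  have h3 : Δ (Rs L (fun _ : E d => c)) x = 0 := by
    rw [h2, laplacian_const]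
    rfl
  rw [h3] at h1
  field_simp
  linarith

theorem Rs_tendsto {L : ℝ} (hL : 0 < L) {hn : ℕ → E d → ℝ} {h : E d → ℝ} {C : ℝ}
    (hhn : ∀ n, BM (hn n) C) (hlim : ∀ y, Tendsto (fun n => hn n y) atTop (𝓝 (h y))) (x : E d) :
    Tendsto (fun n => Rs L (hn n) x) atTop (𝓝 (Rs L h x)) := by
  unfold Rs
  apply Tendsto.const_mul
  exact tendsto_Tk (integrable_wt1 hL) bil_Bs ker_gk hhn x
    (Eventually.of_forall fun t z => hlim _)

theorem bm_of_tendsto {hn : ℕ → E d → ℝ} {h : E d → ℝ} {C : ℝ}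
    (hhn : ∀ n, BM (hn n) C) (hlim : ∀ y, Tendsto (fun n => hn n y) atTop (𝓝 (h y))) : BM h C where
  meas := stronglyMeasurable_of_tendsto atTop (fun n => (hhn n).meas) (tendsto_pi_nhds.2 hlim)
  bdd := fun x => le_of_tendsto (hlim x).norm (Eventually.of_forall fun n => (hhn n).bdd x)

end ExtStar
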