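import Pool.Agent.Helper340_star.ExDer

/-!
# Radial derivatives of averages and traces

Helper file for the existence half of `MP_437bdf_an`.
-/

open InnerProductSpace Laplacian MeasureTheory Filter Topology Set Metric

namespace ExtStar

variable {d : ℕ}

/-- derivative of `Av` in `t` -/
noncomputable def Ad (q : E d → ℝ) (h : E d → ℝ) (t : ℝ) (x : E d) : ℝ :=
  ∫ z, fderiv ℝ h (x + t • z) z * q z

theorem Ad_integrable {q : E d → ℝ} (hq : Ker q) (hq1 : Integrable (fun z => ‖z‖ * ‖q z‖))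
    {h : E d → ℝ} {C' : ℝ} (hh1 : ContDiff ℝ 1 h)
    (hh' : ∀ x, ‖fderiv ℝ h x‖ ≤ C') (t : ℝ) (x : E d) :
    Integrable (fun z => fderiv ℝ h (x + t • z) z * q z) := by
  refine (hq1.const_mul C').mono' ?_ (Eventually.of_forall fun z => ?_)
  · have hc := hh1.continuous_fderiv (by norm_num)
    have hqc := hq.cont
    have : Continuous (fun z => fderiv ℝ h (x + t • z) z * q z) := by
      refine Continuous.mul ?_ hqc
      exact Continuous.clm_apply (hc.comp (by fun_prop)) continuous_id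
    exact this.aestronglyMeasurable
  · rw [norm_mul]
    calc ‖fderiv ℝ h (x + t • z) z‖ * ‖q z‖ ≤ (‖fderiv ℝ h (x + t • z)‖ * ‖z‖) * ‖q z‖ := by
          gcongr
          exact ContinuousLinearMap.le_opNorm _ _
      _ ≤ (C' * ‖z‖) * ‖q z‖ := by
          gcongr
          exact hh' _
      _ = C' * (‖z‖ * ‖q z‖) := by ring

theorem norm_Ad_le {q : E d → ℝ} (hq1 : Integrable (fun z => ‖z‖ * ‖q z‖))
    {h : E d → ℝ} {C' : ℝ} (hh' : ∀ x, ‖fderiv ℝ h x‖ ≤ C') (t : ℝ) (x : E d) :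
    ‖Ad q h t x‖ ≤ C' * ∫ z, ‖z‖ * ‖q z‖ := by
  unfold Ad
  rw [← integral_const_mul]
  apply norm_integral_le_of_norm_le (hq1.const_mul C')
  refine Eventually.of_forall fun z => ?_
  rw [norm_mul]
  calc ‖fderiv ℝ h (x + t • z) z‖ * ‖q z‖ ≤ (‖fderiv ℝ h (x + t • z)‖ * ‖z‖) * ‖q z‖ := by
        gcongr
        exact ContinuousLinearMap.le_opNorm _ _
    _ ≤ (C' * ‖z‖) * ‖q z‖ := by
        gcongr
        exact hh' _
    _ = C' * (‖z‖ * ‖q z‖) := by ring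

theorem hasDerivAt_Av_t {q : E d → ℝ} (hq : Ker q) (hq1 : Integrable (fun z => ‖z‖ * ‖q z‖))
    {h : E d → ℝ} {C C' : ℝ} (hh : BM h C) (hh1 : ContDiff ℝ 1 h)
    (hh' : ∀ x, ‖fderiv ℝ h x‖ ≤ C') (t : ℝ) (x : E d) :
    HasDerivAt (fun t => Av Bs q h t x) (Ad q h t x) t := by
  unfold Av Ad
  apply (hasDerivAt_integral_of_dominated_loc_of_deriv_le (s := univ)
    (F := fun (t : ℝ) (z : E d) => Bs (h (x + t • z)) (q z))
    (F' := fun (t : ℝ) (z : E d) => fderiv ℝ h (x + t • z) z * q z)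
    (bound := fun z => C' * (‖z‖ * ‖q z‖)) univ_mem ?_ ?_ ?_ ?_ ?_ ?_).2
  · exact Eventually.of_forall fun y => (integrable_B bil_Bs hq hh y x).aestronglyMeasurable
  · exact integrable_B bil_Bs hq hh t x
  · exact (Ad_integrable hq hq1 hh1 hh' t x).aestronglyMeasurable
  · refine Eventually.of_forall fun z s _ => ?_
    rw [norm_mul]
    calc ‖fderiv ℝ h (x + s • z) z‖ * ‖q z‖ ≤ (‖fderiv ℝ h (x + s • z)‖ * ‖z‖) * ‖q z‖ := by
          gcongr
          exact ContinuousLinearMap.le_opNorm _ _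
      _ ≤ (C' * ‖z‖) * ‖q z‖ := by
          gcongr
          exact hh' _
      _ = C' * (‖z‖ * ‖q z‖) := by ring
  · exact hq1.const_mul _
  · refine Eventually.of_forall fun z s _ => ?_
    have h1 : HasFDerivAt h (fderiv ℝ h (x + s • z)) (x + s • z) :=
      (hh1.differentiable (by norm_num) _).hasFDerivAt
    have h2 : HasDerivAt (fun s : ℝ => x + s • z) z s := by
      have h1 : HasDerivAt (fun s : ℝ => s • z) ((1:ℝ) • z) s := (hasDerivAt_id s).smul_const z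
      simpa using h1.const_add x
    have h3 := (h1.comp_hasDerivAt s h2).mul_const (q z)
    exact h3

/-- the trace of a bilinear form -/
noncomputable def tr : (E d →L[ℝ] (E d →L[ℝ] ℝ)) →L[ℝ] ℝ :=
  ∑ i : Fin d, (ContinuousLinearMap.apply ℝ ℝ (bv i)).comp
    (ContinuousLinearMap.apply ℝ (E d →L[ℝ] ℝ) (bv i))

theorem tr_apply (φ : E d →L[ℝ] (E d →L[ℝ] ℝ)) : tr φ = ∑ i : Fin d, φ (bv i) (bv i) := by
  simp [tr]

theorem sum_bv (z : E d) : ∑ i : Fin d, (z i) • (bv i : E d) = z := by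
  have := (EuclideanSpace.basisFun (Fin d) ℝ).sum_repr z
  simpa [bv] using this

/-- `Σ_i (φ e_i) ⟨z, e_i⟩ = φ z` -/
theorem sum_apply_bv (φ : E d →L[ℝ] ℝ) (z : E d) : ∑ i : Fin d, φ (bv i) * z i = φ z := by
  conv_rhs => rw [← sum_bv z]
  rw [map_sum]
  apply Finset.sum_congr rfl
  intro i _
  rw [map_smul, smul_eq_mul, mul_comm]

theorem tr_Bd (φ : E d →L[ℝ] ℝ) (c : ℝ) (z : E d) :
    tr (Bd φ (c • innerSL ℝ z)) = c * φ z := by
  rw [tr_apply, ← sum_apply_bv φ z, Finset.mul_sum]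
  apply Finset.sum_congr rfl
  intro i _
  simp only [Bd, ContinuousLinearMap.smulRight_apply, _root_.smul_apply,
    innerSL_apply_apply, inner_bv, smul_eq_mul]
  ring

theorem laplacian_of_hasFDerivAt {u : E d → ℝ} {u' : E d → (E d →L[ℝ] ℝ)}
    {u'' : E d →L[ℝ] (E d →L[ℝ] ℝ)} {x : E d} (h1 : ∀ y, HasFDerivAt u (u' y) y)
    (h2 : HasFDerivAt u' u'' x) : Δ u x = tr u'' := by
  have h3 : fderiv ℝ u = u' := by ext1 y; exact (h1 y).fderiv
  rw [laplacian_eq_sum, tr_apply]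
  apply Finset.sum_congr rfl
  intro i _
  rw [D2, h3, h2.fderiv]

/-- trace of `Av Bd q' (fderiv h)` when `q' z = c(z) ⟨z, ·⟩` -/
theorem tr_Av {q' : E d → (E d →L[ℝ] ℝ)} (hq' : Ker q') {c : E d → ℝ}
    (hc : ∀ z, q' z = c z • innerSL ℝ z) {h : E d → ℝ} {C' : ℝ} (hh1 : ContDiff ℝ 1 h)
    (hh' : ∀ x, ‖fderiv ℝ h x‖ ≤ C') (t : ℝ) (x : E d) :
    tr (Av Bd q' (fderiv ℝ h) t x) = Ad c h t x := by
  have hbm := bm_fderiv hh1 hh'
  unfold Av Ad
  rw [← ContinuousLinearMap.integral_comp_comm tr (integrable_B bil_Bd hq' hbm t x)]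
  congr 1
  ext1 z
  rw [hc z, tr_Bd, mul_comm]

theorem tr_Tk {ν : Measure ℝ} {ω : ℝ → ℝ} (hω : Integrable ω ν)
    {q' : E d → (E d →L[ℝ] ℝ)} (hq' : Ker q') {c : E d → ℝ}
    (hc : ∀ z, q' z = c z • innerSL ℝ z) {h : E d → ℝ} {C' : ℝ} (hh1 : ContDiff ℝ 1 h)
    (hh' : ∀ x, ‖fderiv ℝ h x‖ ≤ C') (x : E d) :
    tr (Tk ν ω Bd q' (fderiv ℝ h) x) = ∫ t, ω t * Ad c h t x ∂ν := by
  have hbm := bm_fderiv hh1 hh'
  unfold Tk
  rw [← ContinuousLinearMap.integral_comp_comm tr (integrable_wAv hω bil_Bd hq' hbm x)]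
  congr 1
  ext1 t
  rw [map_smul, tr_Av hq' hc hh1 hh', smul_eq_mul]

end ExtStar
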