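import Pool.Agent.Helper340_star.ExRad

/-!
# The Gaussian kernel and the resolvent of the Laplacian on the whole space

Helper file for the existence half of `MP_437bdf_an`.
-/

open InnerProductSpace Laplacian MeasureTheory Filter Topology Set Metric

namespace ExtStar

variable {d : ℕ}

/-- the Gaussian kernel -/
noncomputable def gk (z : E d) : ℝ := Real.exp (-(‖z‖ ^ 2 / 2))

/-- its derivative -/
noncomputable def gk' (z : E d) : E d →L[ℝ] ℝ := (-gk z) • innerSL ℝ z

theorem gk_pos (z : E d) : 0 < gk z := Real.exp_pos _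

theorem continuous_gk : Continuous (gk (d := d)) := by
  unfold gk; fun_prop

theorem continuous_gk' : Continuous (gk' (d := d)) := by
  have h1 := continuous_gk (d := d)
  have h2 : Continuous fun z : E d => innerSL ℝ z := (innerSL ℝ (E := E d)).continuous
  exact h1.neg.smul h2

theorem hasFDerivAt_gk (z : E d) : HasFDerivAt gk (gk' z) z := by
  have h1 : HasFDerivAt (fun z : E d => ‖z‖ ^ 2) (2 • (innerSL ℝ z)) z :=
    (hasStrictFDerivAt_norm_sq z).hasFDerivAt
  have h2 : HasFDerivAt (fun z : E d => -(‖z‖ ^ 2 / 2)) (-((2:ℝ)⁻¹ • (2 • (innerSL ℝ z)))) z := by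
    have := (h1.const_mul (2:ℝ)⁻¹).neg
    refine this.congr_of_eventuallyEq (Eventually.of_forall fun y => ?_)
    simp only [Pi.neg_apply]
    ring
  have h3 := h2.exp
  refine h3.congr_fderiv ?_
  ext v
  simp [gk', gk]

theorem integrable_gauss {b : ℝ} (hb : 0 < b) :
    Integrable (fun z : E d => Real.exp (-(b * ‖z‖ ^ 2))) := by
  have h := (GaussianFourier.integrable_cexp_neg_mul_sq_norm_add (V := E d) (b := (b : ℂ))
    (by simpa using hb) 0 0).norm
  refine h.congr (Eventually.of_forall fun z => ?_)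
  simp only [Complex.norm_exp]
  congr 1
  norm_cast
  simp

theorem norm_shift_sq {z a : E d} (ha : ‖a‖ ≤ 1) : ‖z‖ ^ 2 ≤ 2 * ‖z + a‖ ^ 2 + 2 := by
  have h1 : ‖z‖ ≤ ‖z + a‖ + 1 := by
    calc ‖z‖ = ‖(z + a) - a‖ := by simp
      _ ≤ ‖z + a‖ + ‖a‖ := norm_sub_le _ _
      _ ≤ _ := by linarith
  nlinarith [norm_nonneg z, norm_nonneg (z + a), sq_nonneg (‖z + a‖ - 1)]

theorem ker_gk : Ker (gk (d := d)) where
  cont := continuous_gk
  maj := by
    refine ⟨fun z => Real.exp (1/2) * Real.exp (-(1/4 * ‖z‖ ^ 2)),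
      (integrable_gauss (by norm_num)).const_mul _, ?_⟩
    intro z a ha
    rw [Real.norm_of_nonneg (gk_pos _).le, gk]
    show Real.exp (-(‖z + a‖ ^ 2 / 2)) ≤ Real.exp (1 / 2) * Real.exp (-(1 / 4 * ‖z‖ ^ 2))
    rw [← Real.exp_add]
    apply Real.exp_le_exp.2
    have := norm_shift_sq (z := z) ha
    linarith

theorem norm_gk' (z : E d) : ‖gk' z‖ = ‖z‖ * ‖gk z‖ := by
  rw [gk', norm_smul, norm_neg, innerSL_apply_norm, mul_comm]

theorem ker_gk' : Ker (gk' (d := d)) where
  cont := continuous_gk'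
  maj := by
    refine ⟨fun z => Real.exp (1/4) * Real.exp (-(1/8 * ‖z‖ ^ 2)),
      (integrable_gauss (by norm_num)).const_mul _, ?_⟩
    intro z a ha
    rw [norm_gk', Real.norm_of_nonneg (gk_pos _).le, gk]
    set s := ‖z + a‖ with hs
    have hs0 : 0 ≤ s := norm_nonneg _
    have h1 : s ≤ Real.exp (s ^ 2 / 4) := by
      have := Real.add_one_le_exp (s ^ 2 / 4)
      nlinarith [sq_nonneg (s - 2)]
    have h2 := norm_shift_sq (z := z) ha
    calc s * Real.exp (-(s ^ 2 / 2)) ≤ Real.exp (s ^ 2 / 4) * Real.exp (-(s ^ 2 / 2)) := by gcongr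
      _ = Real.exp (-(s ^ 2 / 4)) := by rw [← Real.exp_add]; congr 1; ring
      _ ≤ Real.exp (1/4) * Real.exp (-(1/8 * ‖z‖ ^ 2)) := by
        rw [← Real.exp_add]
        apply Real.exp_le_exp.2
        linarith

theorem integrable_norm_gk : Integrable (fun z : E d => ‖z‖ * ‖gk z‖) := by
  refine (ker_gk' (d := d)).integrable.norm.congr (Eventually.of_forall fun z => ?_)
  exact norm_gk' z

theorem integral_gk_pos : 0 < ∫ z : E d, gk z := integral_exp_pos ker_gk.integrable

/-- Lebesgue measure on `(0, ∞)` -/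
noncomputable def ν0 : Measure ℝ := volume.restrict (Ioi 0)

theorem ν0_pos : ∀ᵐ t ∂ν0, 0 < t := ae_restrict_mem measurableSet_Ioi

/-- the weight -/
noncomputable def wt (L t : ℝ) : ℝ := Real.exp (-(L / 2) * t ^ 2)

theorem integrable_wt {L : ℝ} (hL : 0 < L) : Integrable (wt L) ν0 :=
  (integrable_exp_neg_mul_sq (by positivity : 0 < L / 2)).restrict

theorem integrable_wt1 {L : ℝ} (hL : 0 < L) : Integrable (fun t => t * wt L t) ν0 :=
  (integrable_mul_exp_neg_mul_sq (by positivity : 0 < L / 2)).restrict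

theorem hasDerivAt_wt (L t : ℝ) : HasDerivAt (wt L) (-(L * t) * wt L t) t := by
  have h1 : HasDerivAt (fun t : ℝ => -(L / 2) * t ^ 2) (-(L / 2) * (2 * t)) t := by
    simpa using (hasDerivAt_pow 2 t).const_mul (-(L / 2))
  refine h1.exp.congr_deriv ?_
  simp only [wt]
  ring

theorem tendsto_wt {L : ℝ} (hL : 0 < L) : Tendsto (wt L) atTop (𝓝 0) := by
  have h1 : Tendsto (fun t : ℝ => -(L / 2) * t ^ 2) atTop atBot := by
    have h2 : Tendsto (fun t : ℝ => t ^ 2) atTop atTop := tendsto_pow_atTop (by norm_num)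
    exact h2.const_mul_atTop_of_neg (by linarith)
  exact Real.tendsto_exp_atBot.comp h1

/-- the resolvent, not normalised -/
noncomputable def R0 (L : ℝ) (h : E d → ℝ) (x : E d) : ℝ :=
  Tk ν0 (fun t => t * wt L t) Bs gk h x

theorem R0_eqn {L : ℝ} (hL : 0 < L) {h : E d → ℝ} {C C' : ℝ} (hh : BM h C)
    (hh1 : ContDiff ℝ 1 h) (hh' : ∀ x, ‖fderiv ℝ h x‖ ≤ C') (x : E d) :
    - Δ (R0 L h) x + L * R0 L h x = (∫ z : E d, gk z) * h x := by
  have hω := integrable_wt hL
  have hω1 := integrable_wt1 hL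
  have h1 : ∀ y, HasFDerivAt (R0 L h) (- Tk ν0 (wt L) Bs gk' h y) y := fun y =>
    hasFDerivAt_Tk ν0_pos hω hω1 ker_gk ker_gk' hasFDerivAt_gk hh y
  have h2 := (hasFDerivAt_Tk' (ν := ν0) hω ker_gk' hh hh1 hh' x).neg
  have h3 : Δ (R0 L h) x = ∫ t, wt L t * Ad gk h t x ∂ν0 := by
    have h4 : tr (-Tk ν0 (wt L) Bd gk' (fderiv ℝ h) x) =
        - tr (Tk ν0 (wt L) Bd gk' (fderiv ℝ h) x) := map_neg tr _
    rw [laplacian_of_hasFDerivAt h1 h2, h4,
      tr_Tk hω ker_gk' (c := fun z => - gk z) (fun z => rfl) hh1 hh' x, ← integral_neg]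
    congr 1
    ext1 t
    have : Ad (fun z => -gk z) h t x = - Ad gk h t x := by
      unfold Ad
      rw [← integral_neg]
      congr 1
      ext1 z
      ring
    rw [this]
    ring
  -- the fundamental theorem of calculus in `t`
  set P : ℝ → ℝ := fun t => Av Bs gk h t x with hP
  have hPd : ∀ t, HasDerivAt P (Ad gk h t x) t := fun t =>
    hasDerivAt_Av_t ker_gk integrable_norm_gk hh hh1 hh' t x
  have hd : ∀ t, HasDerivAt (fun t => wt L t * P t)
      (-(L * t) * wt L t * P t + wt L t * Ad gk h t x) t := fun t =>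
    (hasDerivAt_wt L t).mul (hPd t)
  have hPb : ∀ t, ‖P t‖ ≤ C * ∫ z : E d, ‖gk z‖ := fun t => norm_Av_le bil_Bs ker_gk hh t x
  have hcontP : Continuous P := continuous_iff_continuousAt.2 fun t => (hPd t).continuousAt
  have hi1 : Integrable (fun t => (t * wt L t) * P t) ν0 :=
    integrable_wAv hω1 bil_Bs ker_gk hh x
  have hAdm : StronglyMeasurable (fun t => Ad gk h t x) := by
    have : (fun t => Ad gk h t x) = deriv P := by ext1 t; exact (hPd t).deriv.symm
    rw [this]
    exact (measurable_deriv P).stronglyMeasurable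
  have hi2 : Integrable (fun t => wt L t * Ad gk h t x) ν0 := by
    refine (hω.norm.mul_const (C' * ∫ z : E d, ‖z‖ * ‖gk z‖)).mono'
      (hω.aestronglyMeasurable.mul hAdm.aestronglyMeasurable) (Eventually.of_forall fun t => ?_)
    rw [norm_mul]
    exact mul_le_mul_of_nonneg_left (norm_Ad_le integrable_norm_gk hh' t x) (norm_nonneg _)
  have hlim : Tendsto (fun t => wt L t * P t) atTop (𝓝 0) := by
    have hb : Tendsto (fun t => ‖wt L t‖ * (C * ∫ z : E d, ‖gk z‖)) atTop (𝓝 0) := by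
      have := ((tendsto_wt hL).norm).mul_const (C * ∫ z : E d, ‖gk z‖)
      simpa using this
    refine squeeze_zero_norm (fun t => ?_) hb
    rw [norm_mul]
    exact mul_le_mul_of_nonneg_left (hPb t) (norm_nonneg _)
  have hi3 : Integrable (fun t => -(L * t) * wt L t * P t + wt L t * Ad gk h t x) ν0 := by
    refine ((hi1.const_mul (-L)).add hi2).congr (Eventually.of_forall fun t => ?_)
    simp only [Pi.add_apply]
    ring
  have hftc := integral_Ioi_of_hasDerivAt_of_tendsto' (a := 0) (fun t _ => hd t) hi3 hlim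
  have hsplit : ∫ t in Ioi (0:ℝ), (-(L * t) * wt L t * P t + wt L t * Ad gk h t x) =
      -L * R0 L h x + Δ (R0 L h) x := by
    rw [h3]
    have : ∫ t in Ioi (0:ℝ), (-(L * t) * wt L t * P t + wt L t * Ad gk h t x) =
        ∫ t, (-L * ((t * wt L t) * P t) + wt L t * Ad gk h t x) ∂ν0 := by
      apply integral_congr_ae
      exact Eventually.of_forall fun t => by ring
    rw [this, integral_add (hi1.const_mul (-L)) hi2, integral_const_mul]
    rfl
  rw [hsplit] at hftc
  have hP0 : wt L 0 * P 0 = (∫ z : E d, gk z) * h x := by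
    simp only [hP, Av, Bs, wt]
    simp only [zero_smul, add_zero, smul_eq_mul]
    rw [integral_const_mul]
    simp
    ring
  rw [hP0] at hftc
  linarith

end ExtStar
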