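import Pool.Agent.Helper340_star.Core
import Pool.Agent.Helper340_star.Geometry

/-!
# Uniqueness on exterior-star domains

Helper file for `MP_437bdf_an`.
-/

open InnerProductSpace Laplacian Filter Topology Set Metric

namespace ExtStar

variable {d : ℕ} {γ : ℝ} {f : ℝ → ℝ} {Ω : Set (E d)} {u v : E d → ℝ}

theorem laplacian_translate (u : E d → ℝ) (c x : E d) :
    Δ (fun z => u (z + c)) x = Δ u (x + c) := by
  rw [laplacian_eq_sum, laplacian_eq_sum]
  apply Finset.sum_congr rfl
  intro i _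
  unfold D2
  have h1 : fderiv ℝ (fun z => u (z + c)) = fun z => fderiv ℝ u (z + c) := by
    ext1 z
    exact fderiv_comp_add_right c
  rw [h1]
  have h2 : fderiv ℝ (fun z => fderiv ℝ u (z + c)) x = fderiv ℝ (fderiv ℝ u) (x + c) :=
    fderiv_comp_add_right c
  rw [h2]

theorem IsSol.translate (hu : IsSol f Ω u) (c : E d) :
    IsSol f ((fun z => z + c) ⁻¹' Ω) (fun z => u (z + c)) := by
  have hcl : (fun z : E d => z + c) ⁻¹' closure Ω = closure ((fun z => z + c) ⁻¹' Ω) :=
    (Homeomorph.addRight c).preimage_closure Ω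
  have hfr : (fun z : E d => z + c) ⁻¹' frontier Ω = frontier ((fun z => z + c) ⁻¹' Ω) :=
    (Homeomorph.addRight c).preimage_frontier Ω
  refine ⟨?_, ?_, ?_, ?_, ?_, ?_⟩
  · apply hu.contDiffOn.comp (t := Ω)
    · exact (contDiff_id.add contDiff_const).contDiffOn
    · intro z hz
      exact hz
  · apply hu.continuousOn.comp (by fun_prop)
    intro z hz
    rw [← hcl] at hz
    exact hz
  · intro x hx
    exact hu.pos _ hx
  · obtain ⟨C, hC⟩ := hu.bdd
    exact ⟨C, fun x hx => hC _ hx⟩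
  · intro x hx
    rw [← hfr] at hx
    exact hu.bdry _ hx
  · intro x hx
    rw [laplacian_translate]
    exact hu.eqn _ hx

theorem InnerProp.translate {r C : ℝ} (h : InnerProp Ω v r C) (c : E d) :
    InnerProp ((fun z => z + c) ⁻¹' Ω) (fun z => v (z + c)) r C := by
  intro y hy
  obtain ⟨p, hp, hyp, hvp⟩ := h (y + c) hy
  have h1 : y + c - p = y - (p - c) := by abel
  rw [h1] at hyp hvp
  refine ⟨p - c, ?_, hyp, hvp⟩
  intro z hz
  apply hp
  rw [mem_ball, dist_eq_norm] at hz ⊢
  have : z + c - p = z - (p - c) := by abel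
  rwa [this]

theorem dilInv_translate {c : E d} (h : StarConvex ℝ c Ωᶜ) :
    DilInv ((fun z => z + c) ⁻¹' Ω) := by
  intro x hx l hl
  have hl0 : 0 < l := by linarith
  by_contra hn
  have h1 : l • x + c ∈ Ωᶜ := hn
  have h2 := h h1 (a := 1 - l⁻¹) (b := l⁻¹) (by
    have : l⁻¹ ≤ 1 := inv_le_one_of_one_le₀ hl
    linarith) (inv_nonneg.2 hl0.le) (by ring)
  have h3 : (1 - l⁻¹) • c + l⁻¹ • (l • x + c) = x + c := by
    rw [smul_add, smul_smul, inv_mul_cancel₀ hl0.ne', one_smul, sub_smul, one_smul]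
    abel
  rw [h3] at h2
  exact h2 hx

/-- Comparison of two solutions on an exterior-star domain. -/
theorem comparison (hf : PositiveReaction γ f) (hΩ : IsOpen Ω)
    (hstar : ∃ c, StarConvex ℝ c Ωᶜ) (hbd : UniformC2Boundary γ Ω)
    (hu : IsSol f Ω u) (hv : IsSol f Ω v) : ∀ y ∈ Ω, v y ≤ u y := by
  by_cases hne : Ωᶜ.Nonempty
  · obtain ⟨c, hc⟩ := hstar
    have hcΩ : c ∉ Ω := hc.mem hne
    obtain ⟨ρ, hρ, hTB⟩ := twoSided_of_uniform hΩ hbd
    obtain ⟨C, hC, hin⟩ := innerProp_of_twoSided hf hΩ hne hv hρ hTB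
    have hΩ' : IsOpen ((fun z : E d => z + c) ⁻¹' Ω) := hΩ.preimage (by fun_prop)
    intro y hy
    have h1 := core hf hΩ' (dilInv_translate hc) (by simpa using hcΩ) (hu.translate c)
      (hv.translate c) hρ hC (hin.translate c) (y - c) (by simpa using hy)
    simpa using h1
  · intro y hy
    have huniv : Ω = univ := by
      rw [← compl_empty_iff, ← not_nonempty_iff_eq_empty]; exact hne
    have h1 : 1 ≤ u y := by
      apply le_of_forall_pos_le_add
      intro η hη
      obtain ⟨R, _, hR⟩ := near_one d hf hη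
      have := hR Ω u hΩ hu y (by rw [huniv]; exact subset_univ _)
      linarith
    exact (hv.le_one hf hΩ hy).trans h1

/-- Uniqueness on exterior-star domains. -/
theorem uniqueness (hf : PositiveReaction γ f) (hΩ : IsOpen Ω)
    (hstar : ∃ c, StarConvex ℝ c Ωᶜ) (hbd : UniformC2Boundary γ Ω)
    (hu : IsSol f Ω u) (hv : IsSol f Ω v) : EqOn u v (closure Ω) := by
  intro x hx
  by_cases h : x ∈ Ω
  · exact le_antisymm (comparison hf hΩ hstar hbd hv hu x h) (comparison hf hΩ hstar hbd hu hv x h)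
  · have hfr : x ∈ frontier Ω := by rw [hΩ.frontier_eq]; exact ⟨hx, h⟩
    rw [hu.bdry x hfr, hv.bdry x hfr]

end ExtStar
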