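import Pool.Agent.Helper340_star.Local

/-!
# Existence of a touching point

Helper file for `MP_437bdf_an`.
-/

open InnerProductSpace Laplacian Filter Topology Set Metric

namespace ExtStar

variable {d : ℕ} {γ : ℝ} {f : ℝ → ℝ} {Ω : Set (E d)} {u v : E d → ℝ}

theorem pen_lower {K N δ c w β B : ℝ} (hN : 0 < N) (hK : 0 ≤ K) (hw : 1 ≤ w) (hβ : 0 ≤ β)
    (hb : β ≤ |c - δ / 2 * Real.log w|) (hB : B < K * (Real.cosh (N * β) - 1)) :
    B * w < pen K N δ c w := by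
  unfold pen
  have h1 : Real.cosh (N * β) ≤ Real.cosh (N * (c - δ / 2 * Real.log w)) := by
    rw [Real.cosh_le_cosh]
    rw [abs_mul, abs_mul, abs_of_pos hN, abs_of_nonneg hβ]
    gcongr
  have h2 : K * (w * (Real.cosh (N * β) - 1)) ≤
      K * (w * (Real.cosh (N * (c - δ / 2 * Real.log w)) - 1)) := by
    gcongr
  have h3 : B * w < K * (w * (Real.cosh (N * β) - 1)) := by
    have : K * (w * (Real.cosh (N * β) - 1)) = (K * (Real.cosh (N * β) - 1)) * w := by ring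
    rw [this]
    apply mul_lt_mul_of_pos_right hB (by linarith)
  linarith

theorem Phi_continuousOn (hu : IsSol f Ω u) (hv : IsSol f Ω v)
    (hdil : DilInv Ω) (κ K N δ : ℝ) {Kc : Set (E d)} (hKc : Kc ⊆ Ω) (S₀ a b : ℝ) :
    ContinuousOn (fun z : ℝ × E d × ℝ => Phi u v κ K N δ z.1 z.2.1 z.2.2)
      (Icc a b ×ˢ (Kc ×ˢ Icc 0 S₀)) := by
  unfold Phi
  have hmaps : MapsTo (fun z : ℝ × E d × ℝ => z.2.1) (Icc a b ×ˢ (Kc ×ˢ Icc 0 S₀)) Ω :=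
    fun z hz => hKc hz.2.1
  have hmaps2 : MapsTo (fun z : ℝ × E d × ℝ => Real.exp z.2.2 • z.2.1)
      (Icc a b ×ˢ (Kc ×ˢ Icc 0 S₀)) Ω :=
    fun z hz => hdil _ (hKc hz.2.1) _ (Real.one_le_exp hz.2.2.1)
  have hvΩ : ContinuousOn v Ω := hv.continuousOn.mono subset_closure
  have huΩ : ContinuousOn u Ω := hu.continuousOn.mono subset_closure
  apply ContinuousOn.sub
  · apply ContinuousOn.sub
    · apply ContinuousOn.mul continuousOn_const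
      apply ContinuousOn.log
      · exact hvΩ.comp (by fun_prop) hmaps
      · intro z hz
        exact (hv.pos _ (hmaps hz)).ne'
    · apply ContinuousOn.log
      · exact huΩ.comp (by fun_prop) hmaps2
      · intro z hz
        exact (hu.pos _ (hmaps2 hz)).ne'
  · apply Continuous.continuousOn
    unfold pen
    have hlog : Continuous (fun z : ℝ × E d × ℝ => Real.log (1 + ‖z.2.1‖ ^ 2)) := by
      apply Continuous.log (by fun_prop)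
      intro z
      positivity
    fun_prop

theorem Phi_continuous_sigma (u v : E d → ℝ) (κ K N δ : ℝ) (y : E d) (s : ℝ) :
    Continuous (fun σ => Phi u v κ K N δ σ y s) := by
  unfold Phi pen
  fun_prop

theorem one_le_w (y : E d) : 1 ≤ 1 + ‖y‖ ^ 2 := by
  have : 0 ≤ ‖y‖ ^ 2 := sq_nonneg _
  linarith

/-- Negativity of the functional far from the curve `b = 0`. -/
theorem Phi_neg (hf : PositiveReaction γ f) (hΩ : IsOpen Ω) (hv : IsSol f Ω v)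
    {κ K N δ s₀ S₀ B1 : ℝ} (hκ : 0 < κ) (hN : 0 < N) (hK : 0 ≤ K) (hs₀ : 0 < s₀)
    (hapr : ∀ y ∈ Ω, ∀ s, 0 ≤ s → s ≤ S₀ →
      Real.log (v y) - Real.log (u (Real.exp s • y)) ≤ B1 * (1 + ‖y‖ ^ 2))
    (hKcosh : B1 < K * (Real.cosh (N * s₀) - 1))
    {y : E d} (hy : y ∈ Ω) {s : ℝ} (hs0 : 0 ≤ s) (hs1 : s ≤ S₀) (σ : ℝ)
    (hb : s₀ ≤ |s - σ - δ / 2 * Real.log (1 + ‖y‖ ^ 2)|) : Phi u v κ K N δ σ y s < 0 := by
  have hvy := hv.pos y hy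
  have hlogv : Real.log (v y) ≤ 0 := Real.log_nonpos hvy.le (hv.le_one hf hΩ hy)
  have h1 := hapr y hy s hs0 hs1
  have h2 : B1 * (1 + ‖y‖ ^ 2) < pen K N δ (s - σ) (1 + ‖y‖ ^ 2) :=
    pen_lower hN hK (one_le_w y) hs₀.le hb hKcosh
  have h3 : κ * Real.log (v y) ≤ 0 := mul_nonpos_of_nonneg_of_nonpos hκ.le hlogv
  unfold Phi
  linarith

/-- Confinement of violations. -/
theorem confine (hf : PositiveReaction γ f) (hΩ : IsOpen Ω) (hv : IsSol f Ω v)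
    {κ K N δ s₀ S₀ B1 τ : ℝ} (hκ : 0 < κ) (hN : 0 < N) (hK : 0 ≤ K) (hδ : 0 < δ) (hs₀ : 0 < s₀)
    (hB1 : 0 ≤ B1) (hτ : 0 < τ) (hS₀ : 0 < S₀)
    (hapr : ∀ y ∈ Ω, ∀ s, 0 ≤ s → s ≤ S₀ →
      Real.log (v y) - Real.log (u (Real.exp s • y)) ≤ B1 * (1 + ‖y‖ ^ 2))
    (hKcosh : B1 < K * (Real.cosh (N * s₀) - 1))
    {σ : ℝ} (hσ1 : s₀ ≤ σ) (hσ2 : σ ≤ S₀ + s₀) {y : E d} (hy : y ∈ Ω) {s : ℝ} (hs0 : 0 ≤ s)
    (hs1 : s ≤ S₀) (hΦ : Real.log (1 + τ) ≤ Phi u v κ K N δ σ y s) :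
    ‖y‖ ≤ Real.exp (2 * S₀ / δ) ∧ Real.exp (-(B1 * Real.exp (2 * S₀ / δ) / κ)) ≤ v y ∧
      σ < S₀ + s₀ := by
  have hlogτ : 0 < Real.log (1 + τ) := Real.log_pos (by linarith)
  have hvy := hv.pos y hy
  have hw1 := one_le_w y
  have hlogw : 0 ≤ Real.log (1 + ‖y‖ ^ 2) := Real.log_nonneg hw1
  have hδlog : 0 ≤ δ / 2 * Real.log (1 + ‖y‖ ^ 2) := by positivity
  have hb : |s - σ - δ / 2 * Real.log (1 + ‖y‖ ^ 2)| < s₀ := by
    by_contra hcon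
    push Not at hcon
    have := Phi_neg hf hΩ hv hκ hN hK hs₀ hapr hKcosh hy hs0 hs1 σ hcon
    linarith
  rw [abs_lt] at hb
  have hX1 : 1 ≤ Real.exp (2 * S₀ / δ) := Real.one_le_exp (by positivity)
  have hwX : 1 + ‖y‖ ^ 2 < Real.exp (2 * S₀ / δ) := by
    rw [← Real.log_lt_iff_lt_exp (by linarith)]
    rw [lt_div_iff₀ hδ]
    linarith [hb.1]
  set X := Real.exp (2 * S₀ / δ) with hX
  clear_value X
  refine ⟨?_, ?_, by linarith [hb.1]⟩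
  · by_contra hcon
    push Not at hcon
    have : X ^ 2 < ‖y‖ ^ 2 := by
      apply pow_lt_pow_left₀ hcon (by linarith) (by norm_num)
    have h2 : X ≤ X ^ 2 := by nlinarith
    linarith
  · have h1 := hapr y hy s hs0 hs1
    have h2 : 0 ≤ pen K N δ (s - σ) (1 + ‖y‖ ^ 2) := pen_nonneg hK (by linarith)
    rw [← Real.le_log_iff_exp_le hvy, ← neg_div, div_le_iff₀ hκ]
    unfold Phi at hΦ
    have h5 : B1 * (1 + ‖y‖ ^ 2) ≤ B1 * X := by gcongr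
    linarith

/-- Existence of a touching point. -/
theorem exists_touch (hf : PositiveReaction γ f) (hΩ : IsOpen Ω) (hdil : DilInv Ω)
    (hu : IsSol f Ω u) (hv : IsSol f Ω v)
    {κ K N δ s₀ S₀ B1 τ : ℝ} (hκ : 0 < κ) (hN : 0 < N) (hK : 0 ≤ K) (hδ : 0 < δ) (hs₀ : 0 < s₀)
    (hB1 : 0 ≤ B1) (hτ : 0 < τ) (hS₀ : 0 < S₀)
    (hapr : ∀ y ∈ Ω, ∀ s, 0 ≤ s → s ≤ S₀ →
      Real.log (v y) - Real.log (u (Real.exp s • y)) ≤ B1 * (1 + ‖y‖ ^ 2))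
    (hKcosh : B1 < K * (Real.cosh (N * s₀) - 1))
    (hstart : ∀ y ∈ Ω, v y ≤ (1 + τ / 2) * u (Real.exp S₀ • y))
    {y₁ : E d} (hy₁ : y₁ ∈ Ω) {s₁ : ℝ} (hs₁0 : 0 ≤ s₁) (hs₁1 : s₁ ≤ S₀)
    (hviol : Real.log (1 + τ) ≤ Phi u v κ K N δ s₀ y₁ s₁) :
    ∃ σ' y' s', s₀ ≤ σ' ∧ y' ∈ Ω ∧ 0 < s' ∧ s' < S₀ ∧
      Phi u v κ K N δ σ' y' s' = Real.log (1 + τ) ∧
      ∀ y ∈ Ω, ∀ s, 0 ≤ s → s ≤ S₀ → Phi u v κ K N δ σ' y s ≤ Real.log (1 + τ) := by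
  have hlogτ : 0 < Real.log (1 + τ) := Real.log_pos (by linarith)
  set X := Real.exp (2 * S₀ / δ) with hX
  set vm := Real.exp (-(B1 * X / κ)) with hvm
  have hvmpos : 0 < vm := Real.exp_pos _
  set Kc : Set (E d) := (closure Ω ∩ v ⁻¹' (Ici vm)) ∩ closedBall 0 X with hKcdef
  have hKcΩ : Kc ⊆ Ω := by
    intro y hy
    by_contra hyn
    have h1 : v y = 0 := hv.bdry y (by rw [hΩ.frontier_eq]; exact ⟨hy.1.1, hyn⟩)
    have h2 : vm ≤ v y := hy.1.2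
    linarith
  have hKccomp : IsCompact Kc := by
    rw [hKcdef, inter_comm]
    apply (isCompact_closedBall (0 : E d) X).inter_right
    exact hv.continuousOn.preimage_isClosed_of_isClosed isClosed_closure isClosed_Ici
  set D : Set (ℝ × E d × ℝ) := Icc s₀ (S₀ + s₀) ×ˢ (Kc ×ˢ Icc 0 S₀) with hDdef
  have hDcomp : IsCompact D := isCompact_Icc.prod (hKccomp.prod isCompact_Icc)
  have hΦc : ContinuousOn (fun z : ℝ × E d × ℝ => Phi u v κ K N δ z.1 z.2.1 z.2.2) D :=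
    Phi_continuousOn hu hv hdil κ K N δ hKcΩ S₀ s₀ (S₀ + s₀)
  set V : Set (ℝ × E d × ℝ) := D ∩ (fun z : ℝ × E d × ℝ => Phi u v κ K N δ z.1 z.2.1 z.2.2) ⁻¹'
    (Ici (Real.log (1 + τ))) with hVdef
  have hVcomp : IsCompact V := by
    apply hDcomp.of_isClosed_subset _ inter_subset_left
    exact hΦc.preimage_isClosed_of_isClosed hDcomp.isClosed isClosed_Ici
  have hmemV : ∀ σ, s₀ ≤ σ → σ ≤ S₀ + s₀ → ∀ y ∈ Ω, ∀ s, 0 ≤ s → s ≤ S₀ →
      Real.log (1 + τ) ≤ Phi u v κ K N δ σ y s → ((σ, y, s) : ℝ × E d × ℝ) ∈ V := by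
    intro σ hσ1 hσ2 y hy s hs0 hs1 hΦ
    obtain ⟨h1, h2, _⟩ := confine hf hΩ hv hκ hN hK hδ hs₀ hB1 hτ hS₀ hapr hKcosh hσ1 hσ2 hy
      hs0 hs1 hΦ
    refine ⟨⟨⟨hσ1, hσ2⟩, ⟨⟨subset_closure hy, h2⟩, ?_⟩, ⟨hs0, hs1⟩⟩, hΦ⟩
    rw [mem_closedBall, dist_zero_right]
    exact h1
  have hVne : V.Nonempty :=
    ⟨(s₀, y₁, s₁), hmemV s₀ le_rfl (by linarith) y₁ hy₁ s₁ hs₁0 hs₁1 hviol⟩
  obtain ⟨⟨σ', y', s'⟩, hz, hzmax⟩ := hVcomp.exists_isMaxOn hVne continuousOn_fst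
  obtain ⟨⟨⟨hσ1, hσ2⟩, hyKc, ⟨hs0, hs1⟩⟩, hΦge⟩ := hz
  simp only at hσ1 hσ2 hyKc hs0 hs1
  have hy'Ω : y' ∈ Ω := hKcΩ hyKc
  have hΦge' : Real.log (1 + τ) ≤ Phi u v κ K N δ σ' y' s' := hΦge
  have hσlt : σ' < S₀ + s₀ :=
    (confine hf hΩ hv hκ hN hK hδ hs₀ hB1 hτ hS₀ hapr hKcosh hσ1 hσ2 hy'Ω hs0 hs1 hΦge').2.2
  have hδlog : 0 ≤ δ / 2 * Real.log (1 + ‖y'‖ ^ 2) := by
    have := Real.log_nonneg (one_le_w y')
    positivity
  -- global upper bound at σ'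
  have hupper : ∀ y ∈ Ω, ∀ s, 0 ≤ s → s ≤ S₀ → Phi u v κ K N δ σ' y s ≤ Real.log (1 + τ) := by
    intro y hy s hs0' hs1'
    by_contra hcon
    push Not at hcon
    have h1 : ∀ᶠ σ in 𝓝[>] σ', Real.log (1 + τ) < Phi u v κ K N δ σ y s := by
      apply Filter.Eventually.filter_mono nhdsWithin_le_nhds
      exact (Phi_continuous_sigma u v κ K N δ y s).continuousAt.eventually (lt_mem_nhds hcon)
    have h2 : ∀ᶠ σ in 𝓝[>] σ', σ ∈ Ioo σ' (S₀ + s₀) := Ioo_mem_nhdsGT hσlt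
    obtain ⟨σ, h3, h4⟩ := (h1.and h2).exists
    have h5 := hmemV σ (by linarith [h4.1]) h4.2.le y hy s hs0' hs1' h3.le
    have h6 := hzmax h5
    simp only [Set.mem_ofPred_eq] at h6
    linarith [h4.1]
  have hΦeq : Phi u v κ K N δ σ' y' s' = Real.log (1 + τ) :=
    le_antisymm (hupper y' hy'Ω s' hs0 hs1) hΦge'
  have hvy' := hv.pos y' hy'Ω
  have hvy'1 := hv.le_one hf hΩ hy'Ω
  have hlogv' : Real.log (v y') ≤ 0 := Real.log_nonpos hvy'.le hvy'1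
  refine ⟨σ', y', s', hσ1, hy'Ω, ?_, ?_, hΦeq, hupper⟩
  · rcases lt_or_eq_of_le hs0 with h | h
    · exact h
    · exfalso
      have h1 := Phi_neg (δ := δ) hf hΩ hv hκ hN hK hs₀ hapr hKcosh hy'Ω hs0 hs1 σ' (by
        rw [← h, le_abs]
        right
        linarith)
      linarith
  · rcases lt_or_eq_of_le hs1 with h | h
    · exact h
    · exfalso
      have h1 := hstart y' hy'Ω
      have h3 := hu.pos _ (hdil y' hy'Ω (Real.exp S₀) (Real.one_le_exp hS₀.le))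
      have h4 : Real.log (v y') ≤ Real.log (1 + τ / 2) + Real.log (u (Real.exp S₀ • y')) := by
        rw [← Real.log_mul (by positivity) h3.ne']
        exact Real.log_le_log hvy' h1
      have h5 : Real.log (1 + τ / 2) < Real.log (1 + τ) := by
        apply Real.log_lt_log (by positivity)
        linarith
      have h6 : 0 ≤ pen K N δ (s' - σ') (1 + ‖y'‖ ^ 2) := pen_nonneg hK (by positivity)
      have h7 : κ * Real.log (v y') ≤ 0 := mul_nonpos_of_nonneg_of_nonpos hκ.le hlogv'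
      unfold Phi at hΦge'
      rw [h] at hΦge' h6
      linarith

end ExtStar
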