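import Pool.Agent.Helper340_star.Calc

/-!
# The penalty function and the numerical inequality at a touching point

Helper file for `MP_437bdf_an`.
-/

open InnerProductSpace Laplacian Filter Topology Set Metric

namespace ExtStar

theorem Jet.cosh {φ : ℝ → ℝ} {a b : ℝ} (h : Jet φ a b) :
    Jet (fun t => Real.cosh (φ t)) (Real.sinh (φ 0) * a)
      (Real.cosh (φ 0) * a ^ 2 + Real.sinh (φ 0) * b) :=
  h.comp (F := Real.cosh) (F' := Real.sinh) (Eventually.of_forall fun x => Real.hasDerivAt_cosh x)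
    (Real.hasDerivAt_sinh _)

/-- The penalty, as a function of `c = s - σ` and `w = 1 + |y|²`. -/
noncomputable def pen (K N δ c w : ℝ) : ℝ :=
  K * (w * (Real.cosh (N * (c - δ / 2 * Real.log w)) - 1))

theorem pen_nonneg {K N δ c w : ℝ} (hK : 0 ≤ K) (hw : 0 ≤ w) : 0 ≤ pen K N δ c w := by
  unfold pen
  have := Real.one_le_cosh (N * (c - δ / 2 * Real.log w))
  apply mul_nonneg hK (mul_nonneg hw (by linarith))

theorem jet_w {d : ℕ} (y : E d) (i : Fin d) :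
    Jet (fun t => 1 + ‖y + t • bv i‖ ^ 2) (2 * y i) 2 := by
  have := (Jet.const 1).add (jet_normSq y 0 i)
  simpa using this

theorem jet_pen {d : ℕ} (K N δ c : ℝ) (y : E d) (i : Fin d) :
    Jet (fun t => pen K N δ c (1 + ‖y + t • bv i‖ ^ 2))
      (2 * y i * (K * ((Real.cosh (N * (c - δ / 2 * Real.log (1 + ‖y‖ ^ 2))) - 1) -
        N * δ / 2 * Real.sinh (N * (c - δ / 2 * Real.log (1 + ‖y‖ ^ 2))))))
      (2 * (K * ((Real.cosh (N * (c - δ / 2 * Real.log (1 + ‖y‖ ^ 2))) - 1) -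
        N * δ / 2 * Real.sinh (N * (c - δ / 2 * Real.log (1 + ‖y‖ ^ 2))))) +
        (K / (1 + ‖y‖ ^ 2) * (-(2 * (N * δ) * Real.sinh (N * (c - δ / 2 *
          Real.log (1 + ‖y‖ ^ 2)))) + Real.cosh (N * (c - δ / 2 * Real.log (1 + ‖y‖ ^ 2))) *
          (N * δ) ^ 2)) * (y i) ^ 2) := by
  have hw : (0:ℝ) < 1 + ‖y‖ ^ 2 := by positivity
  have hjw := jet_w y i
  have hlog := hjw.log (by simpa using hw.ne')
  have hb := ((Jet.const c).sub (hlog.const_mul (δ / 2))).const_mul N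
  have hcosh := hb.cosh.sub (Jet.const 1)
  have hfin := (hjw.mul hcosh).const_mul K
  refine hfin.cast ?_ ?_
  · simp only [zero_smul, add_zero]
    field_simp
    ring
  · simp only [zero_smul, add_zero]
    field_simp
    ring

theorem sum_const_eq (d : ℕ) (c : ℝ) : ∑ _i : Fin d, c = d * c := by simp

theorem cosh_le_one_add_abs_sinh (x : ℝ) : Real.cosh x ≤ 1 + |Real.sinh x| := by
  have h1 := Real.cosh_sq x
  have h2 := Real.one_le_cosh x
  have h3 : |Real.sinh x| ^ 2 = Real.sinh x ^ 2 := sq_abs _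
  have h4 := abs_nonneg (Real.sinh x)
  nlinarith

theorem cosh_sub_one_le (x : ℝ) : Real.cosh x - 1 ≤ Real.sinh x ^ 2 / 2 := by
  have h1 := Real.cosh_sq x
  have h2 := Real.one_le_cosh x
  nlinarith

theorem sq_le_sinh_sq (x : ℝ) : x ^ 2 ≤ Real.sinh x ^ 2 := by
  rcases le_total 0 x with h | h
  · have := Real.self_le_sinh_iff.2 h
    nlinarith
  · have := Real.sinh_le_self_iff.2 h
    nlinarith

/-- The numerical inequality at a touching point. -/
theorem touch_ineq {d : ℕ} {y a G p q : Fin d → ℝ} {κ N K δ w S C Fv FU : ℝ}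
    (hN : 16 ≤ N) (hκ : κ = 16 / N) (hK : 0 < K) (hδ : 0 ≤ δ) (hNδ : N * δ ≤ 1)
    (hw : w = 1 + ∑ i, y i ^ 2) (hC1 : 1 ≤ C) (hCS : C ≤ 1 + |S|)
    (hG : ∑ i, y i * G i = -(K * w * N * S))
    (h1 : ∀ i, (1 + κ) * a i = G i + 2 * y i * (K * ((C - 1) - N * δ / 2 * S)))
    (h2 : ∀ i, (1 + κ) * (p i - a i ^ 2) - (q i - G i ^ 2) -
      (2 * (K * ((C - 1) - N * δ / 2 * S)) +
        (K / w * (-(2 * (N * δ) * S) + C * (N * δ) ^ 2)) * (y i) ^ 2) ≤ 0)
    (hp : ∑ i, p i = -Fv) (hq : ∑ i, q i = -FU) :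
    FU + 2 / N * ∑ i, G i ^ 2 ≤ (1 + κ) * Fv + (3 + 3 * d) ^ 2 / (8 * N) + K * (N * δ) ^ 2 ∧
      K ^ 2 * N ^ 2 * S ^ 2 * w ≤ ∑ i, G i ^ 2 := by
  have hN0 : 0 < N := by linarith
  set Y := ∑ i, y i ^ 2 with hY
  have hY0 : 0 ≤ Y := Finset.sum_nonneg (fun i _ => sq_nonneg _)
  have hwpos : 0 < w := by linarith
  have hw1 : 1 ≤ w := by linarith
  set g := ∑ i, G i ^ 2 with hg
  have hg0 : 0 ≤ g := Finset.sum_nonneg (fun i _ => sq_nonneg _)
  set A := ∑ i, a i ^ 2 with hA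
  set P1 := K * ((C - 1) - N * δ / 2 * S) with hP1
  set P2 := K / w * (-(2 * (N * δ) * S) + C * (N * δ) ^ 2) with hP2
  clear_value P1 P2
  set s := |S| with hs
  have hs0 : 0 ≤ s := abs_nonneg _
  have hss : s ^ 2 = S ^ 2 := sq_abs S
  have hS1 : S ≤ s := le_abs_self S
  have hS2 : -s ≤ S := neg_abs_le S
  have hNδ0 : 0 ≤ N * δ := by positivity
  -- Cauchy-Schwarz
  have hCS2 : (∑ i, y i * G i) ^ 2 ≤ Y * g := Finset.sum_mul_sq_le_sq_mul_sq _ _ _
  have hiii : K ^ 2 * N ^ 2 * S ^ 2 * w ≤ g := by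
    rw [hG] at hCS2
    have h3 : (K ^ 2 * N ^ 2 * S ^ 2 * w) * w ≤ g * w := by
      calc (K ^ 2 * N ^ 2 * S ^ 2 * w) * w = (-(K * w * N * S)) ^ 2 := by ring
        _ ≤ Y * g := hCS2
        _ ≤ w * g := by
          apply mul_le_mul_of_nonneg_right _ hg0
          linarith
        _ = g * w := by ring
    exact le_of_mul_le_mul_right h3 hwpos
  refine ⟨?_, hiii⟩
  -- bounds for P1
  have hNδS : |N * δ / 2 * S| ≤ s / 2 := by
    rw [abs_mul, abs_of_nonneg (by linarith : 0 ≤ N * δ / 2)]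
    nlinarith
  have hP1abs : |P1| ≤ 3 / 2 * (K * s) := by
    rw [hP1, abs_mul, abs_of_pos hK]
    have h4 : |(C - 1) - N * δ / 2 * S| ≤ s + s / 2 := by
      refine (abs_sub _ _).trans ?_
      have : |C - 1| ≤ s := by
        rw [abs_of_nonneg (by linarith)]; linarith
      linarith
    calc K * |(C - 1) - N * δ / 2 * S| ≤ K * (s + s / 2) := by gcongr
      _ = 3 / 2 * (K * s) := by ring
  have hKs0 : 0 ≤ K * s := by positivity
  have hKsN : (K * s * N) ^ 2 ≤ g := by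
    have : (K * s * N) ^ 2 = K ^ 2 * N ^ 2 * S ^ 2 * 1 := by rw [← hss]; ring
    rw [this]
    refine le_trans ?_ hiii
    gcongr
  -- sum of squares of a
  have hA2 : (1 + κ) ^ 2 * A = g + 4 * P1 * (∑ i, y i * G i) + 4 * P1 ^ 2 * Y := by
    rw [hA, hg, hY, Finset.mul_sum, Finset.mul_sum, Finset.mul_sum, ← Finset.sum_add_distrib,
      ← Finset.sum_add_distrib]
    apply Finset.sum_congr rfl
    intro i _
    have : (1 + κ) ^ 2 * a i ^ 2 = ((1 + κ) * a i) ^ 2 := by ring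
    rw [this, h1 i]
    ring
  have hcross : 4 * P1 * (∑ i, y i * G i) ≤ 6 / N * g := by
    rw [hG]
    have h5 : |4 * P1 * -(K * w * N * S)| ≤ 4 * (3 / 2 * (K * s)) * (K * w * N * s) := by
      rw [abs_mul, abs_mul, abs_neg, abs_mul, abs_of_pos (by positivity : 0 < K * w * N),
        abs_of_pos (by norm_num : (0:ℝ) < 4)]
      gcongr
    have h6 : 4 * (3 / 2 * (K * s)) * (K * w * N * s) = 6 / N * (K ^ 2 * N ^ 2 * S ^ 2 * w) := by
      rw [← hss]; field_simp; ring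
    have h7 : 6 / N * (K ^ 2 * N ^ 2 * S ^ 2 * w) ≤ 6 / N * g := by gcongr
    linarith [le_abs_self (4 * P1 * -(K * w * N * S))]
  have hP1sq : 4 * P1 ^ 2 * Y ≤ 9 / N ^ 2 * g := by
    have h5 : P1 ^ 2 ≤ (3 / 2 * (K * s)) ^ 2 := by
      rw [← sq_abs P1]
      gcongr
    have h6 : 4 * P1 ^ 2 * Y ≤ 4 * (3 / 2 * (K * s)) ^ 2 * w := by
      gcongr
      linarith
    have h7 : 4 * (3 / 2 * (K * s)) ^ 2 * w = 9 / N ^ 2 * (K ^ 2 * N ^ 2 * S ^ 2 * w) := by
      rw [← hss]; field_simp; ring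
    have h8 : 9 / N ^ 2 * (K ^ 2 * N ^ 2 * S ^ 2 * w) ≤ 9 / N ^ 2 * g := by gcongr
    linarith
  have hκ0 : 0 < 1 + κ := by rw [hκ]; positivity
  have hAle : (1 + κ) * A ≤ (1 - 4 / N) * g := by
    have h5 : (1 + κ) * ((1 + κ) * A) ≤ (1 + κ) * ((1 - 4 / N) * g) := by
      have h6 : (1 + κ) * ((1 + κ) * A) = (1 + κ) ^ 2 * A := by ring
      rw [h6, hA2]
      have h7 : g + 6 / N * g + 9 / N ^ 2 * g ≤ (1 + κ) * ((1 - 4 / N) * g) := by
        have h8 : (1 + κ) * ((1 - 4 / N) * g) - (g + 6 / N * g + 9 / N ^ 2 * g) =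
            g * ((6 * N - 73) / N ^ 2) := by
          rw [hκ]; field_simp; ring
        have h9 : 0 ≤ g * ((6 * N - 73) / N ^ 2) := by
          apply mul_nonneg hg0
          apply div_nonneg _ (by positivity)
          linarith
        linarith
      linarith
    exact le_of_mul_le_mul_left h5 hκ0
  -- summation of h2
  have hsum : (1 + κ) * (-Fv - A) - (-FU - g) - (d * (2 * P1) + P2 * Y) ≤ 0 := by
    have h5 : ∑ i, ((1 + κ) * (p i - a i ^ 2) - (q i - G i ^ 2) - (2 * P1 + P2 * (y i) ^ 2)) ≤ 0 :=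
      Finset.sum_nonpos (fun i _ => h2 i)
    have h6 : ∑ i, P2 * (y i) ^ 2 = P2 * Y := by rw [hY, Finset.mul_sum]
    rw [Finset.sum_sub_distrib, Finset.sum_sub_distrib, Finset.sum_add_distrib, ← Finset.mul_sum,
      Finset.sum_sub_distrib, Finset.sum_sub_distrib, hp, hq, h6, sum_const_eq] at h5
    exact h5
  have hP1d : d * (2 * P1) ≤ 3 * d * (K * s) := by
    have h5 : P1 ≤ 3 / 2 * (K * s) := (le_abs_self _).trans hP1abs
    have h6 : (0:ℝ) ≤ d := by positivity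
    nlinarith
  have hP2Y : P2 * Y ≤ 3 * (K * s) + K * (N * δ) ^ 2 := by
    have h5 : -(2 * (N * δ) * S) + C * (N * δ) ^ 2 ≤ 3 * s + (N * δ) ^ 2 := by
      have h6 : -(2 * (N * δ) * S) ≤ 2 * s := by
        have h7 : -S ≤ s := by linarith
        have h8 : N * δ * (-S) ≤ 1 * s := by
          calc N * δ * (-S) ≤ N * δ * s := by gcongr
            _ ≤ 1 * s := by gcongr
        linarith
      have h9 : C * (N * δ) ^ 2 ≤ s + (N * δ) ^ 2 := by
        have h10 : (N * δ) ^ 2 ≤ 1 := pow_le_one₀ hNδ0 hNδ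
        have h11 : C * (N * δ) ^ 2 ≤ (1 + s) * (N * δ) ^ 2 := by gcongr
        have h12 : s * (N * δ) ^ 2 ≤ s * 1 := by gcongr
        linarith
      linarith
    have h6 : 0 ≤ 3 * s + (N * δ) ^ 2 := by positivity
    calc P2 * Y = K * (Y / w) * (-(2 * (N * δ) * S) + C * (N * δ) ^ 2) := by
          rw [hP2]; field_simp
      _ ≤ K * (Y / w) * (3 * s + (N * δ) ^ 2) := by gcongr
      _ ≤ K * 1 * (3 * s + (N * δ) ^ 2) := by
          gcongr
          rw [div_le_one hwpos]; linarith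
      _ = 3 * (K * s) + K * (N * δ) ^ 2 := by ring
  have hAM : (3 + 3 * d) * (K * s) ≤ 2 / N * g + (3 + 3 * (d:ℝ)) ^ 2 / (8 * N) := by
    have h5 : (3 + 3 * (d:ℝ)) * (K * s * N) ≤ 2 * g + (3 + 3 * (d:ℝ)) ^ 2 / 8 := by
      nlinarith [sq_nonneg (4 * (K * s * N) - (3 + 3 * (d:ℝ)))]
    have h6 : (3 + 3 * (d:ℝ)) * (K * s) = (3 + 3 * (d:ℝ)) * (K * s * N) / N := by field_simp
    have h7 : 2 / N * g + (3 + 3 * (d:ℝ)) ^ 2 / (8 * N) =
        (2 * g + (3 + 3 * (d:ℝ)) ^ 2 / 8) / N := by field_simp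
    rw [h6, h7]
    gcongr
  have h20 : (1 - 4 / N) * g = g - 2 * (2 / N * g) := by ring
  linarith

end ExtStar
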