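import Pool.Agent.Helper340_star.Apriori
import Pool.Agent.Helper340_star.Touch

/-!
# First and second order conditions at a touching point

Helper file for `MP_437bdf_an`.
-/

open InnerProductSpace Laplacian Filter Topology Set Metric

namespace ExtStar

variable {d : ℕ} {γ : ℝ} {f : ℝ → ℝ} {Ω : Set (E d)} {u v : E d → ℝ}

/-- the penalised comparison functional -/
noncomputable def Phi (u v : E d → ℝ) (κ K N δ σ : ℝ) (y : E d) (s : ℝ) : ℝ :=
  (1 + κ) * Real.log (v y) - Real.log (u (Real.exp s • y)) -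
    pen K N δ (s - σ) (1 + ‖y‖ ^ 2)

theorem vec_eq_sum (z : E d) : z = ∑ i, z i • bv i := by
  have h := (EuclideanSpace.basisFun (Fin d) ℝ).sum_repr z
  simpa [bv] using h.symm

theorem fderiv_eq_sum (u : E d → ℝ) (x z : E d) :
    fderiv ℝ u x z = ∑ i, z i * D1 u x i := by
  conv_lhs => rw [vec_eq_sum z]
  rw [map_sum]
  apply Finset.sum_congr rfl
  intro i _
  rw [map_smul]
  rfl

theorem touching (hΩ : IsOpen Ω) (hdil : DilInv Ω)
    (hu : IsSol f Ω u) (hv : IsSol f Ω v)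
    {κ K N δ σ S₀ : ℝ} (hN : 16 ≤ N) (hκ : κ = 16 / N) (hK : 0 < K) (hδ : 0 ≤ δ)
    (hNδ : N * δ ≤ 1) {y : E d} {s : ℝ} (hy : y ∈ Ω) (hs0 : 0 < s) (hs1 : s < S₀)
    (hmax : ∀ y' ∈ Ω, ∀ s', 0 ≤ s' → s' ≤ S₀ → Phi u v κ K N δ σ y' s' ≤ Phi u v κ K N δ σ y s) :
    ∃ g : ℝ, 0 ≤ g ∧
      Real.exp s ^ 2 * (f (u (Real.exp s • y)) / u (Real.exp s • y)) + 2 / N * g ≤
        (1 + κ) * (f (v y) / v y) + (3 + 3 * d) ^ 2 / (8 * N) + K * (N * δ) ^ 2 ∧
      K ^ 2 * N ^ 2 * Real.sinh (N * (s - σ - δ / 2 * Real.log (1 + ‖y‖ ^ 2))) ^ 2 *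
        (1 + ‖y‖ ^ 2) ≤ g := by
  set l := Real.exp s with hl
  have hl1 : 1 ≤ l := Real.one_le_exp hs0.le
  have hlyΩ : l • y ∈ Ω := hdil y hy l hl1
  have huy := hu.pos _ hlyΩ
  have hvy := hv.pos _ hy
  set U := u (l • y) with hU
  set V := v y with hV
  set b := s - σ - δ / 2 * Real.log (1 + ‖y‖ ^ 2) with hb
  have hw : (0:ℝ) < 1 + ‖y‖ ^ 2 := by positivity
  -- local max in `y`
  have hlocy : IsLocalMax (fun y' => Phi u v κ K N δ σ y' s) y := by
    apply IsMaxOn.isLocalMax (s := Ω) _ (hΩ.mem_nhds hy)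
    intro y' hy'
    exact hmax y' hy' s hs0.le hs1.le
  have hjet : ∀ i, Jet (fun t => Phi u v κ K N δ σ (y + t • bv i) s)
      ((1 + κ) * (D1 v y i / V) - (l * D1 u (l • y) i / U) -
        (2 * y i * (K * ((Real.cosh (N * b) - 1) - N * δ / 2 * Real.sinh (N * b)))))
      ((1 + κ) * (D2 v y i / V - (D1 v y i / V) ^ 2) -
        (l ^ 2 * D2 u (l • y) i / U - (l * D1 u (l • y) i / U) ^ 2) -
        (2 * (K * ((Real.cosh (N * b) - 1) - N * δ / 2 * Real.sinh (N * b))) +
        (K / (1 + ‖y‖ ^ 2) * (-(2 * (N * δ) * Real.sinh (N * b)) + Real.cosh (N * b) *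
          (N * δ) ^ 2)) * (y i) ^ 2)) := by
    intro i
    have h1 := ((jet_bv (hv.contDiffAt hΩ hy) i).log (by simpa using hvy.ne')).const_mul (1 + κ)
    have h2 := (jet_dil (hu.contDiffAt hΩ hlyΩ) i).log (by simpa using huy.ne')
    have h3 := jet_pen K N δ (s - σ) y i
    have h4 := (h1.sub h2).sub h3
    simp only [zero_smul, add_zero] at h4
    exact h4
  have hloc1 := fun i => (hjet i).localMax (localMax_line hlocy (bv i))
  -- local max in `s`
  have hlocs : IsLocalMax (fun s' => Phi u v κ K N δ σ y s') s := by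
    apply IsMaxOn.isLocalMax (s := Ioo 0 S₀) _ (Ioo_mem_nhds hs0 hs1)
    intro s' hs'
    exact hmax y hy s' hs'.1.le hs'.2.le
  have hders : HasDerivAt (fun s' => Phi u v κ K N δ σ y s')
      (0 - (fderiv ℝ u (l • y) (l • y)) / U -
        K * ((1 + ‖y‖ ^ 2) * (Real.sinh (N * b) * (N * (1 - 0) )))) s := by
    unfold Phi
    have h1 : HasDerivAt (fun s' : ℝ => Real.exp s' • y) (l • y) s :=
      (Real.hasDerivAt_exp s).smul_const y
    have h2 : HasDerivAt (fun s' : ℝ => u (Real.exp s' • y)) (fderiv ℝ u (l • y) (l • y)) s := by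
      have h3 : HasFDerivAt u (fderiv ℝ u (l • y)) (Real.exp s • y) :=
        ((hu.contDiffAt hΩ hlyΩ).differentiableAt (by norm_num)).hasFDerivAt
      exact h3.comp_hasDerivAt s h1
    have h4 := h2.log huy.ne'
    have h5 : HasDerivAt (fun s' : ℝ => pen K N δ (s' - σ) (1 + ‖y‖ ^ 2))
        (K * ((1 + ‖y‖ ^ 2) * (Real.sinh (N * b) * (N * (1 - 0))))) s := by
      unfold pen
      apply HasDerivAt.const_mul
      apply HasDerivAt.const_mul
      have h6 : HasDerivAt (fun s' : ℝ => N * (s' - σ - δ / 2 * Real.log (1 + ‖y‖ ^ 2)))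
          (N * (1 - 0)) s := by
        apply HasDerivAt.const_mul
        have := ((hasDerivAt_id s).sub_const σ).sub_const (δ / 2 * Real.log (1 + ‖y‖ ^ 2))
        simpa using this
      exact (h6.cosh).sub_const 1
    exact ((hasDerivAt_const s _).sub h4).sub h5
  have hs' := hlocs.hasDerivAt_eq_zero hders
  have hG : ∑ i, y i * (l * D1 u (l • y) i / U) =
      -(K * (1 + ‖y‖ ^ 2) * N * Real.sinh (N * b)) := by
    have h7 : ∑ i, y i * (l * D1 u (l • y) i / U) = (fderiv ℝ u (l • y) (l • y)) / U := by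
      rw [fderiv_eq_sum, Finset.sum_div]
      apply Finset.sum_congr rfl
      intro i _
      simp only [PiLp.smul_apply, smul_eq_mul]
      ring
    rw [h7]
    linarith
  have hres := touch_ineq (d := d) (y := fun i => y i) (a := fun i => D1 v y i / V)
    (G := fun i => l * D1 u (l • y) i / U) (p := fun i => D2 v y i / V)
    (q := fun i => l ^ 2 * D2 u (l • y) i / U) (κ := κ) (N := N) (K := K) (δ := δ)
    (w := 1 + ‖y‖ ^ 2) (S := Real.sinh (N * b)) (C := Real.cosh (N * b))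
    (Fv := f V / V) (FU := l ^ 2 * (f U / U)) hN hκ hK hδ hNδ
    (by rw [norm_sq_sum]) (Real.one_le_cosh _) (cosh_le_one_add_abs_sinh _) hG
    (fun i => by have := (hloc1 i).1; linarith)
    (fun i => (hloc1 i).2)
    (by
      rw [← Finset.sum_div, ← laplacian_eq_sum, ← neg_div]
      congr 1
      have := hv.eqn y hy
      linarith)
    (by
      rw [← Finset.sum_div, ← Finset.mul_sum, ← laplacian_eq_sum]
      have := hu.eqn _ hlyΩ
      have h8 : Δ u (l • y) = - f U := by simp only [hU]; linarith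
      rw [h8]
      ring)
  refine ⟨_, Finset.sum_nonneg (fun i _ => sq_nonneg _), hres.1, hres.2⟩

end ExtStar
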