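import Pool.Agent.Helper340_star.Bounds

/-!
# Exponential lower bound along rays, and the two a priori comparisons

Helper file for `MP_437bdf_an`.
-/

open InnerProductSpace Laplacian Filter Topology Set Metric

namespace ExtStar

variable {d : ℕ} {γ : ℝ} {f : ℝ → ℝ} {Ω : Set (E d)} {u v : E d → ℝ}

/-- `Ω` is invariant under dilations `x ↦ l x`, `l ≥ 1`. -/
def DilInv (Ω : Set (E d)) : Prop := ∀ x ∈ Ω, ∀ l : ℝ, 1 ≤ l → l • x ∈ Ω

theorem sum_quad (a b c k : ℝ) (z e : E d) :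
    ∑ i : Fin d, (a * e i ^ 2 + b * (e i * z i) + c * z i ^ 2 + k) =
      a * ‖e‖ ^ 2 + b * inner ℝ z e + c * ‖z‖ ^ 2 + d * k := by
  rw [Finset.sum_add_distrib, Finset.sum_add_distrib, Finset.sum_add_distrib, sum_const_two,
    norm_sq_sum, norm_sq_sum, ← Finset.mul_sum, ← Finset.mul_sum, ← Finset.mul_sum]
  simp [PiLp.inner_apply]

theorem DilInv.closedBall (hΩ : DilInv Ω) {x : E d} {r l : ℝ} (hl : 1 ≤ l)
    (hb : closedBall x r ⊆ Ω) : closedBall (l • x) (l * r) ⊆ Ω := by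
  intro w hw
  have hl0 : 0 < l := by linarith
  have h1 : l⁻¹ • w ∈ Ω := by
    apply hb
    rw [mem_closedBall, dist_eq_norm] at hw ⊢
    have h2 : l⁻¹ • w - x = l⁻¹ • (w - l • x) := by
      rw [smul_sub, smul_smul, inv_mul_cancel₀ hl0.ne', one_smul]
    rw [h2, norm_smul, Real.norm_eq_abs, abs_of_pos (inv_pos.2 hl0)]
    rw [inv_mul_le_iff₀ hl0]
    exact hw
  have h3 := hΩ _ h1 l hl
  rwa [smul_smul, mul_inv_cancel₀ hl0.ne', one_smul] at h3

theorem DilInv.ball (hΩ : DilInv Ω) {x : E d} {r l : ℝ} (hl : 1 ≤ l)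
    (hb : ball x r ⊆ Ω) : ball (l • x) (l * r) ⊆ Ω := by
  intro w hw
  have hl0 : 0 < l := by linarith
  have h1 : l⁻¹ • w ∈ Ω := by
    apply hb
    rw [mem_ball, dist_eq_norm] at hw ⊢
    have h2 : l⁻¹ • w - x = l⁻¹ • (w - l • x) := by
      rw [smul_sub, smul_smul, inv_mul_cancel₀ hl0.ne', one_smul]
    rw [h2, norm_smul, Real.norm_eq_abs, abs_of_pos (inv_pos.2 hl0)]
    rw [inv_mul_lt_iff₀ hl0]
    exact hw
  have h3 := hΩ _ h1 l hl
  rwa [smul_smul, mul_inv_cancel₀ hl0.ne', one_smul] at h3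

/-- Exponential lower bound for solutions along rays. -/
theorem tube (d : ℕ) (hf : PositiveReaction γ f) {r : ℝ} (hr : 0 < r) :
    ∃ B c : ℝ, 0 ≤ B ∧ 0 < c ∧ c ≤ 1 ∧
      ∀ (Ω : Set (E d)) (u : E d → ℝ), IsOpen Ω → IsSol f Ω u → DilInv Ω → (0 : E d) ∉ Ω →
        ∀ x, closedBall x (2 * r) ⊆ Ω → c * Real.exp (-(B * ‖x‖)) ≤ u x := by
  obtain ⟨R₀, c₀, hR₀, hc₀, hc₁, hhair⟩ := hair d hf
  set T := (R₀ + r) / r + 1 with hT
  have hT1 : 1 ≤ T := by
    have : 0 ≤ (R₀ + r) / r := by positivity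
    simp only [hT]; linarith
  have hTr : T * (2 * r) = 2 * (R₀ + r) + 2 * r := by simp only [hT]; field_simp
  set B₀ := (d + 1) / r with hB₀
  have hB₀pos : 0 < B₀ := by positivity
  set ι := (1 / r) ^ 2 with hι
  have hιpos : 0 < ι := by positivity
  have hιr : ι * r ^ 2 = 1 := by simp only [hι]; field_simp
  have hB₀sq : B₀ ^ 2 = (d + 1) ^ 2 * ι := by simp only [hι, hB₀]; field_simp
  have hexp1 : Real.exp (-(B₀ * r)) < 1 := by
    apply Real.exp_lt_one_iff.2
    have : 0 < B₀ * r := by positivity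
    linarith
  have hexp0 : 0 < Real.exp (-(B₀ * r)) := Real.exp_pos _
  refine ⟨B₀ * (T - 1), c₀ * (1 - Real.exp (-(B₀ * r))),
    mul_nonneg hB₀pos.le (by linarith), mul_pos hc₀ (by linarith),
    mul_le_one₀ hc₁.le (by linarith) (by linarith), ?_⟩
  intro Ω u hΩ hu hdil h0 x hball
  have hxΩ : x ∈ Ω := hball (mem_closedBall_self (by linarith))
  have hx0 : x ≠ 0 := fun h => h0 (h ▸ hxΩ)
  set n := ‖x‖ with hn
  have hnpos : 0 < n := norm_pos_iff.2 hx0
  set e : E d := n⁻¹ • x with he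
  have hen : ‖e‖ = 1 := by
    rw [he, norm_smul, Real.norm_eq_abs, abs_of_pos (inv_pos.2 hnpos), ← hn]
    field_simp
  have hxe : x = n • e := by
    rw [he, smul_smul, mul_inv_cancel₀ hnpos.ne', one_smul]
  set t₀ := n - r with ht₀
  set ℓ := T * n with hℓ
  have hℓn : n ≤ ℓ := le_mul_of_one_le_left hnpos.le hT1
  -- functions
  have hdist : ∀ (z : E d) (s : ℝ), ‖z - s • e‖ ^ 2 =
      (‖z‖ ^ 2 - (inner ℝ z e) ^ 2) + (inner ℝ z e - s) ^ 2 := by
    intro z s
    rw [@norm_sub_sq_real, inner_smul_right, norm_smul, hen, Real.norm_eq_abs, mul_one, sq_abs]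
    ring
  set S : Set (E d) := {z | t₀ ≤ inner ℝ z e} ∩ ({z | inner ℝ z e ≤ ℓ} ∩
    {z | ‖z‖ ^ 2 - (inner ℝ z e) ^ 2 ≤ r ^ 2}) with hS
  have hSclosed : IsClosed S := by
    apply IsClosed.inter (isClosed_le (by fun_prop) (by fun_prop))
    apply IsClosed.inter (isClosed_le (by fun_prop) (by fun_prop))
    exact isClosed_le (by fun_prop) (by fun_prop)
  have hSmem : ∀ z, z ∈ S ↔ t₀ ≤ inner ℝ z e ∧ inner ℝ z e ≤ ℓ ∧
      ‖z‖ ^ 2 - (inner ℝ z e) ^ 2 ≤ r ^ 2 := by
    intro z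
    simp only [hS, mem_inter_iff, Set.mem_ofPred_eq]
  have hScomp : IsCompact S := by
    apply (isCompact_closedBall (0 : E d) (r + (ℓ + r))).of_isClosed_subset hSclosed
    intro z hz
    rw [hSmem] at hz
    obtain ⟨h1, h2, h3⟩ := hz
    rw [mem_closedBall, dist_zero_right]
    have h4 : (inner ℝ z e) ^ 2 ≤ (ℓ + r) ^ 2 := by
      apply sq_le_sq'
      · simp only [ht₀] at h1; linarith
      · linarith
    have hℓr : 0 ≤ ℓ + r := by linarith
    have h5 : ‖z‖ ^ 2 ≤ (r + (ℓ + r)) ^ 2 := by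
      have h6 : (r + (ℓ + r)) ^ 2 = r ^ 2 + (ℓ + r) ^ 2 + 2 * (r * (ℓ + r)) := by ring
      have h7 : 0 ≤ r * (ℓ + r) := mul_nonneg hr.le hℓr
      linarith
    exact (abs_le_of_sq_le_sq' h5 (by linarith)).2
  have hSΩ : S ⊆ Ω := by
    intro z hz
    rw [hSmem] at hz
    obtain ⟨h1, h2, h3⟩ := hz
    by_cases h4 : n ≤ inner ℝ z e
    · have hl : 1 ≤ inner ℝ z e / n := by rwa [one_le_div hnpos]
      apply hdil.closedBall hl hball
      rw [mem_closedBall, dist_eq_norm]
      have h5 : (inner ℝ z e / n) • x = (inner ℝ z e) • e := by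
        nth_rw 1 [hxe]
        rw [smul_smul]; congr 1; field_simp
      rw [h5]
      have h6 := hdist z (inner ℝ z e)
      rw [sub_self, zero_pow two_ne_zero, add_zero] at h6
      have h7 : ‖z - (inner ℝ z e) • e‖ ≤ r := by
        apply (abs_le_of_sq_le_sq' (by rw [h6]; exact h3) hr.le).2
      have h8 : 2 * r ≤ inner ℝ z e / n * (2 * r) :=
        le_mul_of_one_le_left (by linarith) hl
      linarith
    · push Not at h4
      apply hball
      rw [mem_closedBall, dist_eq_norm]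
      have h6 := hdist z n
      rw [← hxe] at h6
      have h7 : (inner ℝ z e - n) ^ 2 ≤ r ^ 2 := by
        apply sq_le_sq'
        · simp only [ht₀] at h1; linarith
        · linarith
      apply (abs_le_of_sq_le_sq' _ (by linarith)).2
      rw [h6]
      have h8 : (2 * r) ^ 2 = 4 * r ^ 2 := by ring
      have h9 : 0 ≤ r ^ 2 := sq_nonneg r
      linarith
  -- the barrier
  set A : E d → ℝ := fun z => Real.exp (B₀ * (inner ℝ z e - ℓ)) - Real.exp (B₀ * (t₀ - ℓ)) with hA
  set W : E d → ℝ := fun z => (1 - ι * (‖z‖ ^ 2 - (inner ℝ z e) ^ 2)) ^ 2 with hW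
  set ψ : E d → ℝ := fun z => A z * W z with hψ
  have hψc : Continuous ψ := by fun_prop
  have hgc : ContinuousOn (fun w => u w - c₀ * ψ w) S :=
    ((hu.continuousOn.mono subset_closure).mono hSΩ).sub (by fun_prop)
  have hxin : inner ℝ x e = n := by
    nth_rw 1 [hxe]
    rw [inner_smul_left, real_inner_self_eq_norm_sq, hen]
    simp
  have hxS : x ∈ S := by
    rw [hSmem, hxin]
    refine ⟨by simp only [ht₀]; linarith, hℓn, ?_⟩
    rw [← hn, sub_self]; exact sq_nonneg r
  obtain ⟨z, hz, hmin⟩ := hScomp.exists_isMinOn ⟨x, hxS⟩ hgc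
  have hkey : c₀ * ψ x ≤ u x := by
    by_contra hcon
    push Not at hcon
    have h1 : u z < c₀ * ψ z := by
      have : u z - c₀ * ψ z ≤ u x - c₀ * ψ x := hmin hxS
      linarith
    have hzΩ := hSΩ hz
    have huz := hu.pos z hzΩ
    have hz' := hz
    rw [hSmem] at hz'
    obtain ⟨hz1, hz2, hz3⟩ := hz'
    set t := inner ℝ z e with ht
    set p := 1 - ι * (‖z‖ ^ 2 - t ^ 2) with hp
    have hq0 : 0 ≤ ‖z‖ ^ 2 - t ^ 2 := by
      have := hdist z t
      rw [← ht, sub_self, zero_pow two_ne_zero, add_zero] at this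
      rw [← this]; positivity
    have hp1 : p ≤ 1 := by
      simp only [hp]
      have : 0 ≤ ι * (‖z‖ ^ 2 - t ^ 2) := mul_nonneg hιpos.le hq0
      linarith
    have hp0 : 0 ≤ p := by
      simp only [hp]
      have : ι * (‖z‖ ^ 2 - t ^ 2) ≤ ι * r ^ 2 := by gcongr
      linarith
    have hA0 : 0 ≤ A z := by
      simp only [hA]
      have : Real.exp (B₀ * (t₀ - ℓ)) ≤ Real.exp (B₀ * (t - ℓ)) := by
        apply Real.exp_le_exp.2
        apply mul_le_mul_of_nonneg_left _ hB₀pos.le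
        linarith
      linarith
    have hA1 : A z ≤ 1 := by
      simp only [hA]
      have h2 : Real.exp (B₀ * (t - ℓ)) ≤ 1 := by
        apply Real.exp_le_one_iff.2
        apply mul_nonpos_of_nonneg_of_nonpos hB₀pos.le
        linarith
      have h3 := Real.exp_pos (B₀ * (t₀ - ℓ))
      linarith
    have hWz : W z = p ^ 2 := rfl
    have hψz : ψ z = A z * p ^ 2 := rfl
    have hp21 : p ^ 2 ≤ 1 := pow_le_one₀ hp0 hp1
    have hψ1 : ψ z ≤ 1 := by
      rw [hψz]; exact mul_le_one₀ hA1 (sq_nonneg p) hp21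
    have hcψ : c₀ * ψ z ≤ c₀ := mul_le_of_le_one_right hc₀.le hψ1
    -- strict interior
    have hzt0 : t₀ < t := by
      rcases lt_or_eq_of_le hz1 with h | h
      · exact h
      · exfalso
        have : A z = 0 := by simp only [hA, ← ht, ← h, sub_self]
        rw [hψz, this] at h1
        linarith
    have hztℓ : t < ℓ := by
      rcases lt_or_eq_of_le hz2 with h | h
      · exact h
      · exfalso
        have h2 : closedBall z R₀ ⊆ Ω := by
          refine Subset.trans ?_ (hdil.closedBall hT1 hball)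
          apply closedBall_subset_closedBall'
          rw [dist_eq_norm]
          have h5 : T • x = ℓ • e := by
            nth_rw 1 [hxe]
            rw [smul_smul]
          rw [h5]
          have h6 := hdist z ℓ
          rw [← ht, h, sub_self, zero_pow two_ne_zero, add_zero] at h6
          have h7 : ‖z - ℓ • e‖ ≤ r := by
            apply (abs_le_of_sq_le_sq' _ hr.le).2
            rw [h6, ← h]; exact hz3
          rw [hTr]; linarith
        have h3 := hhair Ω u hΩ hu z h2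
        linarith
    have hzq : ‖z‖ ^ 2 - t ^ 2 < r ^ 2 := by
      rcases lt_or_eq_of_le hz3 with h | h
      · exact h
      · exfalso
        have : p = 0 := by simp only [hp, h]; linarith
        rw [hψz, this] at h1
        linarith
    have hV : {w : E d | t₀ < inner ℝ w e} ∩ ({w | inner ℝ w e < ℓ} ∩
        {w | ‖w‖ ^ 2 - (inner ℝ w e) ^ 2 < r ^ 2}) ∈ 𝓝 z := by
      apply IsOpen.mem_nhds
      · apply IsOpen.inter (isOpen_lt (by fun_prop) (by fun_prop))
        apply IsOpen.inter (isOpen_lt (by fun_prop) (by fun_prop))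
        exact isOpen_lt (by fun_prop) (by fun_prop)
      · simp only [mem_inter_iff, Set.mem_ofPred_eq]
        exact ⟨hzt0, hztℓ, hzq⟩
    have hloc : IsLocalMin (fun w => u w - c₀ * ψ w) z := by
      refine IsMinOn.isLocalMin ?_ hV
      intro w hw
      simp only [mem_inter_iff, Set.mem_ofPred_eq] at hw
      refine hmin ?_
      rw [hSmem]
      exact ⟨hw.1.le, hw.2.1.le, hw.2.2.le⟩
    set X := Real.exp (B₀ * (t - ℓ)) with hX
    have hXpos : 0 < X := Real.exp_pos _
    have hAX : A z ≤ X := by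
      simp only [hA]
      have := Real.exp_pos (B₀ * (t₀ - ℓ))
      linarith
    -- jets
    have hjt : ∀ i, Jet (fun s => inner ℝ (z + s • bv i) e) (e i) 0 := by
      intro i
      refine ((Jet.quad t (e i) 0).congr ?_).cast rfl (by ring)
      refine Eventually.of_forall fun s => ?_
      have : inner ℝ (bv i) e = e i := by rw [real_inner_comm]; exact inner_bv i e
      simp only [inner_add_left, inner_smul_left, this, ← ht]
      simp
      ring
    have hjn : ∀ i, Jet (fun s => ‖z + s • bv i‖ ^ 2) (2 * z i) 2 := by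
      intro i
      have := jet_normSq z 0 i
      simpa using this
    have hjq : ∀ i, Jet (fun s => ‖z + s • bv i‖ ^ 2 - (inner ℝ (z + s • bv i) e) ^ 2)
        (2 * z i - 2 * t * e i) (2 - 2 * e i ^ 2) := by
      intro i
      refine ((hjn i).sub (hjt i).sq).cast ?_ ?_
      · simp [← ht]
      · simp
    have hjA : ∀ i, Jet (fun s => A (z + s • bv i)) (X * (B₀ * e i)) (X * (B₀ * e i) ^ 2) := by
      intro i
      refine ((((hjt i).sub (Jet.const ℓ)).const_mul B₀).exp.sub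
        (Jet.const (Real.exp (B₀ * (t₀ - ℓ))))).cast ?_ ?_
      · simp [← ht, hX]
      · simp [← ht, hX]
    have hjW : ∀ i, Jet (fun s => W (z + s • bv i))
        (2 * p * (-(ι * (2 * z i - 2 * t * e i))))
        (2 * (-(ι * (2 * z i - 2 * t * e i))) ^ 2 + 2 * p * (-(ι * (2 - 2 * e i ^ 2)))) := by
      intro i
      refine (((Jet.const 1).sub ((hjq i).const_mul ι)).sq).cast ?_ ?_
      · simp [← ht, hp]
      · simp [← ht, hp]
    have hjψ : ∀ i, Jet (fun s => c₀ * ψ (z + s • bv i))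
        (c₀ * ((X * (B₀ * e i)) * p ^ 2 + A z * (2 * p * (-(ι * (2 * z i - 2 * t * e i))))))
        (c₀ * ((X * (B₀ * e i) ^ 2) * p ^ 2 + 2 * (X * (B₀ * e i)) *
          (2 * p * (-(ι * (2 * z i - 2 * t * e i)))) + A z *
          (2 * (-(ι * (2 * z i - 2 * t * e i))) ^ 2 + 2 * p * (-(ι * (2 - 2 * e i ^ 2)))))) := by
      intro i
      refine (((hjA i).mul (hjW i)).const_mul c₀).cast ?_ ?_
      · simp [hWz]
      · simp [hWz]
    have hlap := lap_ge_of_localMin (hu.contDiffAt hΩ hzΩ) hjψ hloc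
    have hsum : ∑ i : Fin d, (c₀ * ((X * (B₀ * e i) ^ 2) * p ^ 2 + 2 * (X * (B₀ * e i)) *
          (2 * p * (-(ι * (2 * z i - 2 * t * e i)))) + A z *
          (2 * (-(ι * (2 * z i - 2 * t * e i))) ^ 2 + 2 * p * (-(ι * (2 - 2 * e i ^ 2)))))) =
        c₀ * (X * B₀ ^ 2 * p ^ 2 + A z * ι * (8 - 4 * (d + 1) * p)) := by
      calc _ = ∑ i : Fin d, ((c₀ * (X * B₀ ^ 2 * p ^ 2 + 8 * X * B₀ * p * t * ι +
              A z * (8 * ι ^ 2 * t ^ 2 + 4 * p * ι))) * e i ^ 2 +
              (c₀ * (-(8 * X * B₀ * p * ι) - 16 * A z * ι ^ 2 * t)) * (e i * z i) +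
              (c₀ * (8 * A z * ι ^ 2)) * z i ^ 2 + c₀ * (-(4 * A z * p * ι))) :=
              Finset.sum_congr rfl (fun i _ => by ring)
        _ = _ := by
          rw [sum_quad, hen, ← ht]
          have h9 : ι * ‖z‖ ^ 2 = 1 - p + ι * t ^ 2 := by simp only [hp]; ring
          have h10 : c₀ * (8 * A z * ι ^ 2) * ‖z‖ ^ 2 = c₀ * (8 * A z * ι) * (ι * ‖z‖ ^ 2) := by
            ring
          rw [h10, h9]
          ring
    rw [hsum] at hlap
    have hpos : 0 ≤ X * B₀ ^ 2 * p ^ 2 + A z * ι * (8 - 4 * (d + 1) * p) := by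
      rw [hB₀sq]
      have h11 : X * ((d + 1) ^ 2 * ι) * p ^ 2 + A z * ι * (8 - 4 * (d + 1) * p) =
          ι * (X * ((d + 1) * p) ^ 2 + A z * (8 - 4 * ((d + 1) * p))) := by ring
      rw [h11]
      apply mul_nonneg hιpos.le
      set D := ((d:ℝ) + 1) * p with hD
      by_cases h12 : 0 ≤ 8 - 4 * D
      · positivity
      · push Not at h12
        have h13 : X * (8 - 4 * D) ≤ A z * (8 - 4 * D) :=
          mul_le_mul_of_nonpos_right hAX h12.le
        have h14 : X * D ^ 2 + X * (8 - 4 * D) = X * ((D - 2) ^ 2 + 4) := by ring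
        have h15 : 0 ≤ X * ((D - 2) ^ 2 + 4) := by positivity
        linarith
    have hlap0 : 0 ≤ Δ u z := le_trans (mul_nonneg hc₀.le hpos) hlap
    have heq := hu.eqn z hzΩ
    have huz1 : u z < 1 := by linarith
    have := hf.pos (u z) huz huz1
    linarith
  -- evaluate at x
  have hψx : ψ x = Real.exp (-(B₀ * (T - 1) * n)) * (1 - Real.exp (-(B₀ * r))) := by
    simp only [hψ, hA, hW, hxin, ← hn]
    have h1 : n ^ 2 - n ^ 2 = 0 := by ring
    rw [h1]
    have h2 : Real.exp (B₀ * (n - ℓ)) = Real.exp (-(B₀ * (T - 1) * n)) := by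
      congr 1; simp only [hℓ]; ring
    have h3 : Real.exp (B₀ * (t₀ - ℓ)) = Real.exp (-(B₀ * (T - 1) * n)) *
        Real.exp (-(B₀ * r)) := by
      rw [← Real.exp_add]; congr 1; simp only [ht₀, hℓ]; ring
    rw [h2, h3]; ring
  rw [hψx] at hkey
  calc c₀ * (1 - Real.exp (-(B₀ * r))) * Real.exp (-(B₀ * (T - 1) * n))
      = c₀ * (Real.exp (-(B₀ * (T - 1) * n)) * (1 - Real.exp (-(B₀ * r)))) := by ring
    _ ≤ u x := hkey

end ExtStar
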